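import Pool.Agent.H86.OC.RAS

/-!
# Heavy rows are not hit: laws of tuples
-/

set_option autoImplicit false

namespace Pool.OC.RS

open Finset Real
open Pool.Agent.H49.Ent Pool.Agent.H32.Dense Pool.STK Pool.KAF Pool.KAL Pool.KX

section

variable {Ω Om S T U V' θ γ : Type} [Fintype Ω] [Fintype Om]

/-- The marginal law. -/
theorem law_push {Q : Ω → ℝ} {P : Om → ℝ} {w : Ω → Om} (h : ∀ ω, law Q w ω = P ω) (f : Om → S)
    (s : S) : law Q (fun v => f (w v)) s = law P f s := by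
  classical
  unfold law
  have h1 : ∀ ω, (if f ω = s then P ω else 0) = ∑ v, (if w v = ω then (if f (w v) = s then Q v else 0)
      else 0) := by
    intro ω
    rw [← h ω]
    unfold law
    by_cases c : f ω = s
    · rw [if_pos c]
      refine Finset.sum_congr rfl fun v _ => ?_
      by_cases c1 : w v = ω
      · rw [if_pos c1, if_pos c1, if_pos (by rw [c1]; exact c)]
      · rw [if_neg c1, if_neg c1]
    · rw [if_neg c]
      symm
      refine Finset.sum_eq_zero fun v _ => ?_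
      by_cases c1 : w v = ω
      · rw [if_pos c1, if_neg (by rw [c1]; exact c)]
      · rw [if_neg c1]
  rw [Finset.sum_congr rfl fun ω _ => h1 ω, Finset.sum_comm]
  refine Finset.sum_congr rfl fun v _ => ?_
  rw [Finset.sum_ite_eq]
  simp

theorem cond_push {Q : Ω → ℝ} {P : Om → ℝ} {w : Ω → Om} (h : ∀ ω, law Q w ω = P ω) (f : Om → S)
    (s : S) (ω : Om) :
    law (Pool.Agent.H49.Ent.cond Q (fun v => f (w v)) s) w ω = Pool.Agent.H49.Ent.cond P f s ω := by
  classical
  rw [law_cond, law_push h f s]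
  unfold Pool.Agent.H49.Ent.cond
  by_cases c : f ω = s
  · rw [if_pos c, ← h ω]
    congr 1
    unfold law
    refine Finset.sum_congr rfl fun v _ => ?_
    by_cases c1 : w v = ω
    · have c2 : (w v, f (w v)) = (ω, s) := by rw [c1, c]
      rw [if_pos c1, if_pos c2]
    · have c2 : ¬ (w v, f (w v)) = (ω, s) := fun h => c1 (Prod.ext_iff.mp h).1
      rw [if_neg c1, if_neg c2]
  · rw [if_neg c]
    have : law Q (fun v => (w v, f (w v))) (ω, s) = 0 := by
      unfold law
      refine Finset.sum_eq_zero fun v _ => ?_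
      rw [if_neg]
      intro h
      have h1 : w v = ω := (Prod.ext_iff.mp h).1
      have h2 : f (w v) = s := (Prod.ext_iff.mp h).2
      exact c (by rw [← h1]; exact h2)
    rw [this, zero_div]

theorem H_push {Q : Ω → ℝ} {P : Om → ℝ} {w : Ω → Om} (h : ∀ ω, law Q w ω = P ω) (f : Om → S) :
    H Q (fun v => f (w v)) = H P f :=
  H_eq_of_marginal w (fun ω => h ω) f

theorem CH_push {Q : Ω → ℝ} {P : Om → ℝ} {w : Ω → Om} (h : ∀ ω, law Q w ω = P ω) (f : Om → S)
    (g : Om → T) : CH Q (fun v => f (w v)) (fun v => g (w v)) = CH P f g := by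
  unfold CH
  rw [← H_push h (fun ω => (f ω, g ω)), ← H_push h g]

theorem mi_push {Q : Ω → ℝ} {P : Om → ℝ} {w : Ω → Om} (h : ∀ ω, law Q w ω = P ω) (f : Om → S)
    (g : Om → T) (b : Om → U) :
    mi Q (fun v => f (w v)) (fun v => g (w v)) (fun v => b (w v)) = mi P f g b := by
  unfold mi Pool.KVA.MI
  rw [CH_push h f b, CH_push h g b, ← CH_push h (fun ω => (f ω, g ω)) b]

theorem rowH_push {Q : Ω → ℝ} {P : Om → ℝ} {w : Ω → Om} (h : ∀ ω, law Q w ω = P ω) (N : Om → ℤ)
    (t : Om → θ) (lev K : ℕ) (v : Ω) :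
    rowH Q (fun v => N (w v)) lev K (fun v => t (w v)) v = rowH P N lev K t (w v) := by
  unfold rowH
  exact H_push (fun ω => cond_push h (fun ω => (N ω / ((2 ^ (lev + K) : ℕ) : ℤ), t ω)) _ ω)
    (fun ω => N ω / ((2 ^ lev : ℕ) : ℤ))

theorem wrow_push {Q : Ω → ℝ} {P : Om → ℝ} {w : Ω → Om} (h : ∀ ω, law Q w ω = P ω) (N : Om → ℤ)
    (t : Om → θ) (X lev K : ℕ) (D : ℝ) (v : Ω) :
    wrow Q (fun v => N (w v)) (fun v => t (w v)) X lev K D v = wrow P N t X lev K D (w v) := by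
  classical
  unfold wrow
  congr 1
  refine Finset.sum_congr rfl fun u _ => ?_
  rw [rowH_push h (fun ω => N ω + (u : ℤ)) t lev K v]

/-- A function of the line in the place of the line. -/
theorem mi_line {p : Ω → ℝ} (hp : ∀ ω, 0 ≤ p ω) {L : Ω → S} {x : Ω → T} {x₀ : Ω → U} {V : Ω → V'}
    (hx : Det p x x₀) (hV : Det p (fun ω => (x₀ ω, L ω)) V) :
    mi p V x x₀ ≤ mi p L x (fun _ => ()) := by
  have h1 := mi_chain hp L x₀ x (fun _ => ())
  have h2 := mi_mono hp L x (fun ω => (x₀ ω, x ω)) (fun _ => ()) (fun ω ω' a b h => by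
    have h' := (Prod.ext_iff.mp h).1
    exact Prod.ext (hx ω ω' a b h') h')
  have h3 := mi_nonneg hp L x₀ (fun _ => ())
  have h4 := mi_congr hp L x (b := fun ω => (x₀ ω, ())) (b' := x₀)
    (fun ω ω' _ _ h => (Prod.ext_iff.mp h).1) (fun ω ω' _ _ h => Prod.ext h rfl)
  have h5 := mi_mono_left hp L V x x₀ (fun ω ω' a b h => by
    have h' := Prod.ext_iff.mp h
    exact hV ω ω' a b (Prod.ext h'.2 h'.1))
  linarith

/-- The position at a time and the digits of the line, given all the times. -/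
theorem mi_pos {p : Ω → ℝ} (hp : ∀ ω, 0 ≤ p ω) {L : Ω → S} {x : Ω → T} {t : Ω → θ} {V : Ω → V'}
    {N : Ω → U} (hx : Det p x t) (hV : Det p L V) (hN : Det p (fun ω => (L ω, t ω)) N) :
    mi p N V x ≤ mi p N V t + mi p L x (fun _ => ()) := by
  -- `I(N; V | x) ≤ I(N; (V, x) | t) = I(N; V | t) + I(N; x | V, t)`
  have h1 := mi_chain hp N x V t
  have h2 := mi_congr hp N V (b := fun ω => (x ω, t ω)) (b' := x)
    (fun ω ω' _ _ h => (Prod.ext_iff.mp h).1) (fun ω ω' a b h => Prod.ext h (hx ω ω' a b h))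
  have h3 := mi_nonneg hp N x t
  have h4 := mi_chain hp N V x t
  have h5 := mi_mono hp N (fun ω => (x ω, V ω)) (fun ω => (V ω, x ω)) t (fun ω ω' _ _ h => by
    have h' := Prod.ext_iff.mp (Prod.ext_iff.mp h).1
    exact Prod.ext h'.2 h'.1)
  have h5' := mi_mono hp N (fun ω => (V ω, x ω)) (fun ω => (x ω, V ω)) t (fun ω ω' _ _ h => by
    have h' := Prod.ext_iff.mp (Prod.ext_iff.mp h).1
    exact Prod.ext h'.2 h'.1)
  -- `I(N; x | V, t) ≤ I(L; x | V, t) ≤ I(L; x | t) ≤ I(L; x)`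
  have h6 := mi_mono_left hp L N x (fun ω => (V ω, t ω)) (fun ω ω' a b h => by
    have h' := Prod.ext_iff.mp h
    exact hN ω ω' a b (Prod.ext h'.1 (Prod.ext_iff.mp h'.2).2))
  have h7 := mi_chain hp x V L t
  have h8 := mi_mono hp x L (fun ω => (V ω, L ω)) t (fun ω ω' a b h => by
    have h' := (Prod.ext_iff.mp h).1
    exact Prod.ext (hV ω ω' a b h') h')
  have h9 := mi_nonneg hp x V t
  have h10 := mi_comm hp L x (fun ω => (V ω, t ω))
  have h11 := mi_comm hp L x t
  have h12 := mi_line hp (L := L) (x := x) (x₀ := t) (V := L) hx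
    (fun ω ω' _ _ h => (Prod.ext_iff.mp h).2)
  linarith

/-- The position at a time, given the time. -/
theorem mi_times {p : Ω → ℝ} (hp : ∀ ω, 0 ≤ p ω) {L : Ω → S} {x : Ω → T} {t : Ω → θ} 
    {N : Ω → U} (hx : Det p x t) (hN : Det p (fun ω => (L ω, t ω)) N) :
    mi p N x t ≤ mi p L x (fun _ => ()) := by
  have h6 := mi_mono_left hp L N x t hN
  have h12 := mi_line hp (L := L) (x := x) (x₀ := t) (V := L) hx
    (fun ω ω' _ _ h => (Prod.ext_iff.mp h).2)
  linarith

/-- A cheap label. -/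
theorem mi_label {p : Ω → ℝ} (hp : ∀ ω, 0 ≤ p ω) {N : Ω → S} {m : Ω → T} {V : Ω → V'} {x : Ω → U}
    {x₀ : Ω → γ} (hx : Det p x x₀) :
    mi p N (fun ω => (m ω, V ω)) x ≤ mi p N V x + CH p m (fun ω => (x₀ ω, V ω)) := by
  have h1 := mi_chain hp N V m x
  have h2 := mi_mono hp N (fun ω => (V ω, m ω)) (fun ω => (m ω, V ω)) x (fun ω ω' _ _ h => by
    have h' := Prod.ext_iff.mp (Prod.ext_iff.mp h).1
    exact Prod.ext h'.2 h'.1)
  have h3 : mi p N m (fun ω => (V ω, x ω)) ≤ CH p m (fun ω => (x₀ ω, V ω)) := by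
    rw [mi_eq' hp]
    have e1 := CH_nonneg hp m (fun ω => (N ω, (V ω, x ω)))
    have e2 := CH_mono_ctx hp m (b := fun ω => (V ω, x ω)) (b' := fun ω => (x₀ ω, V ω))
      (fun ω ω' a b h => by
        have h' := Prod.ext_iff.mp h
        exact Prod.ext (hx ω ω' a b h'.2) h'.1)
    linarith
  linarith

end

end Pool.OC.RS
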