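import Pool.Agent.H86.OC.MIA

/-!
# Rows which are not full are not hit: the sum over the scales

`wrow` is the weight of a row at a sample: the fraction of the shifts `u` of the grid for which
the `K` rows of the position above the level `lev`, in the cell of the sample, are not full
(deficit at least `D`) for the law of the position given its time alone.

`RowSumStmt`: the samples `v` are drawn from the law of the line given the cell `G s` and the times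
`x0`; `x` are all the times, `Z ω v` is the displacement of the position, between the times of the
sample `ω`, for the line of the sample `v`.
-/

set_option autoImplicit false

namespace Pool.OC

open Finset Real
open Pool.Agent.H49.Ent Pool.Agent.H32.Dense Pool.STK Pool.KAF Pool.KAL Pool.KX

open Classical in
/-- The weight of a row. -/
noncomputable def wrow {Ω θ : Type} [Fintype Ω] (p : Ω → ℝ) (N : Ω → ℤ) (t : Ω → θ)
    (X lev K : ℕ) (D : ℝ) (ω : Ω) : ℝ :=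
  (∑ u ∈ range (2 ^ X),
    if rowH p (fun v => N v + (u : ℤ)) lev K t ω ≤ K * Real.log 2 - D then (1 : ℝ) else 0) / 2 ^ X

open Classical in
/-- **ROW.** Rows which are not full are not hit: sum over the scales. -/
def RowSumStmt : Prop :=
  ∀ (k k1 c₀ : ℕ) (ε D : ℝ), 0 < ε → ε ≤ 1 → 128 / ε + 12 ≤ D → ∀ Kc : ℕ, ∃ K : ℕ, ∀ Fc : ℕ,
    ∃ (δ : ℝ) (r₀ : ℕ), 0 < δ ∧ ∀ (X : ℕ) (a b : ℤ), b - a ≤ X →
    ∀ (Ω χ χ₀ ν γ O θ : Type) [Fintype Ω] (p : Ω → ℝ) (N₁ N₂ : Ω → ℤ) (t : Ω → θ) (x : Ω → χ)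
      (x0 : Ω → χ₀) (V : Ω → ν) (Z : Ω → Ω → ℝ) (G : ℤ → Ω → γ) (o : ℤ → Ω → O) (F : Finset O)
      (mu : Ω → ℤ) (A : Set Ω), IsLaw p → Det p x t → Det p x x0 →
      (∀ ω, 0 < p ω → |(N₂ ω : ℝ) - N₁ ω - 2 ^ X * Z ω ω| ≤ 2 ^ c₀) →
      (∀ ω ω' v, 0 < p ω → 0 < p ω' → 0 < p v → x ω = x ω' → Z ω v = Z ω' v) →
      (∀ ω v v', 0 < p ω → 0 < p v → 0 < p v' → V v = V v' → Z ω v = Z ω v') →
      (∀ s, Det p (fun ω => (G (s + 1) ω, x0 ω)) (G s)) →
      (∀ s, Det p (fun ω => (V ω, x0 ω)) (G s)) →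
      (∀ s, Det p (fun ω => (G s ω, x ω)) (fun ω => (mu ω, ω ∈ A))) →
      (∀ s ω, o s ω ∈ F) → F.card ≤ Fc →
      (∀ s, Det p (fun ω => (G (s + K) ω, x0 ω)) (o s)) →
      (∀ s, Det p (fun ω => (o s ω, (G s ω, x0 ω))) (G (s + K))) →
      (∀ s, ∀ ω ω', 0 < p ω → 0 < p ω' → ω ∈ A → 0 ≤ s + mu ω → G s ω = G s ω' → x0 ω = x0 ω' →
        |Z ω ω - Z ω ω'| ≤ (2 : ℝ) ^ ((k : ℤ) - (s + mu ω))) →
      RS.mi p V x x0 ≤ δ * X → RS.mi p N₁ V x ≤ δ * X → RS.mi p N₂ V x ≤ δ * X →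
      RS.mi p N₂ x t ≤ δ * X →
      ∑ ω, p ω * ∑ s ∈ Finset.Ico a b,
        (if ω ∈ A ∧ (r₀ : ℤ) ≤ s + mu ω ∧ s + mu ω + r₀ ≤ X then
          wrow p N₂ t X (X + k + 1 - (s + mu ω).toNat) Kc D ω *
            Pr (Pool.Agent.H49.Ent.cond p (fun v => (G s v, x0 v)) (G s ω, x0 ω))
              {v | (2 : ℝ) ^ (-(s + mu ω + k1)) ≤ |Z ω ω - Z ω v|}
        else 0) ≤ ε * X

end Pool.OC
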