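import Pool.Agent.H86.OC.ROKx
import Pool.Agent.H6.OC.J1R

/-!
# Heavy rows exist and are not hit: assembly
-/

set_option autoImplicit false

namespace Pool.OC.RS

open Finset Real
open Pool.Agent.H49.Ent Pool.Agent.H32.Dense Pool.STK Pool.KAF Pool.KAL Pool.KX

theorem ex_K {c D : ℝ} (hc : 0 < c) : ∃ K : ℕ, 8 * (D + Real.log 2) ≤ c * (K * Real.log 2) := by
  have h2 : 0 < Real.log 2 := Real.log_pos (by norm_num)
  obtain ⟨K, hK⟩ := exists_nat_ge (8 * (D + Real.log 2) / (c * Real.log 2))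
  refine ⟨K, ?_⟩
  rw [div_le_iff₀ (by positivity)] at hK
  linarith

/-- ROW of theorem OC. -/
theorem row_OC : Pool.OC.ROWStmt := by
  intro A c hc
  set c' := min c 1 with hc'
  have hc'0 : 0 < c' := lt_min hc one_pos
  have hc'1 : c' ≤ 1 := min_le_right _ _
  refine ⟨c' / 16, by positivity, by linarith, ?_⟩
  intro k k₁ e he
  obtain ⟨D₀, hD₀⟩ := rok_OC k k₁ (c' / 16) e (by positivity) he
  obtain ⟨K, hK⟩ := ex_K (D := max D₀ 0) hc'0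
  obtain ⟨δ, X₀, hδ, hrok⟩ := hD₀ (max D₀ 0) (le_max_left _ _) K
  refine ⟨δ, hδ, ?_⟩
  intro κ π₁ hκ _ hπ
  obtain ⟨π₀, X₁, hπ₀, hj⟩ := Pool.OC.j1_oc c' (max D₀ 0) K k hc'0 (le_max_right _ _) hK κ π₁ hκ hπ
  refine ⟨π₀, max X₀ X₁, hπ₀, ?_⟩
  intro d hd hX hH2 hH5
  refine ⟨Jw d.P d.N d.T d.X k K (max D₀ 0) (c' / 16), ?_,
    hrok A d hd ((le_max_left _ _).trans hX) hH2⟩
  refine hj d hd.law ((le_max_right _ _).trans hX) fun j hjX E hE => (hH5 j hjX E hE).trans ?_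
  have h1 : (1 - c) ≤ 1 - c' := by linarith [min_le_left c 1]
  have h2 : 0 < Real.log 2 := Real.log_pos (by norm_num)
  gcongr

/-- ROW for the data of helper28. -/
theorem row_L1 : Pool.L1.ROW0Stmt := by
  intro A c hc
  set c' := min c 1 with hc'
  have hc'0 : 0 < c' := lt_min hc one_pos
  have hc'1 : c' ≤ 1 := min_le_right _ _
  refine ⟨c' / 16, by positivity, by linarith, ?_⟩
  intro k k₁ Fc e he
  obtain ⟨D₀, hD₀⟩ := rok_L1 A k k₁ Fc (c' / 16) e (by positivity) he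
  obtain ⟨K, hK⟩ := ex_K (D := max D₀ 0) hc'0
  obtain ⟨δ, X₀, hδ, hrok⟩ := hD₀ (max D₀ 0) (le_max_left _ _) K
  refine ⟨δ, hδ, ?_⟩
  intro κ π₁ hκ _ hπ
  obtain ⟨π₀, X₁, hπ₀, hj⟩ := Pool.OC.j1_l1 c' (max D₀ 0) K k hc'0 (le_max_right _ _) hK κ π₁ hκ hπ
  refine ⟨π₀, max X₀ X₁, hπ₀, ?_⟩
  intro d Bd hd hX hH2 hH5
  refine ⟨Jw d.P d.N d.T d.X k K (max D₀ 0) (c' / 16), ?_,
    hrok d hd ((le_max_left _ _).trans hX) hH2⟩
  refine hj d Bd hd.law ((le_max_right _ _).trans hX) fun j hjB hjX E hE =>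
    (hH5 j hjB hjX E hE).trans ?_
  have h1 : (1 - c) ≤ 1 - c' := by linarith [min_le_left c 1]
  have h2 : 0 < Real.log 2 := Real.log_pos (by norm_num)
  gcongr

/-- ROW for the data of helper48. -/
theorem row_M5 : Pool.M5.RROWStmt := by
  intro A c hc
  set c' := min c 1 with hc'
  have hc'0 : 0 < c' := lt_min hc one_pos
  have hc'1 : c' ≤ 1 := min_le_right _ _
  refine ⟨c' / 16, by positivity, by linarith, ?_⟩
  intro k k₁ b e he
  obtain ⟨D₀, hD₀⟩ := rok_M5 A k k₁ b (c' / 16) e (by positivity) he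
  obtain ⟨K, hK⟩ := ex_K (D := max D₀ 0) hc'0
  obtain ⟨δ, X₀, hδ, hrok⟩ := hD₀ (max D₀ 0) (le_max_left _ _) K
  refine ⟨δ, hδ, ?_⟩
  intro κ π₁ hκ _ hπ
  obtain ⟨π₀, X₁, hπ₀, hj⟩ := Pool.OC.j1_m5 c' (max D₀ 0) K k hc'0 (le_max_right _ _) hK κ π₁ hκ hπ
  refine ⟨π₀, max X₀ X₁, hπ₀, ?_⟩
  intro d Bd hd hX hH2 hH5
  refine ⟨Jw d.P d.N d.T d.X k K (max D₀ 0) (c' / 16), ?_,
    hrok d hd ((le_max_left _ _).trans hX) hH2⟩
  refine hj d Bd hd.law ((le_max_right _ _).trans hX) fun j hjB hjX E hE =>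
    (hH5 j hjB hjX E hE).trans ?_
  have h1 : (1 - c) ≤ 1 - c' := by linarith [min_le_left c 1]
  have h2 : 0 < Real.log 2 := Real.log_pos (by norm_num)
  gcongr

end Pool.OC.RS
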