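import Pool.Agent.H86.OC.RASDefs

/-!
# Carries and decoupling
-/

set_option autoImplicit false

namespace Pool.OC.RS

open Finset Real
open Pool.Agent.H49.Ent Pool.Agent.H32.Dense Pool.STK Pool.KAF Pool.KAL Pool.KX

/-! ### Shifts of the grid -/

theorem period_one (M : ℕ) (f : ℤ → ℝ) (n : ℤ) :
    ∑ u ∈ range M, f ((n + u) % M) = ∑ s ∈ range M, f s := by
  have step : ∀ n : ℤ, ∑ u ∈ range M, f ((n + 1 + u) % M) = ∑ u ∈ range M, f ((n + u) % M) := by
    intro n
    rcases Nat.eq_zero_or_pos M with h0 | h0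
    · subst h0
      simp
    obtain ⟨m, rfl⟩ : ∃ m, M = m + 1 := ⟨M - 1, by omega⟩
    rw [Finset.sum_range_succ, Finset.sum_range_succ']
    congr 1
    · refine Finset.sum_congr rfl fun u _ => ?_
      congr 2
      push_cast
      ring
    · congr 1
      rw [show n + 1 + (m : ℤ) = n + ((m + 1 : ℕ) : ℤ) by push_cast; ring, Int.add_emod_right]
      simp
  have h0 : ∑ u ∈ range M, f ((0 + (u : ℤ)) % M) = ∑ s ∈ range M, f s := by
    refine Finset.sum_congr rfl fun u hu => ?_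
    rw [zero_add, Int.emod_eq_of_lt (by positivity) (by exact_mod_cast Finset.mem_range.mp hu)]
  induction n using Int.induction_on with
  | zero => exact h0
  | succ i ih => rw [step]; exact ih
  | pred i ih =>
    have h1 := step (-(i : ℤ) - 1)
    rw [sub_add_cancel] at h1
    rw [← h1]
    exact ih

theorem period_mul (M q : ℕ) (f : ℤ → ℝ) (n : ℤ) :
    ∑ u ∈ range (M * q), f ((n + u) % M) = q * ∑ s ∈ range M, f s := by
  induction q with
  | zero => simp
  | succ q ih =>
    rw [mul_add, mul_one, Finset.sum_range_add, ih]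
    have h1 : ∑ x ∈ range M, f ((n + ((M * q + x : ℕ) : ℤ)) % M) = ∑ s ∈ range M, f s := by
      rw [← period_one M f n]
      refine Finset.sum_congr rfl fun u _ => ?_
      congr 1
      rw [show n + ((M * q + u : ℕ) : ℤ) = n + u + M * q by push_cast; ring, Int.add_mul_emod_self_left]
    rw [h1]
    push_cast
    ring

open Classical in
/-- The number of shifts for which `n` is near the boundary of its cell. -/
theorem near_count (X Ξ L : ℕ) (hΞ : Ξ ≤ X) (n : ℤ) :
    ∑ u ∈ range (2 ^ X), (if (n + u) % ((2 ^ Ξ : ℕ) : ℤ) < L ∨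
      ((2 ^ Ξ : ℕ) : ℤ) - L ≤ (n + u) % ((2 ^ Ξ : ℕ) : ℤ) then (1 : ℝ) else 0) ≤
      2 ^ X * (2 * L / 2 ^ Ξ) := by
  obtain ⟨j, rfl⟩ := Nat.exists_eq_add_of_le hΞ
  rw [pow_add]
  have h1 := period_mul (2 ^ Ξ) (2 ^ j) (fun s => if s < L ∨ ((2 ^ Ξ : ℕ) : ℤ) - L ≤ s then (1 : ℝ) else 0) n
  rw [h1]
  have h2 : ∑ s ∈ range (2 ^ Ξ), (if ((s : ℕ) : ℤ) < L ∨ ((2 ^ Ξ : ℕ) : ℤ) - L ≤ (s : ℤ) then (1 : ℝ) else 0) ≤
      2 * L := by
    rw [← Finset.sum_filter, Finset.sum_const, nsmul_eq_mul, mul_one]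
    have h3 : (range (2 ^ Ξ)).filter (fun s : ℕ => (s : ℤ) < L ∨ ((2 ^ Ξ : ℕ) : ℤ) - L ≤ (s : ℤ)) ⊆
        range L ∪ Finset.Ico (2 ^ Ξ - L) (2 ^ Ξ) := by
      intro s hs
      obtain ⟨k1, k2⟩ := Finset.mem_filter.mp hs
      rw [Finset.mem_range] at k1
      rw [Finset.mem_union, Finset.mem_range, Finset.mem_Ico]
      omega
    have h4 := (Finset.card_le_card h3).trans (Finset.card_union_le _ _)
    rw [Finset.card_range, Nat.card_Ico] at h4
    have h5 : 2 ^ Ξ - (2 ^ Ξ - L) ≤ L := by omega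
    have h6 : ((range (2 ^ Ξ)).filter (fun s : ℕ => (s : ℤ) < L ∨ ((2 ^ Ξ : ℕ) : ℤ) - L ≤ (s : ℤ))).card ≤ 2 * L := by
      omega
    exact_mod_cast h6
  have h7 : (2 : ℝ) ^ (Ξ + j) * (2 * L / 2 ^ Ξ) = 2 ^ j * (2 * L) := by
    rw [pow_add]
    field_simp
  rw [h7]
  push_cast
  exact mul_le_mul_of_nonneg_left (by exact_mod_cast h2) (by positivity)

section

variable {Ω S T U O β : Type} [Fintype Ω]

/-- **Carries.** A label `W u` which gives `N` up to `L` gives the cell of `N + u`, but for few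
shifts `u`. -/
theorem carry {p : Ω → ℝ} (hp : IsLaw p) (N : Ω → ℤ) {X Ξ L : ℕ} (hΞ : Ξ ≤ X) (hL : L ≤ 2 ^ Ξ)
    (W : ℕ → Ω → S)
    (hW : ∀ u ω ω', 0 < p ω → 0 < p ω' → W u ω = W u ω' → |N ω - N ω'| ≤ L) :
    ∑ u ∈ range (2 ^ X), CH p (fun ω => (N ω + u) / ((2 ^ Ξ : ℕ) : ℤ)) (W u) ≤
      2 ^ X * (4 * L / 2 ^ Ξ) := by
  classical
  have hM : (0 : ℤ) < ((2 ^ Ξ : ℕ) : ℤ) := by positivity
  set M : ℤ := ((2 ^ Ξ : ℕ) : ℤ) with hMdef
  have key : ∀ u : ℕ, CH p (fun ω => (N ω + u) / M) (W u) ≤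
      ∑ ω, p ω * (2 * (if (N ω + u) % M < L ∨ M - L ≤ (N ω + u) % M then (1 : ℝ) else 0)) := by
    intro u
    rw [← CDF.Ex_H hp.nonneg]
    refine Finset.sum_le_sum fun ω _ => ?_
    rcases (hp.nonneg ω).eq_or_lt with hω | hω
    · rw [← hω, zero_mul, zero_mul]
    refine mul_le_mul_of_nonneg_left ?_ hω.le
    have hq := isLaw_cond hp (W u) hω
    have hcell : ∀ v, 0 < cond p (W u) (W u ω) v → |N v - N ω| ≤ L := by
      intro v hv
      obtain ⟨k1, k2⟩ := (cond_pos_iff hp.nonneg (W u) (W u ω) v).1 hv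
      exact hW u v ω k1 hω k2
    have e0 := Int.emod_add_mul_ediv (N ω + u) M
    have e1 := Int.emod_nonneg (N ω + u) hM.ne'
    have e2 := Int.emod_lt_of_pos (N ω + u) hM
    split_ifs with hnear
    · -- three values
      have hlog : Real.log 3 ≤ 2 := by
        have := Real.log_le_sub_one_of_pos (x := 3) (by norm_num)
        linarith
      have h3 := H_le_log_card hq.nonneg hq.sum_one (fun ω => (N ω + (u : ℤ)) / M)
        (Finset.Icc ((N ω + u) / M - 1) ((N ω + u) / M + 1)) (fun v hv => by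
          have h4 := hcell v hv
          rw [abs_le] at h4
          have hLM : (L : ℤ) ≤ M := by
            rw [hMdef]
            exact_mod_cast hL
          have f0 := Int.emod_add_mul_ediv (N v + u) M
          have f1 := Int.emod_nonneg (N v + u) hM.ne'
          have f2 := Int.emod_lt_of_pos (N v + u) hM
          rw [Finset.mem_Icc]
          constructor
          · by_contra hc
            have hc' : (N v + u) / M ≤ (N ω + u) / M - 2 := by omega
            nlinarith
          · by_contra hc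
            have hc' : (N ω + u) / M + 2 ≤ (N v + u) / M := by omega
            nlinarith)
      refine h3.trans ?_
      rw [Int.card_Icc, show (N ω + (u : ℤ)) / M + 1 + 1 - ((N ω + u) / M - 1) = 3 by ring,
        show (Int.toNat 3) = 3 from rfl, mul_one]
      exact_mod_cast hlog
    · push Not at hnear
      have h3 := H_le_log_card hq.nonneg hq.sum_one (fun ω => (N ω + (u : ℤ)) / M)
        {(N ω + u) / M} (fun v hv => by
          have h4 := hcell v hv
          rw [abs_le] at h4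
          have f0 := Int.emod_add_mul_ediv (N v + u) M
          have f1 := Int.emod_nonneg (N v + u) hM.ne'
          have f2 := Int.emod_lt_of_pos (N v + u) hM
          rw [Finset.mem_singleton]
          by_contra hc
          rcases lt_or_gt_of_ne hc with hc' | hc'
          · have : (N v + u) / M + 1 ≤ (N ω + u) / M := hc'
            nlinarith [hnear.1, hnear.2]
          · have : (N ω + u) / M + 1 ≤ (N v + u) / M := hc'
            nlinarith [hnear.1, hnear.2])
      refine h3.trans ?_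
      simp
  refine (Finset.sum_le_sum fun u _ => key u).trans ?_
  rw [Finset.sum_comm]
  have h1 : ∀ ω, ∑ u ∈ range (2 ^ X), p ω * (2 * (if (N ω + (u : ℤ)) % M < L ∨
      M - L ≤ (N ω + u) % M then (1 : ℝ) else 0)) ≤ p ω * (2 ^ X * (4 * L / 2 ^ Ξ)) := by
    intro ω
    rw [← Finset.mul_sum, ← Finset.mul_sum]
    refine mul_le_mul_of_nonneg_left ?_ (hp.nonneg ω)
    have h2 := near_count X Ξ L hΞ (N ω)
    have h3 : (2 : ℝ) ^ X * (4 * L / 2 ^ Ξ) = 2 * (2 ^ X * (2 * L / 2 ^ Ξ)) := by ring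
    rw [h3]
    exact mul_le_mul_of_nonneg_left h2 (by norm_num)
  refine (Finset.sum_le_sum fun ω _ => h1 ω).trans ?_
  rw [← Finset.sum_mul, hp.sum_one, one_mul]

/-- Averaging over the cells first. -/
theorem tower {p : Ω → ℝ} (hp : ∀ ω, 0 ≤ p ω) (b : Ω → S) (f : Ω → ℝ) :
    ∑ ω, p ω * ∑ v, Pool.Agent.H49.Ent.cond p b (b ω) v * f v = ∑ ω, p ω * f ω := by
  classical
  have h1 : ∀ ω, p ω * ∑ v, Pool.Agent.H49.Ent.cond p b (b ω) v * f v =
      ∑ v, (if b ω = b v then p ω * p v / law p b (b v) else 0) * f v := by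
    intro ω
    rw [Finset.mul_sum]
    refine Finset.sum_congr rfl fun v _ => ?_
    unfold Pool.Agent.H49.Ent.cond
    by_cases h : b v = b ω
    · rw [if_pos h, if_pos h.symm, h]
      ring
    · rw [if_neg h, if_neg (Ne.symm h)]
      ring
  rw [Finset.sum_congr rfl fun ω _ => h1 ω, Finset.sum_comm]
  refine Finset.sum_congr rfl fun v _ => ?_
  rw [← Finset.sum_mul]
  congr 1
  have h2 : ∑ ω, (if b ω = b v then p ω * p v / law p b (b v) else 0) =
      law p b (b v) * (p v / law p b (b v)) := by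
    unfold law
    rw [Finset.sum_mul]
    refine Finset.sum_congr rfl fun ω _ => ?_
    split_ifs
    · ring
    · ring
  rw [h2]
  rcases (hp v).eq_or_lt with h0 | h0
  · rw [← h0]
    simp
  · rw [mul_div_cancel₀ _ (law_pos hp b h0).ne']

/-- Pinsker's inequality, with the values of one of the variables outside. -/
theorem pin_out {q : Ω → ℝ} (hq : IsLaw q) (R : Ω → O) (b : Ω → β) (F : Finset O)
    (hF : ∀ ω, 0 < q ω → R ω ∈ F) :
    ∑ ω, q ω * ∑ s ∈ F, |law q R s - law (Pool.Agent.H49.Ent.cond q b (b ω)) R s| ≤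
      2 * Real.sqrt (H q R + H q b - H q (fun ω => (R ω, b ω))) := by
  classical
  have hpin := Pool.KVA.pinsker q R b hq.nonneg hq.sum_one
  set T : β → ℝ := fun v => ∑ s ∈ F, |law q R s - law (Pool.Agent.H49.Ent.cond q b v) R s| with hT
  have h1 : ∑ v ∈ univ.image b, law q b v * T v ≤
      2 * Real.sqrt (H q R + H q b - H q (fun ω => (R ω, b ω))) := by
    refine le_trans (le_of_eq ?_) hpin
    rw [Finset.sum_product_right]
    refine Finset.sum_congr rfl fun v hv => ?_
    rw [hT, Finset.mul_sum]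
    have e1 : ∀ s, law q b v * |law q R s - law (Pool.Agent.H49.Ent.cond q b v) R s| =
        |law q (fun ω => (R ω, b ω)) (s, v) - law q R s * law q b v| := by
      intro s
      rcases (law_nonneg hq.nonneg b v).eq_or_lt with h0 | h0
      · have h2 := law_pair_le' hq.nonneg R b s v
        have h3 := law_nonneg hq.nonneg (fun ω => (R ω, b ω)) (s, v)
        have h4 : law q (fun ω => (R ω, b ω)) (s, v) = 0 := le_antisymm (h0 ▸ h2) h3
        rw [h4, ← h0]
        simp
      · rw [law_cond, ← abs_of_pos h0, ← abs_mul, abs_of_pos h0, mul_sub, mul_div_cancel₀ _ h0.ne',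
          abs_sub_comm, mul_comm (law q b v)]
    rw [Finset.sum_congr rfl fun s _ => e1 s]
    have h5 : ∀ s, s ∉ F → |law q (fun ω => (R ω, b ω)) (s, v) - law q R s * law q b v| = 0 := by
      intro s hs
      have h6 := law_zero_off hq.nonneg R F hF hs
      have h7 := law_pair_le hq.nonneg R b s v
      have h8 := law_nonneg hq.nonneg (fun ω => (R ω, b ω)) (s, v)
      have h9 : law q (fun ω => (R ω, b ω)) (s, v) = 0 := le_antisymm (h6 ▸ h7) h8
      rw [h9, h6]
      simp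
    have h6 : ∀ s, s ∉ univ.image R →
        |law q (fun ω => (R ω, b ω)) (s, v) - law q R s * law q b v| = 0 := by
      intro s hs
      have h6 := law_eq_zero_of_notMem q R hs
      have h7 := law_pair_le hq.nonneg R b s v
      have h8 := law_nonneg hq.nonneg (fun ω => (R ω, b ω)) (s, v)
      have h9 : law q (fun ω => (R ω, b ω)) (s, v) = 0 := le_antisymm (h6 ▸ h7) h8
      rw [h9, h6]
      simp
    rw [Finset.sum_subset (Finset.subset_union_right : F ⊆ univ.image R ∪ F) fun s _ hs => h5 s hs]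
    rw [Finset.sum_subset (Finset.subset_union_left : univ.image R ⊆ univ.image R ∪ F)
      fun s _ hs => h6 s hs]
  have h2 : ∑ ω, q ω * T (b ω) ≤ 2 * Real.sqrt (H q R + H q b - H q (fun ω => (R ω, b ω))) := by
    rw [sum_mul_eq_sum_image q b T]
    exact h1
  exact h2

/-- **Decoupling.** The law of the block given the context does not change much if a nearly
independent label is added to the context. -/
theorem tv_dec {p : Ω → ℝ} (hp : IsLaw p) (o : Ω → O) (c : Ω → T) (g : Ω → S) (F : Finset O)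
    (hF : ∀ ω, 0 < p ω → o ω ∈ F) {a : ℝ} (ha : 0 < a) :
    ∑ ω, p ω * ∑ s ∈ F, |law (Pool.Agent.H49.Ent.cond p g (g ω)) o s -
      law (Pool.Agent.H49.Ent.cond p (fun v => (c v, g v)) (c ω, g ω)) o s| ≤
      a + mi p o c g / a := by
  classical
  set f : Ω → ℝ := fun ω => ∑ s ∈ F, |law (Pool.Agent.H49.Ent.cond p g (g ω)) o s -
      law (Pool.Agent.H49.Ent.cond p (fun v => (c v, g v)) (c ω, g ω)) o s| with hf
  set I : Ω → ℝ := fun ω => H (Pool.Agent.H49.Ent.cond p g (g ω)) o +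
    H (Pool.Agent.H49.Ent.cond p g (g ω)) c -
    H (Pool.Agent.H49.Ent.cond p g (g ω)) (fun ω' => (o ω', c ω')) with hI
  have h1 : ∀ ω, p ω * ∑ v, Pool.Agent.H49.Ent.cond p g (g ω) v * f v ≤ p ω * (a + I ω / a) := by
    intro ω
    rcases (hp.nonneg ω).eq_or_lt with hω | hω
    · rw [← hω, zero_mul, zero_mul]
    refine mul_le_mul_of_nonneg_left ?_ hω.le
    have hq := isLaw_cond hp g hω
    have h2 := pin_out hq o c F (fun v hv =>
      hF v ((cond_pos_iff hp.nonneg g (g ω) v).1 hv).1)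
    have h3 : ∑ v, Pool.Agent.H49.Ent.cond p g (g ω) v * f v =
        ∑ v, Pool.Agent.H49.Ent.cond p g (g ω) v * ∑ s ∈ F,
          |law (Pool.Agent.H49.Ent.cond p g (g ω)) o s -
          law (Pool.Agent.H49.Ent.cond (Pool.Agent.H49.Ent.cond p g (g ω)) c (c v)) o s| := by
      refine Finset.sum_congr rfl fun v _ => ?_
      rcases (hq.nonneg v).eq_or_lt with hv | hv
      · rw [← hv, zero_mul, zero_mul]
      obtain ⟨k1, k2⟩ := (cond_pos_iff hp.nonneg g (g ω) v).1 hv
      rw [cond_swap hp.nonneg g c hv, hf]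
      simp only [k2]
    rw [h3]
    refine h2.trans ?_
    have hI0 : 0 ≤ I ω := by
      have h4 := Pool.KVA.pinsker (Pool.Agent.H49.Ent.cond p g (g ω)) o c hq.nonneg hq.sum_one
      have h5 := subadd (X := o) (Y := c) (W := fun v => (o v, c v)) hq.nonneg hq.sum_one
        (fun _ _ _ _ h => h)
      rw [hI]
      linarith
    have h4 : 2 * Real.sqrt (I ω) ≤ a + I ω / a := by
      have h5 := Real.sq_sqrt hI0
      have h6 : a + I ω / a - 2 * Real.sqrt (I ω) = (a - Real.sqrt (I ω)) ^ 2 / a := by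
        field_simp
        nlinarith
      have h7 : 0 ≤ (a - Real.sqrt (I ω)) ^ 2 / a := by positivity
      linarith
    exact h4
  have h2 := tower hp.nonneg g f
  rw [← h2]
  refine (Finset.sum_le_sum fun ω _ => h1 ω).trans ?_
  have h3 : ∑ ω, p ω * (a + I ω / a) = a + mi p o c g / a := by
    have h4 : ∑ ω, p ω * I ω = mi p o c g := by
      have e1 : CH p o g = ∑ ω, p ω * H (Pool.Agent.H49.Ent.cond p g (g ω)) o :=
        (CDF.Ex_H hp.nonneg o g).symm
      have e2 : CH p c g = ∑ ω, p ω * H (Pool.Agent.H49.Ent.cond p g (g ω)) c :=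
        (CDF.Ex_H hp.nonneg c g).symm
      have e3 : CH p (fun ω => (o ω, c ω)) g =
          ∑ ω, p ω * H (Pool.Agent.H49.Ent.cond p g (g ω)) (fun ω => (o ω, c ω)) :=
        (CDF.Ex_H hp.nonneg (fun ω => (o ω, c ω)) g).symm
      unfold mi Pool.KVA.MI
      rw [e1, e2, e3, ← Finset.sum_add_distrib, ← Finset.sum_sub_distrib]
      refine Finset.sum_congr rfl fun ω _ => ?_
      rw [hI]
      ring
    have h5 : ∀ ω, p ω * (a + I ω / a) = p ω * a + (p ω * I ω) / a := by
      intro ω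
      ring
    rw [Finset.sum_congr rfl fun ω _ => h5 ω, Finset.sum_add_distrib, ← Finset.sum_mul,
      hp.sum_one, one_mul, ← Finset.sum_div, h4]
  exact h3.le

theorem sum_law_fun {q : Ω → ℝ} (hq : ∀ ω, 0 ≤ q ω) (o : Ω → O) (F : Finset O)
    (hF : ∀ ω, 0 < q ω → o ω ∈ F) (φ : O → ℝ) :
    ∑ s ∈ F, law q o s * φ s = ∑ v, q v * φ (o v) := by
  classical
  rw [sum_mul_eq_sum_image q o φ]
  have h1 : ∑ s ∈ F, law q o s * φ s = ∑ s ∈ univ.image o ∪ F, law q o s * φ s :=
    Finset.sum_subset Finset.subset_union_right fun s _ hs => by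
      rw [law_zero_off hq o F hF hs, zero_mul]
  have h2 : ∑ s ∈ univ.image o, law q o s * φ s = ∑ s ∈ univ.image o ∪ F, law q o s * φ s :=
    Finset.sum_subset Finset.subset_union_left fun s _ hs => by
      rw [law_eq_zero_of_notMem q o hs, zero_mul]
  rw [h1, h2]

/-- Adding a nearly independent label to the context, in an average. -/
theorem switch {p : Ω → ℝ} (hp : IsLaw p) (o : Ω → O) (c : Ω → T) (g : Ω → S) (F : Finset O)
    (hF : ∀ ω, 0 < p ω → o ω ∈ F) {a : ℝ} (ha : 0 < a) (w : Ω → ℝ) (φ : Ω → O → ℝ)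
    (hw0 : ∀ ω, 0 ≤ w ω) (hw1 : ∀ ω, w ω ≤ 1) (hφ0 : ∀ ω s, 0 ≤ φ ω s) (hφ1 : ∀ ω s, φ ω s ≤ 1) :
    ∑ ω, p ω * (w ω * ∑ v, Pool.Agent.H49.Ent.cond p g (g ω) v * φ ω (o v)) ≤
      ∑ ω, p ω * (w ω * ∑ v, Pool.Agent.H49.Ent.cond p (fun v => (c v, g v)) (c ω, g ω) v *
        φ ω (o v)) + (a + mi p o c g / a) := by
  classical
  refine le_trans ?_ (add_le_add_right (tv_dec hp o c g F hF ha) _)
  rw [← Finset.sum_add_distrib]
  refine Finset.sum_le_sum fun ω _ => ?_
  rcases (hp.nonneg ω).eq_or_lt with hω | hω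
  · rw [← hω]
    simp
  rw [← mul_add]
  refine mul_le_mul_of_nonneg_left ?_ hω.le
  have hq1 := isLaw_cond hp g hω
  have hq2 := isLaw_cond hp (fun v => (c v, g v)) hω
  rw [← sum_law_fun hq1.nonneg o F (fun v hv => hF v ((cond_pos_iff hp.nonneg g (g ω) v).1 hv).1),
    ← sum_law_fun hq2.nonneg o F (fun v hv =>
      hF v ((cond_pos_iff hp.nonneg (fun v => (c v, g v)) (c ω, g ω) v).1 hv).1)]
  have h1 : ∑ s ∈ F, law (Pool.Agent.H49.Ent.cond p g (g ω)) o s * φ ω s ≤
      ∑ s ∈ F, law (Pool.Agent.H49.Ent.cond p (fun v => (c v, g v)) (c ω, g ω)) o s * φ ω s +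
      ∑ s ∈ F, |law (Pool.Agent.H49.Ent.cond p g (g ω)) o s -
        law (Pool.Agent.H49.Ent.cond p (fun v => (c v, g v)) (c ω, g ω)) o s| := by
    rw [← Finset.sum_add_distrib]
    refine Finset.sum_le_sum fun s _ => ?_
    have k1 := le_abs_self (law (Pool.Agent.H49.Ent.cond p g (g ω)) o s -
        law (Pool.Agent.H49.Ent.cond p (fun v => (c v, g v)) (c ω, g ω)) o s)
    have k2 := abs_nonneg (law (Pool.Agent.H49.Ent.cond p g (g ω)) o s -
        law (Pool.Agent.H49.Ent.cond p (fun v => (c v, g v)) (c ω, g ω)) o s)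
    have k3 := hφ0 ω s
    have k4 := hφ1 ω s
    nlinarith
  have h2 := hw0 ω
  have h3 := hw1 ω
  have h4 : 0 ≤ ∑ s ∈ F, |law (Pool.Agent.H49.Ent.cond p g (g ω)) o s -
        law (Pool.Agent.H49.Ent.cond p (fun v => (c v, g v)) (c ω, g ω)) o s| :=
    Finset.sum_nonneg fun _ _ => abs_nonneg _
  calc w ω * ∑ s ∈ F, law (Pool.Agent.H49.Ent.cond p g (g ω)) o s * φ ω s
      ≤ w ω * (∑ s ∈ F, law (Pool.Agent.H49.Ent.cond p (fun v => (c v, g v)) (c ω, g ω)) o s * φ ω s +
      ∑ s ∈ F, |law (Pool.Agent.H49.Ent.cond p g (g ω)) o s -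
        law (Pool.Agent.H49.Ent.cond p (fun v => (c v, g v)) (c ω, g ω)) o s|) :=
        mul_le_mul_of_nonneg_left h1 h2
    _ ≤ _ := by
        rw [mul_add]
        have h5 := mul_le_mul_of_nonneg_right h3 h4
        linarith

/-- Averages over pairs. -/
theorem Pr_dbl {p : Ω → ℝ} (b : Ω → β) (P : Ω → Ω → Prop)
    [∀ ω v, Decidable (P ω v)] :
    Pr (dbl p b) {w | P w.1 w.2} =
      ∑ ω, p ω * ∑ v, Pool.Agent.H49.Ent.cond p b (b ω) v * (if P ω v then 1 else 0) := by
  classical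
  rw [Pool.KAF.Pr_eq, Fintype.sum_prod_type]
  refine Finset.sum_congr rfl fun ω _ => ?_
  rw [Finset.mul_sum]
  refine Finset.sum_congr rfl fun v _ => ?_
  unfold Pool.Agent.H32.Dense.dbl Pool.Agent.H49.Ent.glue Pool.Agent.H49.Ent.cond
  by_cases h1 : b ω = b v
  · by_cases h2 : P ω v
    · rw [if_pos (show (ω, v) ∈ {w : Ω × Ω | P w.1 w.2} from h2), if_pos h1, if_pos h1.symm,
        if_pos h2]
      ring
    · rw [if_neg (show (ω, v) ∉ {w : Ω × Ω | P w.1 w.2} from h2), if_neg h2]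
      ring
  · rw [if_neg h1, if_neg (Ne.symm h1)]
    simp

end

end Pool.OC.RS
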