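import Pool.Agent.H86.OC.RA

/-!
# Mutual informations along nested sequences
-/

set_option autoImplicit false

namespace Pool.OC.RS

open Finset Real
open Pool.Agent.H49.Ent Pool.Agent.H32.Dense Pool.STK Pool.KAF Pool.KAL Pool.KX

section

variable {Ω S T U V W R : Type} [Fintype Ω]

/-- Short name. -/
noncomputable abbrev mi (p : Ω → ℝ) (A : Ω → S) (B : Ω → T) (b : Ω → U) : ℝ := Pool.KVA.MI p A B b

theorem mi_eq {p : Ω → ℝ} (hp : ∀ ω, 0 ≤ p ω) (A : Ω → S) (B : Ω → T) (b : Ω → U) :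
    mi p A B b = CH p A b - CH p A (fun ω => (B ω, b ω)) := by
  have h := CH_chain hp A B b
  unfold mi Pool.KVA.MI
  linarith

theorem mi_comm {p : Ω → ℝ} (hp : ∀ ω, 0 ≤ p ω) (A : Ω → S) (B : Ω → T) (b : Ω → U) :
    mi p A B b = mi p B A b := by
  have h : CH p (fun ω => (A ω, B ω)) b = CH p (fun ω => (B ω, A ω)) b := by
    refine CH_congr hp ?_ ?_ (fun _ _ _ _ h => h) (fun _ _ _ _ h => h) <;>
    · intro ω ω' _ _ h
      have h1 := Prod.ext_iff.mp (Prod.ext_iff.mp h).1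
      exact Prod.ext h1.2 h1.1
  unfold mi Pool.KVA.MI
  linarith

theorem mi_eq' {p : Ω → ℝ} (hp : ∀ ω, 0 ≤ p ω) (A : Ω → S) (B : Ω → T) (b : Ω → U) :
    mi p A B b = CH p B b - CH p B (fun ω => (A ω, b ω)) := by
  rw [mi_comm hp, mi_eq hp]

theorem mi_nonneg {p : Ω → ℝ} (hp : ∀ ω, 0 ≤ p ω) (A : Ω → S) (B : Ω → T) (b : Ω → U) :
    0 ≤ mi p A B b := by
  have h := CH_mono_cond hp (X := A) (W' := fun ω => (B ω, b ω)) (W := b)
    (fun _ _ _ _ h => (Prod.ext_iff.mp h).2)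
  rw [mi_eq hp]
  linarith

/-- Equivalent labels. -/
theorem mi_congr {p : Ω → ℝ} (hp : ∀ ω, 0 ≤ p ω) (A : Ω → S) (B : Ω → T) {b : Ω → U} {b' : Ω → V}
    (h1 : Det p b b') (h2 : Det p b' b) : mi p A B b = mi p A B b' := by
  rw [mi_eq hp, mi_eq hp]
  have e1 : CH p A b = CH p A b' :=
    CH_congr hp (fun _ _ _ _ h => (Prod.ext_iff.mp h).1) (fun _ _ _ _ h => (Prod.ext_iff.mp h).1)
      h1 h2
  have e2 : CH p A (fun ω => (B ω, b ω)) = CH p A (fun ω => (B ω, b' ω)) := by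
    refine CH_congr hp (fun _ _ _ _ h => (Prod.ext_iff.mp h).1)
      (fun _ _ _ _ h => (Prod.ext_iff.mp h).1) ?_ ?_
    · intro ω ω' a a' h
      have h' := Prod.ext_iff.mp h
      exact Prod.ext h'.1 (h1 ω ω' a a' h'.2)
    · intro ω ω' a a' h
      have h' := Prod.ext_iff.mp h
      exact Prod.ext h'.1 (h2 ω ω' a a' h'.2)
  rw [e1, e2]

/-- Chain rule. -/
theorem mi_chain {p : Ω → ℝ} (hp : ∀ ω, 0 ≤ p ω) (A : Ω → S) (B : Ω → T) (C : Ω → V)
    (b : Ω → U) :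
    mi p A (fun ω => (B ω, C ω)) b = mi p A B b + mi p A C (fun ω => (B ω, b ω)) := by
  rw [mi_eq hp, mi_eq hp, mi_eq hp]
  have e : CH p A (fun ω => ((B ω, C ω), b ω)) = CH p A (fun ω => (C ω, (B ω, b ω))) := by
    refine CH_congr hp (fun _ _ _ _ h => (Prod.ext_iff.mp h).1)
      (fun _ _ _ _ h => (Prod.ext_iff.mp h).1) ?_ ?_ <;>
    · intro ω ω' _ _ h
      simp only [Prod.mk.injEq] at h ⊢
      tauto
  rw [e]
  ring

/-- Data processing. -/
theorem mi_mono {p : Ω → ℝ} (hp : ∀ ω, 0 ≤ p ω) (A : Ω → S) (B : Ω → T) (B' : Ω → V)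
    (b : Ω → U) (h : Det p (fun ω => (B ω, b ω)) B') : mi p A B' b ≤ mi p A B b := by
  rw [mi_eq hp, mi_eq hp]
  have := CH_mono_cond hp (X := A) (W' := fun ω => (B ω, b ω)) (W := fun ω => (B' ω, b ω))
    (fun ω ω' a a' hh => Prod.ext (h ω ω' a a' hh) (Prod.ext_iff.mp hh).2)
  linarith

theorem mi_mono_left {p : Ω → ℝ} (hp : ∀ ω, 0 ≤ p ω) (A : Ω → S) (A' : Ω → V) (B : Ω → T)
    (b : Ω → U) (h : Det p (fun ω => (A ω, b ω)) A') : mi p A' B b ≤ mi p A B b := by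
  rw [mi_comm hp A' B, mi_comm hp A B]
  exact mi_mono hp B A A' b h

/-- A further label in the context, nearly determined by one of the variables. -/
theorem mi_ctx {p : Ω → ℝ} (hp : ∀ ω, 0 ≤ p ω) (A : Ω → S) (B : Ω → T) (C : Ω → V)
    (b : Ω → U) :
    mi p A B (fun ω => (C ω, b ω)) ≤ mi p A B b + CH p C (fun ω => (A ω, b ω)) := by
  have h1 := mi_chain hp B C A b
  have h2 := mi_chain hp B A C b
  have h3 := mi_mono hp B (fun ω => (C ω, A ω)) (fun ω => (A ω, C ω)) b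
    (fun ω ω' _ _ h => by
      have h' := Prod.ext_iff.mp (Prod.ext_iff.mp h).1
      exact Prod.ext h'.2 h'.1)
  have h3' := mi_mono hp B (fun ω => (A ω, C ω)) (fun ω => (C ω, A ω)) b
    (fun ω ω' _ _ h => by
      have h' := Prod.ext_iff.mp (Prod.ext_iff.mp h).1
      exact Prod.ext h'.2 h'.1)
  have h4 := mi_nonneg hp B C b
  have h5 : mi p B C (fun ω => (A ω, b ω)) ≤ CH p C (fun ω => (A ω, b ω)) := by
    rw [mi_eq' hp]
    have := CH_nonneg hp C (fun ω => (B ω, (A ω, b ω)))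
    linarith
  rw [mi_comm hp A B, mi_comm hp A B]
  linarith

/-- One nested sequence. -/
theorem mi_sum_one {p : Ω → ℝ} (hp : ∀ ω, 0 ≤ p ω) (a : ℕ → Ω → S) (B : Ω → T) (τ : Ω → U)
    (ha : ∀ i, Det p (fun ω => (a (i + 1) ω, τ ω)) (a i)) (n : ℕ) :
    ∑ i ∈ range n, mi p (a (i + 1)) B (fun ω => (a i ω, τ ω)) ≤ mi p (a n) B τ := by
  induction n with
  | zero =>
    rw [sum_range_zero]
    exact mi_nonneg hp _ _ _
  | succ n ih =>
    rw [sum_range_succ]
    have h1 := mi_chain hp B (a n) (a (n + 1)) τ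
    have h2 := mi_mono hp B (a (n + 1)) (fun ω => (a n ω, a (n + 1) ω)) τ
      (fun ω ω' a' b' h => Prod.ext (ha n ω ω' a' b' h) (Prod.ext_iff.mp h).1)
    rw [mi_comm hp (a (n + 1)) B, mi_comm hp (a (n + 1)) B]
    rw [mi_comm hp (a n) B] at ih
    linarith

/-- Two nested sequences. -/
theorem mi_sum_two {p : Ω → ℝ} (hp : ∀ ω, 0 ≤ p ω) (a : ℕ → Ω → S) (g : ℕ → Ω → T) (τ : Ω → U)
    (ha : ∀ i, Det p (fun ω => (a (i + 1) ω, τ ω)) (a i))
    (hg : ∀ i, Det p (fun ω => (g (i + 1) ω, τ ω)) (g i)) (n : ℕ) :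
    ∑ i ∈ range n, mi p (a (i + 1)) (g (i + 1)) (fun ω => (a i ω, (g i ω, τ ω))) ≤
      mi p (a n) (g n) τ := by
  induction n with
  | zero =>
    rw [sum_range_zero]
    exact mi_nonneg hp _ _ _
  | succ n ih =>
    rw [sum_range_succ]
    -- `g (n + 1)` is `(g n, g (n + 1))`
    have h1 := mi_chain hp (a (n + 1)) (g n) (g (n + 1)) τ
    have h2 := mi_mono hp (a (n + 1)) (g (n + 1)) (fun ω => (g n ω, g (n + 1) ω)) τ
      (fun ω ω' a' b' h => Prod.ext (hg n ω ω' a' b' h) (Prod.ext_iff.mp h).1)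
    have h3 := mi_mono_left hp (a (n + 1)) (a n) (g n) τ (ha n)
    have h4 := mi_chain hp (g (n + 1)) (a n) (a (n + 1)) (fun ω => (g n ω, τ ω))
    have h5 := mi_mono hp (g (n + 1)) (a (n + 1)) (fun ω => (a n ω, a (n + 1) ω))
      (fun ω => (g n ω, τ ω)) (fun ω ω' a' b' h => by
        have h' := Prod.ext_iff.mp h
        exact Prod.ext (ha n ω ω' a' b' (Prod.ext h'.1 (Prod.ext_iff.mp h'.2).2)) h'.1)
    have h6 := mi_nonneg hp (g (n + 1)) (a n) (fun ω => (g n ω, τ ω))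
    rw [mi_comm hp (g (n + 1)) (a (n + 1)) (fun ω => (g n ω, τ ω))] at h5
    rw [mi_comm hp (g (n + 1)) (a (n + 1)) (fun ω => (a n ω, (g n ω, τ ω)))] at h4
    linarith

/-- A sum split into residue classes. -/
theorem sum_classes (f : ℕ → ℝ) (hf : ∀ r, 0 ≤ f r) {Q : ℕ} (hQ : 0 < Q) (n : ℕ) (B : ℝ)
    (h : ∀ j < Q, ∀ m, j + m * Q ≤ n + Q → ∑ i ∈ range m, f (j + i * Q) ≤ B) :
    ∑ r ∈ range n, f r ≤ Q * B := by
  classical
  have h1 : ∑ r ∈ range n, f r = ∑ j ∈ range Q, ∑ r ∈ (range n).filter (fun r => r % Q = j), f r := by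
    rw [Finset.sum_fiberwise_of_maps_to]
    intro r _
    exact Finset.mem_range.mpr (Nat.mod_lt _ hQ)
  rw [h1]
  have h2 : ∀ j ∈ range Q, ∑ r ∈ (range n).filter (fun r => r % Q = j), f r ≤ B := by
    intro j hj
    have hj' := Finset.mem_range.mp hj
    -- the number of terms
    obtain ⟨m, hm1, hm2⟩ : ∃ m, j + m * Q ≤ n + Q ∧ ∀ r, r < n → r % Q = j → r / Q < m := by
      by_cases hn : j < n
      · refine ⟨(n - 1 - j) / Q + 1, ?_, ?_⟩
        · have h3 := Nat.div_mul_le_self (n - 1 - j) Q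
          rw [add_mul, one_mul]
          omega
        · intro r hr hrj
          have h3 := Nat.mod_add_div r Q
          rw [hrj] at h3
          have h4 : r / Q * Q ≤ n - 1 - j := by
            rw [mul_comm]
            omega
          have h5 := (Nat.le_div_iff_mul_le hQ).mpr h4
          omega
      · refine ⟨0, by omega, fun r hr hrj => ?_⟩
        have := Nat.mod_le r Q
        omega
    refine le_trans ?_ (h j hj' m hm1)
    have h3 : ∑ i ∈ range m, f (j + i * Q) = ∑ r ∈ (range m).image (fun i => j + i * Q), f r := by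
      rw [Finset.sum_image]
      intro a _ b _ hab
      have hab' : a * Q = b * Q := Nat.add_left_cancel hab
      exact Nat.eq_of_mul_eq_mul_right hQ hab'
    rw [h3]
    refine Finset.sum_le_sum_of_subset_of_nonneg ?_ fun r _ _ => hf r
    intro r hr
    obtain ⟨hr1, hr2⟩ := Finset.mem_filter.mp hr
    refine Finset.mem_image.mpr ⟨r / Q, Finset.mem_range.mpr (hm2 r (Finset.mem_range.mp hr1) hr2), ?_⟩
    have h4 := Nat.mod_add_div r Q
    rw [hr2] at h4
    rw [mul_comm]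
    exact h4
  refine (Finset.sum_le_sum h2).trans ?_
  rw [Finset.sum_const, Finset.card_range, nsmul_eq_mul]

end

end Pool.OC.RS
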