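import Pool.Agent.H70.K2.AVG
import Pool.Agent.H55.K2.RSH
import Pool.Agent.H20.K2.TIQ
import Pool.Agent.H86.LJ.TYP

/-!
# Rows which are not full are not hit

Two positions `X₁` and `X₂ = X₁ + z (o)`, each nearly independent of the block `o` given a common
context `b`. At a typical value of the context the law of `X₂` is nearly invariant under the
differences `z (s) - z (s')`, so that the rows above such a difference are full. If the law of the
rows of `X₂` at its mean cell does not depend on the context, the rows can be tested at the mean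
cell alone.
-/

set_option autoImplicit false

namespace Pool.OC

open Finset Real
open Pool.Agent.H49.Ent Pool.Agent.H32.Dense Pool.STK Pool.KAF Pool.KAL Pool.KX Pool.KAL.TI

section

variable {Ω O β θ S T : Type} [Fintype Ω]

/-- The entropy of the rows of `X` between the levels `κ` and `κ + K` at the cell of `ω`. -/
noncomputable def rowH (p : Ω → ℝ) (X : Ω → ℤ) (κ K : ℕ) (τ : Ω → θ) (ω : Ω) : ℝ :=
  H (cond p (fun v => (X v / ((2 ^ (κ + K) : ℕ) : ℤ), τ v))
    (X ω / ((2 ^ (κ + K) : ℕ) : ℤ), τ ω)) (fun v => X v / ((2 ^ κ : ℕ) : ℤ))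

theorem isLaw_cond {p : Ω → ℝ} (hp : IsLaw p) (c : Ω → S) {ω : Ω} (hω : 0 < p ω) :
    IsLaw (cond p c (c ω)) :=
  ⟨fun v => cond_nonneg hp.nonneg c _ v, sum_cond p c (law_pos hp.nonneg c hω).ne'⟩

theorem MI_unit {p : Ω → ℝ} (hp : ∀ ω, 0 ≤ p ω) (X : Ω → ℤ) (o : Ω → O) (b : Ω → β) :
    Pool.KVA.MI p (fun ω => ((fun _ : Fin 1 => X ω), ())) o b = Pool.KVA.MI p X o b := by
  unfold Pool.KVA.MI
  have e1 : CH p (fun ω => ((fun _ : Fin 1 => X ω), ())) b = CH p X b := by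
    refine CH_congr hp ?_ ?_ (fun _ _ _ _ h => h) (fun _ _ _ _ h => h)
    · intro ω ω' _ _ h
      exact congrFun (Prod.ext_iff.mp (Prod.ext_iff.mp h).1).1 0
    · intro ω ω' _ _ h
      have h1 : X ω = X ω' := (Prod.ext_iff.mp h).1
      simp only [h1]
  have e2 : CH p (fun ω => (((fun _ : Fin 1 => X ω), ()), o ω)) b = CH p (fun ω => (X ω, o ω)) b := by
    refine CH_congr hp ?_ ?_ (fun _ _ _ _ h => h) (fun _ _ _ _ h => h)
    · intro ω ω' _ _ h
      have h1 := Prod.ext_iff.mp (Prod.ext_iff.mp h).1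
      exact Prod.ext (congrFun (Prod.ext_iff.mp h1.1).1 0) h1.2
    · intro ω ω' _ _ h
      have h1 := Prod.ext_iff.mp (Prod.ext_iff.mp h).1
      have h2 : X ω = X ω' := h1.1
      have h3 : o ω = o ω' := h1.2
      simp only [h2, h3]
  rw [e1, e2]

/-- Invariance of the smoothed position under one translation, at one value of the context, gives
full rows. -/
theorem full_one {q : Ω → ℝ} (hq : IsLaw q) (X : Ω → ℤ) (kb kd K : ℕ) (x : Fin 1 → ℤ) (e : ℝ)
    (hT : TIV (smp 1 (2 ^ kb) q) (smX (N := 2 ^ kb) (fun ω (_ : Fin 1) => X ω))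
      (fun w => (fun _ : Ω => ()) w.1) x e)
    (h1 : (2 : ℤ) ^ kb ≤ |x 0|) (h2 : |x 0| ≤ 2 ^ (kb + kd)) (he0 : 0 ≤ e)
    (he : 9 * 4 ^ (kd + K) * e ≤ 1) :
    (K : ℝ) * Real.log 2 - 5 - 2 * Real.log 3 ≤
      CH q (fun ω => X ω / ((2 ^ (kb + kd) : ℕ) : ℤ))
        (fun ω => (X ω / ((2 ^ (kb + kd + K) : ℕ) : ℤ), ())) := by
  have hN : 0 < 2 ^ kb := by positivity
  have hsm := PRM.isLaw_smp (d := 1) hN hq
  have h4 := full_of_tiv hsm (fun w => smX (N := 2 ^ kb) (fun ω (_ : Fin 1) => X ω) w 0)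
    (fun _ => ()) (kb + kd) (kb + kd + K) kb (x 0) e (Nat.le_add_right _ _) h1 h2 he0
    (by
      rw [show kb + kd + K - kb = kd + K by omega]
      exact he) (TIV_coord 0 hT)
  have h5 : Pool.KX.Full (smp 1 (2 ^ kb) q) (fun w => smX (N := 2 ^ kb) (fun ω (_ : Fin 1) => X ω) w 0)
      (fun _ => ()) K (kb + kd + K) := by
    unfold Pool.KX.Full
    rw [Nat.add_sub_cancel]
    have e1 : (((kb + kd + K : ℕ) : ℝ) - ((kb + kd : ℕ) : ℝ)) = K := by
      push_cast
      ring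
    rw [e1] at h4
    exact h4
  have h6 := full_unsmooth hq (0 : Fin 1) (fun ω (_ : Fin 1) => X ω) (fun _ => ()) K
    (kb + kd + K) hN (by
      rw [Nat.add_sub_cancel]
      exact Nat.pow_le_pow_right (by norm_num) (Nat.le_add_right _ _)) h5
  rw [Nat.add_sub_cancel] at h6
  exact h6

/-! ### The law of the rows given the context and given the cell -/

theorem law_zero_off {q : Ω → ℝ} (hq : ∀ ω, 0 ≤ q ω) (X : Ω → S) (F : Finset S)
    (hF : ∀ ω, 0 < q ω → X ω ∈ F) {s : S} (hs : s ∉ F) : law q X s = 0 := by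
  classical
  unfold law
  refine Finset.sum_eq_zero fun ω _ => ?_
  split_ifs with h
  · by_contra h0
    exact hs (h ▸ hF ω (lt_of_le_of_ne (hq ω) (Ne.symm h0)))
  · rfl

theorem H_supp {q : Ω → ℝ} (hq : ∀ ω, 0 ≤ q ω) (X : Ω → S) (F : Finset S)
    (hF : ∀ ω, 0 < q ω → X ω ∈ F) : H q X = ∑ s ∈ F, negMulLog (law q X s) := by
  classical
  rw [H_eq_sum_of_subset q X (F := univ.image X ∪ F) Finset.subset_union_left]
  symm
  refine Finset.sum_subset Finset.subset_union_right fun s _ hs => ?_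
  rw [law_zero_off hq X F hF hs]
  simp

theorem sum_law_supp {q : Ω → ℝ} (hq : IsLaw q) (X : Ω → S) (F : Finset S)
    (hF : ∀ ω, 0 < q ω → X ω ∈ F) : ∑ s ∈ F, law q X s = 1 := by
  classical
  have h1 : ∑ s ∈ F, law q X s = ∑ s ∈ univ.image X ∪ F, law q X s :=
    Finset.sum_subset Finset.subset_union_right fun s _ hs => law_zero_off hq.nonneg X F hF hs
  have h2 : ∑ s ∈ univ.image X, law q X s = ∑ s ∈ univ.image X ∪ F, law q X s :=
    Finset.sum_subset Finset.subset_union_left fun s _ hs => law_eq_zero_of_notMem q X hs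
  rw [h1, ← h2, sum_law, hq.sum_one]

/-- At one value of the cell: the entropy of the rows given the context is not much larger than
the entropy of the rows, for most values of the context. -/
theorem cmp_at {q : Ω → ℝ} (hq : IsLaw q) (R : Ω → S) (b : Ω → β) {e δ : ℝ} (hδ : 0 < δ)
    (he : H q R + H q b - H q (fun ω => (R ω, b ω)) ≤ e) (F : Finset S)
    (hF : ∀ ω, 0 < q ω → R ω ∈ F) :
    Pr q {ω | H q R + Real.log 2 + δ / 2 * Real.log F.card < H (cond q b (b ω)) R} ≤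
      2 * Real.sqrt e / δ := by
  classical
  have hpin := Pool.KVA.pinsker q R b hq.nonneg hq.sum_one
  have hpin2 := hpin.trans (mul_le_mul_of_nonneg_left (Real.sqrt_le_sqrt he) (by norm_num))
  -- the total variation at one value of the context
  set T : β → ℝ := fun v => ∑ s ∈ F, |law q R s - law (cond q b v) R s| with hT
  have hT0 : ∀ v, 0 ≤ T v := fun v => Finset.sum_nonneg fun _ _ => abs_nonneg _
  have h1 : ∑ v ∈ univ.image b, law q b v * T v ≤ 2 * Real.sqrt e := by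
    refine le_trans (le_of_eq ?_) hpin2
    rw [Finset.sum_product_right]
    refine Finset.sum_congr rfl fun v hv => ?_
    rw [hT, Finset.mul_sum]
    have e1 : ∀ s, law q b v * |law q R s - law (cond q b v) R s| =
        |law q (fun ω => (R ω, b ω)) (s, v) - law q R s * law q b v| := by
      intro s
      rcases (law_nonneg hq.nonneg b v).eq_or_lt with h0 | h0
      · have h2 := law_pair_le' hq.nonneg R b s v
        have h3 := law_nonneg hq.nonneg (fun ω => (R ω, b ω)) (s, v)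
        have h4 : law q (fun ω => (R ω, b ω)) (s, v) = 0 := le_antisymm (h0 ▸ h2) h3
        rw [h4, ← h0]
        simp
      · rw [law_cond, ← abs_of_pos h0, ← abs_mul, abs_of_pos h0, mul_sub, mul_div_cancel₀ _ h0.ne',
          abs_sub_comm, mul_comm (law q b v)]
    rw [Finset.sum_congr rfl fun s _ => e1 s]
    -- both sums are over the support
    have h5 : ∀ s, s ∉ F → |law q (fun ω => (R ω, b ω)) (s, v) - law q R s * law q b v| = 0 := by
      intro s hs
      have h6 := law_zero_off hq.nonneg R F hF hs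
      have h7 := law_pair_le hq.nonneg R b s v
      have h8 := law_nonneg hq.nonneg (fun ω => (R ω, b ω)) (s, v)
      have h9 : law q (fun ω => (R ω, b ω)) (s, v) = 0 := le_antisymm (h6 ▸ h7) h8
      rw [h9, h6]
      simp
    have h6 : ∀ s, s ∉ univ.image R →
        |law q (fun ω => (R ω, b ω)) (s, v) - law q R s * law q b v| = 0 := by
      intro s hs
      have h6 := law_eq_zero_of_notMem q R hs
      have h7 := law_pair_le hq.nonneg R b s v
      have h8 := law_nonneg hq.nonneg (fun ω => (R ω, b ω)) (s, v)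
      have h9 : law q (fun ω => (R ω, b ω)) (s, v) = 0 := le_antisymm (h6 ▸ h7) h8
      rw [h9, h6]
      simp
    rw [Finset.sum_subset (Finset.subset_union_right : F ⊆ univ.image R ∪ F) fun s _ hs => h5 s hs]
    rw [Finset.sum_subset (Finset.subset_union_left : univ.image R ⊆ univ.image R ∪ F)
      fun s _ hs => h6 s hs]
  have h2 : ∑ ω, q ω * T (b ω) ≤ δ * (2 * Real.sqrt e / δ) := by
    rw [sum_mul_eq_sum_image q b T, mul_div_cancel₀ _ hδ.ne']
    exact h1
  have h3 := AVG.markov hq.nonneg (fun ω => T (b ω)) (fun ω _ => hT0 _) δ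
    (2 * Real.sqrt e / δ) hδ h2
  refine le_trans (Pr_mono hq.nonneg fun ω hω h => ?_) h3
  by_contra hcon
  have h4 : T (b ω) ≤ δ := not_lt.mp hcon
  have hql := isLaw_cond hq b hω
  have hF' : ∀ v, 0 < cond q b (b ω) v → R v ∈ F := fun v hv =>
    hF v ((cond_pos_iff hq.nonneg b (b ω) v).1 hv).1
  have hFne : F.Nonempty := ⟨R ω, hF ω hω⟩
  have h5 := Pool.KVA.ent_cont F hFne (fun s => law q R s) (fun s => law (cond q b (b ω)) R s)
    (fun s _ => law_nonneg hq.nonneg R s) (fun s _ => law_nonneg hql.nonneg R s)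
    (sum_law_supp hq R F hF) (sum_law_supp hql R F hF')
  rw [← H_supp hq.nonneg R F hF, ← H_supp hql.nonneg R F hF'] at h5
  have h6 : 0 ≤ Real.log F.card := Real.log_nonneg (by
    exact_mod_cast hFne.card_pos)
  have h7 : (∑ s ∈ F, |law q R s - law (cond q b (b ω)) R s|) / 2 * Real.log F.card ≤
      δ / 2 * Real.log F.card := by
    gcongr
  exact absurd h (not_lt.mpr (h5.trans (by linarith only [h7])))

/-- Conditioning on `c`, then on `b`, at a sample of the support. -/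
theorem cond_swap {p : Ω → ℝ} (hp : ∀ ω, 0 ≤ p ω) (c : Ω → S) (b : Ω → T) {v : S} {ω : Ω}
    (hω : 0 < cond p c v ω) :
    cond (cond p c v) b (b ω) = cond p (fun u => (b u, c u)) (b ω, c ω) := by
  obtain ⟨h1, h2⟩ := (cond_pos_iff hp c v ω).1 hω
  have h3 := Pool.LJ.TYP.cond_pair (r := cond p c v) b c (s := v) (fun u hu => by
    have hu' : 0 < cond p c v u := lt_of_le_of_ne (cond_nonneg hp _ _ _) (Ne.symm hu)
    exact ((cond_pos_iff hp c v u).1 hu').2) (b ω)
  rw [h3]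
  have h4 := HBL.cond_cond hp (W := c) (W' := fun u => (b u, c u))
    (fun _ _ _ _ h => (Prod.ext_iff.mp h).2) (w := v) h1 h2
  have h5 : (b ω, v) = (b ω, c ω) := by rw [h2]
  rw [h5]
  exact h4

/-- The entropies given the context and given the cell. -/
theorem cmp {p : Ω → ℝ} (hp : IsLaw p) (R : Ω → S) (b : Ω → β) (m : Ω → T) {e δ a : ℝ}
    (hδ : 0 < δ) (he0 : 0 < e) (hMI : Pool.KVA.MI p R b m ≤ e * a) (F : T → Finset S) (n : ℕ)
    (hF : ∀ ω, 0 < p ω → R ω ∈ F (m ω)) (hn : ∀ t, (F t).card ≤ n) :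
    Pr p {ω | H (cond p m (m ω)) R + Real.log 2 + δ / 2 * Real.log n <
      H (cond p (fun u => (b u, m u)) (b ω, m ω)) R} ≤ a + 2 * Real.sqrt e / δ := by
  classical
  set S₀ : Set Ω := {ω | H (cond p m (m ω)) R + Real.log 2 + δ / 2 * Real.log n <
      H (cond p (fun u => (b u, m u)) (b ω, m ω)) R} with hS₀
  set E : Set Ω := {ω | e < H (cond p m (m ω)) R + H (cond p m (m ω)) b -
    H (cond p m (m ω)) (fun ω' => (R ω', b ω'))} with hE
  have hPE : Pr p E ≤ a := avg3_thm Ω S β T p R b m e a hp he0 hMI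
  have h0 : 0 ≤ 2 * Real.sqrt e / δ := by positivity
  rw [← AVG.Pr_cond_sum hp.nonneg m S₀]
  have h1 : ∀ ω, p ω * Pr (cond p m (m ω)) S₀ ≤
      (if ω ∈ E then p ω else 0) + p ω * (2 * Real.sqrt e / δ) := by
    intro ω
    rcases (hp.nonneg ω).eq_or_lt with hω | hω
    · rw [← hω, zero_mul, zero_mul, ite_self, add_zero]
    have hq := isLaw_cond hp m hω
    by_cases hωE : ω ∈ E
    · rw [if_pos hωE]
      have h2 := Pr_le_one hq S₀
      have h3 : 0 ≤ p ω * (2 * Real.sqrt e / δ) := by positivity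
      nlinarith only [h3, hω, h2]
    · rw [if_neg hωE, zero_add]
      refine mul_le_mul_of_nonneg_left ?_ hω.le
      have h2 := cmp_at hq R b hδ (not_lt.mp hωE) (F (m ω)) (fun v hv => by
        obtain ⟨k1, k2⟩ := (cond_pos_iff hp.nonneg m (m ω) v).1 hv
        rw [← k2]
        exact hF v k1)
      refine le_trans (Pr_mono hq.nonneg fun v hv hvS => ?_) h2
      have h3 := cond_swap hp.nonneg m b hv
      obtain ⟨k1, k2⟩ := (cond_pos_iff hp.nonneg m (m ω) v).1 hv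
      have hvS' : H (cond p m (m v)) R + Real.log 2 + δ / 2 * Real.log n <
        H (cond p (fun u => (b u, m u)) (b v, m v)) R := hvS
      show H (cond p m (m ω)) R + Real.log 2 + δ / 2 * Real.log (F (m ω)).card <
        H (cond (cond p m (m ω)) b (b v)) R
      rw [h3, ← k2]
      have hFv : (F (m v)).Nonempty := ⟨R v, hF v k1⟩
      have h4 : Real.log (F (m v)).card ≤ Real.log n := by
        refine Real.log_le_log (by exact_mod_cast hFv.card_pos) (by exact_mod_cast hn _)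
      have h5 : δ / 2 * Real.log (F (m v)).card ≤ δ / 2 * Real.log n := by gcongr
      linarith only [hvS', h5]
  refine (Finset.sum_le_sum fun ω _ => h1 ω).trans ?_
  rw [Finset.sum_add_distrib, ← Finset.sum_mul, hp.sum_one, one_mul, ← Pool.KAF.Pr_eq]
  linarith only [hPE]

/-- Markov's inequality for the deficit of the rows given the context, where the rows are full. -/
theorem full_markov {p : Ω → ℝ} (hp : IsLaw p) (R : Ω → S) (b : Ω → β) (m : Ω → T) (D : Set β)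
    {M c₀ t : ℝ} (ht : 0 < t) (hc : 0 ≤ c₀)
    (hD : ∀ ω, 0 < p ω → b ω ∈ D → M - c₀ ≤ CH (cond p b (b ω)) R m)
    (hM : ∀ ω, 0 < p ω → H (cond p (fun u => (m u, b u)) (m ω, b ω)) R ≤ M) :
    Pr p {ω | b ω ∈ D ∧ t < M - H (cond p (fun u => (m u, b u)) (m ω, b ω)) R} ≤ c₀ / t := by
  classical
  set S₀ : Set Ω := {ω | b ω ∈ D ∧ t < M - H (cond p (fun u => (m u, b u)) (m ω, b ω)) R} with hS₀
  have hct : 0 ≤ c₀ / t := by positivity
  rw [← AVG.Pr_cond_sum hp.nonneg b S₀]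
  have h1 : ∀ ω, p ω * Pr (cond p b (b ω)) S₀ ≤ p ω * (c₀ / t) := by
    intro ω
    rcases (hp.nonneg ω).eq_or_lt with hω | hω
    · rw [← hω, zero_mul, zero_mul]
    refine mul_le_mul_of_nonneg_left ?_ hω.le
    have hq := isLaw_cond hp b hω
    by_cases hb : b ω ∈ D
    · have h2 := hD ω hω hb
      have h3 : ∑ v, cond p b (b ω) v *
          (M - H (cond p (fun u => (m u, b u)) (m v, b v)) R) ≤ t * (c₀ / t) := by
        rw [mul_div_cancel₀ _ ht.ne']
        have h4 : ∀ v, cond p b (b ω) v * (M - H (cond p (fun u => (m u, b u)) (m v, b v)) R) =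
            cond p b (b ω) v * M -
              cond p b (b ω) v * H (cond (cond p b (b ω)) m (m v)) R := by
          intro v
          rcases (hq.nonneg v).eq_or_lt with hv | hv
          · rw [← hv]
            ring
          · rw [cond_swap hp.nonneg b m hv]
            ring
        rw [Finset.sum_congr rfl fun v _ => h4 v, Finset.sum_sub_distrib, ← Finset.sum_mul,
          hq.sum_one, one_mul]
        have h5 : ∑ v, cond p b (b ω) v * H (cond (cond p b (b ω)) m (m v)) R =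
            CH (cond p b (b ω)) R m := by
          rw [← CDF.Ex_H hq.nonneg]
          rfl
        rw [h5]
        linarith only [h2]
      have h6 := AVG.markov hq.nonneg
        (fun v => M - H (cond p (fun u => (m u, b u)) (m v, b v)) R) (fun v hv => by
          have h7 := hM v ((cond_pos_iff hp.nonneg b (b ω) v).1 hv).1
          linarith only [h7]) t (c₀ / t) ht h3
      refine le_trans (Pr_mono hq.nonneg fun v _ hvS => ?_) h6
      exact hvS.2
    · have h2 : Pr (cond p b (b ω)) S₀ ≤ Pr (cond p b (b ω)) ∅ := by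
        refine Pr_mono hq.nonneg fun v hv hvS => ?_
        have h3 := ((cond_pos_iff hp.nonneg b (b ω) v).1 hv).2
        exact absurd (h3 ▸ hvS.1) hb
      have h4 : Pr (cond p b (b ω)) ∅ = 0 := by
        rw [Pool.KAF.Pr_eq]
        simp
      linarith only [hct, h2, h4]
  refine (Finset.sum_le_sum fun ω _ => h1 ω).trans ?_
  rw [← Finset.sum_mul, hp.sum_one, one_mul]

theorem CH_swap_lab {p : Ω → ℝ} (hp : ∀ ω, 0 ≤ p ω) {τ' ρ : Type} (X : Ω → τ') (b : Ω → β) (m : Ω → ρ) :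
    CH p X (fun u => (b u, m u)) = CH p X (fun u => (m u, b u)) :=
  CH_congr hp (fun _ _ _ _ h => (Prod.ext_iff.mp h).1) (fun _ _ _ _ h => (Prod.ext_iff.mp h).1)
    (fun _ _ _ _ h => Prod.ext (Prod.ext_iff.mp h).2 (Prod.ext_iff.mp h).1)
    (fun _ _ _ _ h => Prod.ext (Prod.ext_iff.mp h).2 (Prod.ext_iff.mp h).1)

theorem cond_comm (p : Ω → ℝ) (b : Ω → S) (m : Ω → T) (s : S) (t : T) :
    cond p (fun u => (b u, m u)) (s, t) = cond p (fun u => (m u, b u)) (t, s) := by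
  classical
  have e1 : law p (fun u => (b u, m u)) (s, t) = law p (fun u => (m u, b u)) (t, s) := by
    unfold law
    refine Finset.sum_congr rfl fun v _ => ?_
    by_cases h1 : b v = s <;> by_cases h2 : m v = t <;> simp [h1, h2]
  funext v
  unfold Pool.Agent.H49.Ent.cond
  rw [e1]
  by_cases h1 : b v = s <;> by_cases h2 : m v = t <;> simp [h1, h2]

/-- The rows of a cell of length `2 ^ (κ + K)` take at most `2 ^ K` values. -/
noncomputable def cellF (K : ℕ) (t : ℤ) : Finset ℤ :=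
  Finset.Ico (t * ((2 ^ K : ℕ) : ℤ)) (t * ((2 ^ K : ℕ) : ℤ) + ((2 ^ K : ℕ) : ℤ))

theorem cellF_card (K : ℕ) (t : ℤ) : (cellF K t).card = 2 ^ K := by
  unfold cellF
  rw [Int.card_Ico, add_sub_cancel_left, Int.toNat_natCast]

theorem mem_cellF (κ K : ℕ) (x : ℤ) :
    x / ((2 ^ κ : ℕ) : ℤ) ∈ cellF K (x / ((2 ^ (κ + K) : ℕ) : ℤ)) := by
  unfold cellF
  have h1 : x / ((2 ^ (κ + K) : ℕ) : ℤ) = (x / ((2 ^ κ : ℕ) : ℤ)) / ((2 ^ K : ℕ) : ℤ) := by
    rw [Int.ediv_ediv_of_nonneg (by positivity)]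
    congr 1
    push_cast
    rw [pow_add]
  rw [h1, Finset.mem_Ico]
  have h2 : (0 : ℤ) < ((2 ^ K : ℕ) : ℤ) := by positivity
  have h3 := Int.emod_add_mul_ediv (x / ((2 ^ κ : ℕ) : ℤ)) ((2 ^ K : ℕ) : ℤ)
  have h4 := Int.emod_nonneg (x / ((2 ^ κ : ℕ) : ℤ)) h2.ne'
  have h5 := Int.emod_lt_of_pos (x / ((2 ^ κ : ℕ) : ℤ)) h2
  constructor <;> nlinarith

/-- **Rows which are not full are not hit**, one scale. -/
theorem ra_unif (kd Kc : ℕ) : ∃ kb₀ : ℕ, ∀ (Fc : ℕ) (ε : ℝ), 0 < ε → ε ≤ 1 →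
    ∃ e : ℝ, 0 < e ∧ ∀ kb ≥ kb₀, ∀ (Ω O β θ : Type) [Fintype Ω] (p : Ω → ℝ)
      (X₁ X₂ : Ω → ℤ) (b : Ω → β) (o : Ω → O) (τ : Ω → θ) (z : β → O → ℤ) (F : Finset O)
      (B : Set Ω), IsLaw p → (∀ ω, o ω ∈ F) → F.card ≤ Fc →
      (∀ ω, ω ∉ B → |X₂ ω - X₁ ω - z (b ω) (o ω)| ≤ 8) → Pr p B ≤ e → Det p b τ →
      (∀ ω ω', 0 < p ω → 0 < p ω' → b ω = b ω' →
        |z (b ω) (o ω) - z (b ω) (o ω')| ≤ 2 ^ (kb + kd)) →
      Pool.KVA.MI p X₁ o b ≤ e → Pool.KVA.MI p X₂ o b ≤ e →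
      Pool.KVA.MI p (fun ω => X₂ ω / ((2 ^ (kb + kd) : ℕ) : ℤ)) b
        (fun ω => (X₂ ω / ((2 ^ (kb + kd + Kc) : ℕ) : ℤ), τ ω)) ≤ e →
      Pr (dbl p b) {w | rowH p X₂ (kb + kd) Kc τ w.1 ≤ Kc * Real.log 2 - 32 / ε - 12 ∧
        (2 : ℤ) ^ kb ≤ |z (b w.1) (o w.1) - z (b w.1) (o w.2)|} ≤ ε := by
  classical
  set eT : ℝ := 1 / (9 * 4 ^ (kd + Kc)) with heT
  have heT0 : 0 < eT := by positivity
  obtain ⟨kb₀, hkb₀⟩ := pow_unbounded_of_one_lt (32 / eT) (by norm_num : (1 : ℝ) < 2)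
  refine ⟨kb₀, ?_⟩
  intro Fc ε hε hε1
  -- constants
  set η : ℝ := ε / (16 * (Fc + 1)) with hη
  have hη0 : 0 < η := by positivity
  set a : ℝ := ε / 32 with ha
  have ha0 : 0 < a := by positivity
  set e5 : ℝ := min 1 ((eT * η / 12) ^ 2) with he5
  have he50 : 0 < e5 := lt_min one_pos (by positivity)
  set δ : ℝ := 1 / (Kc + 1) with hδ
  have hδ0 : 0 < δ := by positivity
  set e6 : ℝ := (δ * ε / 32) ^ 2 with he6
  have he60 : 0 < e6 := by positivity
  refine ⟨min (e5 * a) (e6 * (ε / 16)), lt_min (by positivity) (by positivity), ?_⟩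
  intro kb hkb Ω O β θ _ p X₁ X₂ b o τ z F B hp hoF hFc hX hB hτ hz hM1 hM2 hM3
  set κ := kb + kd with hκ
  set R : Ω → ℤ := fun ω => X₂ ω / ((2 ^ κ : ℕ) : ℤ) with hR
  set m2 : Ω → ℤ := fun ω => X₂ ω / ((2 ^ (κ + Kc) : ℕ) : ℤ) with hm2
  set m : Ω → ℤ × θ := fun ω => (m2 ω, τ ω) with hm
  -- the translation
  obtain ⟨E, hE, hT⟩ := avg5_thm 1 (2 ^ kb) Ω O Unit β p (fun ω _ => X₂ ω) (fun ω _ => X₁ ω)
    (fun _ => ()) o b (fun v s _ => z v s) B 8 e5 e5 e5 a η hp (by positivity) (by norm_num) he50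
    he50 he50 hη0 (fun ω hω _ => by exact_mod_cast hX ω hω)
    (by rw [MI_unit hp.nonneg]; exact hM2.trans (min_le_left _ _))
    (by rw [MI_unit hp.nonneg]; exact hM1.trans (min_le_left _ _)) (hB.trans (min_le_left _ _))
  have hrare := avg4_thm Ω O β p o b F η hp hη0.le hoF
  set Lr : Set Ω := {ω | law (cond p b (b ω)) o (o ω) < η} with hLr
  have hrare' : Pr p Lr ≤ ε / 16 := by
    refine hrare.trans ?_
    have h1 : (F.card : ℝ) ≤ Fc := by exact_mod_cast hFc
    have h2 : η * (F.card : ℝ) ≤ η * (Fc + 1) := mul_le_mul_of_nonneg_left (by linarith only [h1]) hη0.le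
    refine h2.trans (le_of_eq ?_)
    rw [hη]
    field_simp
  -- the error of the invariance
  have herr : 2 * ((Real.sqrt e5 + Real.sqrt e5 + e5) / η) + 2 * ((1 : ℕ) * 8 / ((2 ^ kb : ℕ) : ℝ)) ≤
      eT := by
    have h1 : Real.sqrt e5 ≤ eT * η / 12 := by
      rw [show eT * η / 12 = Real.sqrt ((eT * η / 12) ^ 2) from
        (Real.sqrt_sq (by positivity)).symm]
      exact Real.sqrt_le_sqrt (min_le_right _ _)
    have h2 : e5 ≤ Real.sqrt e5 := by
      have h3 : e5 ≤ 1 := min_le_left _ _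
      have h4 : e5 * e5 ≤ e5 := by nlinarith only [he50, h3]
      calc e5 = Real.sqrt (e5 * e5) := (Real.sqrt_mul_self he50.le).symm
        _ ≤ Real.sqrt e5 := Real.sqrt_le_sqrt h4
    have h3 : (Real.sqrt e5 + Real.sqrt e5 + e5) / η ≤ eT / 4 := by
      rw [div_le_iff₀ hη0]
      nlinarith only [h1, h2]
    have h4 : (1 : ℕ) * 8 / ((2 ^ kb : ℕ) : ℝ) ≤ eT / 4 := by
      have h5 : (2 : ℝ) ^ kb₀ ≤ 2 ^ kb := pow_le_pow_right₀ (by norm_num) hkb
      have h6 : 32 / eT ≤ 2 ^ kb := hkb₀.le.trans h5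
      rw [div_le_iff₀ heT0] at h6
      push_cast
      rw [div_le_iff₀ (by positivity)]
      linarith only [h6]
    linarith only [h3, h4]
  -- full contexts
  set D : Set β := {v | (Kc : ℝ) * Real.log 2 - 8 ≤ CH (cond p b v) R m} with hD
  have hlog3 : Real.log 3 ≤ 3 / 2 := by
    have h1 := Real.log_le_sub_one_of_pos (x := 3 / 2) (by norm_num)
    have h2 : Real.log 3 = Real.log (3 / 2) + Real.log 2 := by
      rw [← Real.log_mul (by norm_num) (by norm_num)]
      norm_num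
    have h3 := Real.log_two_lt_d9
    linarith only [hε1, ha, ha0, h1, h2, h3]
  have hdet : ∀ ω, 0 < p ω → CH (cond p b (b ω)) R m = CH (cond p b (b ω)) R (fun u => (m2 u, ())) := by
    intro ω hω
    refine CH_congr (isLaw_cond hp b hω).nonneg (fun _ _ _ _ h => (Prod.ext_iff.mp h).1)
      (fun _ _ _ _ h => (Prod.ext_iff.mp h).1) ?_ ?_
    · intro v v' _ _ h
      exact Prod.ext (Prod.ext_iff.mp h).1 rfl
    · intro v v' hv hv' h
      obtain ⟨k1, k2⟩ := (cond_pos_iff hp.nonneg b (b ω) v).1 hv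
      obtain ⟨k3, k4⟩ := (cond_pos_iff hp.nonneg b (b ω) v').1 hv'
      exact Prod.ext (Prod.ext_iff.mp h).1 (hτ v v' k1 k3 (k2.trans k4.symm))
  -- the entropy given the context is at most that of a full cell
  have hRF : ∀ ω, R ω ∈ cellF Kc (m2 ω) := fun ω => mem_cellF κ Kc (X₂ ω)
  have hlogF : ∀ t : ℤ, Real.log (cellF Kc t).card = Kc * Real.log 2 := by
    intro t
    rw [cellF_card]
    push_cast
    rw [Real.log_pow]
  have hHM : ∀ ω, 0 < p ω → H (cond p (fun u => (m u, b u)) (m ω, b ω)) R ≤ Kc * Real.log 2 := by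
    intro ω hω
    have hq := isLaw_cond hp (fun u => (m u, b u)) hω
    rw [← hlogF (m2 ω)]
    refine H_le_log_card hq.nonneg hq.sum_one R (cellF Kc (m2 ω)) fun v hv => ?_
    have h1 := ((cond_pos_iff hp.nonneg (fun u => (m u, b u)) (m ω, b ω) v).1 hv).2
    have h2 : m2 v = m2 ω := (Prod.ext_iff.mp (Prod.ext_iff.mp h1).1).1
    rw [← h2]
    exact hRF v
  have hmark := full_markov hp R b m D (M := Kc * Real.log 2) (c₀ := 8) (t := 32 / ε)
    (by positivity) (by norm_num) (fun ω _ hb => hb) hHM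
  have hmark' : (8 : ℝ) / (32 / ε) = ε / 4 := by
    field_simp
    norm_num
  rw [hmark'] at hmark
  -- the comparison
  have hcmp := cmp hp R b m (e := e6) (δ := δ) (a := ε / 16) hδ0 he60
    (hM3.trans (min_le_right _ _)) (fun t => cellF Kc t.1) (2 ^ Kc) (fun ω _ => hRF ω)
    (fun t => (cellF_card Kc t.1).le)
  have hsq : 2 * Real.sqrt e6 / δ = ε / 16 := by
    rw [he6, Real.sqrt_sq (by positivity)]
    field_simp
    norm_num
  rw [hsq] at hcmp
  set C₀ : Set Ω := {ω | H (cond p m (m ω)) R + Real.log 2 + δ / 2 * Real.log ((2 ^ Kc : ℕ) : ℝ) <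
      H (cond p (fun u => (b u, m u)) (b ω, m ω)) R} with hC₀
  set S₁ : Set Ω := {ω | b ω ∈ D ∧ 32 / ε < (Kc : ℝ) * Real.log 2 -
    H (cond p (fun u => (m u, b u)) (m ω, b ω)) R} with hS₁
  have hd0 : ∀ w, 0 ≤ dbl p b w := dbl_nonneg hp.nonneg
  have m1 : ∀ E : Set Ω, Pr (dbl p b) {w | w.1 ∈ E} = Pr p E := by
    intro E
    unfold Pr
    exact (dbl_fst (b := b) hp.nonneg).law (fun ω => ω ∈ E) True
  have m2' : ∀ E : Set Ω, Pr (dbl p b) {w | w.2 ∈ E} = Pr p E := by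
    intro E
    unfold Pr
    exact (dbl_snd (b := b) hp.nonneg).law (fun ω => ω ∈ E) True
  refine le_trans (Pr_mono hd0 (F := {w | w.1 ∈ E} ∪ ({w | w.1 ∈ Lr} ∪ ({w | w.2 ∈ Lr} ∪
    ({w | w.1 ∈ S₁} ∪ {w | w.1 ∈ C₀})))) ?_) ?_
  · intro w hw hwS
    obtain ⟨hrow, hbig⟩ := hwS
    by_cases c1 : w.1 ∈ E
    · exact Or.inl c1
    by_cases c2 : w.1 ∈ Lr
    · exact Or.inr (Or.inl c2)
    by_cases c3 : w.2 ∈ Lr
    · exact Or.inr (Or.inr (Or.inl c3))
    by_cases c4 : w.1 ∈ C₀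
    · exact Or.inr (Or.inr (Or.inr (Or.inr c4)))
    refine Or.inr (Or.inr (Or.inr (Or.inl ?_)))
    have hb : b w.1 = b w.2 := dbl_eq hp.nonneg hw
    have hp1 : 0 < p w.1 := ((glue_pos_iff hp.nonneg hp.nonneg w).mp hw).1
    have hp2 : 0 < p w.2 := ((glue_pos_iff hp.nonneg hp.nonneg w).mp hw).2.1
    have hq := isLaw_cond hp b hp1
    have htiv := hT w.1 c1 hp1 (o w.1) (o w.2) (le_of_not_gt fun h => c2 h) (by
      rw [hb]
      exact le_of_not_gt fun h => c3 h)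
    have hfull := full_one hq X₂ kb kd Kc (fun _ => z (b w.1) (o w.1) - z (b w.1) (o w.2)) _ htiv
      (by exact hbig) (by exact hz w.1 w.2 hp1 hp2 hb) (by positivity) (by
        refine le_trans (mul_le_mul_of_nonneg_left herr (by positivity)) (le_of_eq ?_)
        rw [heT]
        field_simp)
    have hDm : b w.1 ∈ D := by
      show (Kc : ℝ) * Real.log 2 - 8 ≤ CH (cond p b (b w.1)) R m
      rw [hdet w.1 hp1]
      linarith only [hlog3, hfull]
    refine ⟨hDm, ?_⟩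
    have h1 : H (cond p (fun u => (b u, m u)) (b w.1, m w.1)) R ≤
        H (cond p m (m w.1)) R + Real.log 2 + δ / 2 * Real.log ((2 ^ Kc : ℕ) : ℝ) :=
      le_of_not_gt fun h => c4 h
    rw [cond_comm] at h1
    have h2 : δ / 2 * Real.log ((2 ^ Kc : ℕ) : ℝ) ≤ 1 / 2 := by
      push_cast
      rw [Real.log_pow, hδ]
      have h3 := Real.log_two_lt_d9
      have h4 : (Kc : ℝ) * Real.log 2 ≤ Kc + 1 := by
        have : (0 : ℝ) ≤ Kc := Nat.cast_nonneg _
        nlinarith only [h3]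
      rw [div_div, one_div_mul_eq_div, div_le_iff₀ (by positivity)]
      linarith only [h4]
    have h5 : rowH p X₂ κ Kc τ w.1 = H (cond p m (m w.1)) R := rfl
    rw [h5] at hrow
    have h6 := Real.log_two_lt_d9
    linarith only [hrow, h1, h2, h6]
  · have u1 := Pr_union_le hd0 {w : Ω × Ω | w.1 ∈ E} ({w | w.1 ∈ Lr} ∪ ({w | w.2 ∈ Lr} ∪
      ({w | w.1 ∈ S₁} ∪ {w | w.1 ∈ C₀})))
    have u2 := Pr_union_le hd0 {w : Ω × Ω | w.1 ∈ Lr} ({w | w.2 ∈ Lr} ∪
      ({w | w.1 ∈ S₁} ∪ {w | w.1 ∈ C₀}))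
    have u3 := Pr_union_le hd0 {w : Ω × Ω | w.2 ∈ Lr} ({w | w.1 ∈ S₁} ∪ {w | w.1 ∈ C₀})
    have u4 := Pr_union_le hd0 {w : Ω × Ω | w.1 ∈ S₁} {w | w.1 ∈ C₀}
    rw [m1 E] at u1
    rw [m1 Lr] at u2
    rw [m2' Lr] at u3
    rw [m1 S₁, m1 C₀] at u4
    have h7 : 3 * a = 3 * ε / 32 := by
      rw [ha]
      ring
    linarith only [ha, ha0, hE, hrare', hcmp, hmark, u1, u2, u3, u4]

/-- **Rows which are not full are not hit**, one scale. -/
theorem ra_one (kd Fc Kc : ℕ) (ε : ℝ) (hε : 0 < ε) (hε1 : ε ≤ 1) :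
    ∃ (kb₀ : ℕ) (e : ℝ), 0 < e ∧ ∀ kb ≥ kb₀, ∀ (Ω O β θ : Type) [Fintype Ω] (p : Ω → ℝ)
      (X₁ X₂ : Ω → ℤ) (b : Ω → β) (o : Ω → O) (τ : Ω → θ) (z : β → O → ℤ) (F : Finset O)
      (B : Set Ω), IsLaw p → (∀ ω, o ω ∈ F) → F.card ≤ Fc →
      (∀ ω, ω ∉ B → |X₂ ω - X₁ ω - z (b ω) (o ω)| ≤ 8) → Pr p B ≤ e → Det p b τ →
      (∀ ω ω', 0 < p ω → 0 < p ω' → b ω = b ω' →
        |z (b ω) (o ω) - z (b ω) (o ω')| ≤ 2 ^ (kb + kd)) →
      Pool.KVA.MI p X₁ o b ≤ e → Pool.KVA.MI p X₂ o b ≤ e →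
      Pool.KVA.MI p (fun ω => X₂ ω / ((2 ^ (kb + kd) : ℕ) : ℤ)) b
        (fun ω => (X₂ ω / ((2 ^ (kb + kd + Kc) : ℕ) : ℤ), τ ω)) ≤ e →
      Pr (dbl p b) {w | rowH p X₂ (kb + kd) Kc τ w.1 ≤ Kc * Real.log 2 - 32 / ε - 12 ∧
        (2 : ℤ) ^ kb ≤ |z (b w.1) (o w.1) - z (b w.1) (o w.2)|} ≤ ε := by
  obtain ⟨kb₀, h⟩ := ra_unif kd Kc
  obtain ⟨e, he, h'⟩ := h Fc ε hε hε1
  exact ⟨kb₀, e, he, h'⟩

end

end Pool.OC
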