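import Pool.Agent.H86.OC.RASd

/-!
# Rows which are not full are not hit: proof of `RowSumStmt`
-/

set_option autoImplicit false

namespace Pool.OC.RS

open Finset Real
open Pool.Agent.H49.Ent Pool.Agent.H32.Dense Pool.STK Pool.KAF Pool.KAL Pool.KX

section

variable {Ω S T θ : Type} [Fintype Ω]

theorem wrow_nonneg (p : Ω → ℝ) (N : Ω → ℤ) (t : Ω → θ) (X lev K : ℕ) (D : ℝ) (ω : Ω) :
    0 ≤ wrow p N t X lev K D ω := by
  classical
  unfold wrow
  refine div_nonneg (Finset.sum_nonneg fun u _ => ?_) (by positivity)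
  split_ifs <;> norm_num

theorem wrow_le_one (p : Ω → ℝ) (N : Ω → ℤ) (t : Ω → θ) (X lev K : ℕ) (D : ℝ) (ω : Ω) :
    wrow p N t X lev K D ω ≤ 1 := by
  classical
  unfold wrow
  rw [div_le_one (by positivity)]
  refine (Finset.sum_le_sum (g := fun _ => (1 : ℝ)) fun u _ => ?_).trans ?_
  · split_ifs <;> norm_num
  · rw [Finset.sum_const, Finset.card_range, nsmul_eq_mul, mul_one]
    push_cast
    exact le_rfl

theorem wrow_anti (p : Ω → ℝ) (N : Ω → ℤ) (t : Ω → θ) (X lev K : ℕ) {D D' : ℝ} (h : D ≤ D')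
    (ω : Ω) : wrow p N t X lev K D' ω ≤ wrow p N t X lev K D ω := by
  classical
  unfold wrow
  refine div_le_div_of_nonneg_right (Finset.sum_le_sum fun u _ => ?_) (by positivity)
  by_cases c1 : rowH p (fun v => N v + (u : ℤ)) lev K t ω ≤ K * Real.log 2 - D'
  · have c2 : rowH p (fun v => N v + (u : ℤ)) lev K t ω ≤ K * Real.log 2 - D := by linarith
    rw [if_pos c1, if_pos c2]
  · rw [if_neg c1]
    split_ifs <;> norm_num

theorem cond_congr {p : Ω → ℝ} (hp : ∀ ω, 0 ≤ p ω) {Y : Ω → S} {Y' : Ω → T} {y : S} {y' : T}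
    (h : ∀ v, 0 < p v → (Y v = y ↔ Y' v = y')) :
    Pool.Agent.H49.Ent.cond p Y y = Pool.Agent.H49.Ent.cond p Y' y' := by
  classical
  have e1 : law p Y y = law p Y' y' := by
    unfold law
    refine Finset.sum_congr rfl fun v _ => ?_
    rcases (hp v).eq_or_lt with h0 | h0
    · rw [← h0]
      simp
    · by_cases c : Y v = y
      · rw [if_pos c, if_pos ((h v h0).1 c)]
      · rw [if_neg c, if_neg (fun c' => c ((h v h0).2 c'))]
  funext v
  unfold Pool.Agent.H49.Ent.cond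
  rw [e1]
  rcases (hp v).eq_or_lt with h0 | h0
  · rw [← h0]
    simp
  · by_cases c : Y v = y
    · rw [if_pos c, if_pos ((h v h0).1 c)]
    · rw [if_neg c, if_neg (fun c' => c ((h v h0).2 c'))]

end

end Pool.OC.RS

namespace Pool.OC

open Finset Real
open Pool.Agent.H49.Ent Pool.Agent.H32.Dense Pool.STK Pool.KAF Pool.KAL Pool.KX Pool.OC.RS

theorem row_thm : RowSumStmt := by
  classical
  intro k k1 c₀ ε D hε hε1 hD Kc
  obtain ⟨K, hK, hras⟩ := ras_r k (k1 + 1) c₀ (ε / 2) (by positivity) (by linarith) Kc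
  refine ⟨K, fun Fc => ?_⟩
  obtain ⟨δ₁, r₀, hδ₁, hras⟩ := hras Fc
  have hK0 : 0 < K := by omega
  have hK0' : (0 : ℝ) < K := by exact_mod_cast hK0
  set a₁ := ε / 4 with ha₁
  have ha₁0 : 0 < a₁ := by positivity
  refine ⟨min δ₁ (ε / 4 * a₁ / K), r₀, lt_min hδ₁ (by positivity), ?_⟩
  intro X a b hab Ω χ χ₀ ν γ O θ _ p N₁ N₂ t x x0 V Z G o F mu A hp htx hx0 hN hZx hZV hG hV hAmu hoF hFc
    hoG hGo hcell hiV hi1 hi2 hi3
  have hp0 := hp.nonneg
  -- a point of the space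
  obtain ⟨ω₀, hω₀⟩ : ∃ ω₀, 0 < p ω₀ := by
    by_contra hcon
    push Not at hcon
    have h1 : ∑ ω, p ω = 0 := Finset.sum_eq_zero fun ω _ => le_antisymm (hcon ω) (hp0 ω)
    rw [hp.sum_one] at h1
    exact one_ne_zero h1
  -- the cells, indexed by the rows
  set Γ : ℕ → Ω → (ℤ × γ) ⊕ ν := fun r ω =>
    if ω ∈ A then Sum.inl (mu ω, G ((r : ℤ) - mu ω) ω) else Sum.inr (V ω) with hΓdef
  set o' : ℕ → Ω → O := fun r ω => if ω ∈ A then o ((r : ℤ) - mu ω) ω else o 0 ω₀ with ho'def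
  have hΓA : ∀ r ω, ω ∈ A → Γ r ω = Sum.inl (mu ω, G ((r : ℤ) - mu ω) ω) := fun r ω h => by
    simp only [hΓdef, if_pos h]
  have hΓA' : ∀ r ω, ω ∉ A → Γ r ω = Sum.inr (V ω) := fun r ω h => by
    simp only [hΓdef, if_neg h]
  have hoA : ∀ r ω, ω ∈ A → o' r ω = o ((r : ℤ) - mu ω) ω := fun r ω h => by
    simp only [ho'def, if_pos h]
  have hoA' : ∀ r ω, ω ∉ A → o' r ω = o 0 ω₀ := fun r ω h => by
    simp only [ho'def, if_neg h]
  -- equality of cells
  have hcases : ∀ r ω ω', Γ r ω = Γ r ω' → (ω ∈ A ∧ ω' ∈ A ∧ mu ω = mu ω' ∧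
      G ((r : ℤ) - mu ω) ω = G ((r : ℤ) - mu ω) ω') ∨ (ω ∉ A ∧ ω' ∉ A ∧ V ω = V ω') := by
    intro r ω ω' h
    by_cases c1 : ω ∈ A
    · by_cases c2 : ω' ∈ A
      · rw [hΓA r ω c1, hΓA r ω' c2, Sum.inl.injEq, Prod.mk.injEq] at h
        refine Or.inl ⟨c1, c2, h.1, ?_⟩
        have h2 := h.2
        rw [← h.1] at h2
        exact h2
      · rw [hΓA r ω c1, hΓA' r ω' c2] at h
        exact absurd h (by simp)
    · by_cases c2 : ω' ∈ A
      · rw [hΓA' r ω c1, hΓA r ω' c2] at h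
        exact absurd h (by simp)
      · rw [hΓA' r ω c1, hΓA' r ω' c2, Sum.inr.injEq] at h
        exact Or.inr ⟨c1, c2, h⟩
  have hVG : ∀ s, Det p (fun ω => (V ω, x ω)) (G s) := fun s ω ω' h1 h2 h =>
    hV s ω ω' h1 h2 (Prod.ext (Prod.ext_iff.mp h).1 (hx0 ω ω' h1 h2 (Prod.ext_iff.mp h).2))
  -- the hypotheses of the sum over the rows
  have q1 : ∀ r, Det p (fun ω => (Γ (r + 1) ω, x ω)) (Γ r) := by
    intro r ω ω' h1 h2 h
    have hx : x ω = x ω' := (Prod.ext_iff.mp h).2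
    rcases hcases (r + 1) ω ω' (Prod.ext_iff.mp h).1 with ⟨c1, c2, c3, c4⟩ | ⟨c1, c2, c3⟩
    · rw [hΓA r ω c1, hΓA r ω' c2, ← c3]
      have e1 : ((r + 1 : ℕ) : ℤ) - mu ω = ((r : ℤ) - mu ω) + 1 := by
        push_cast
        ring
      rw [e1] at c4
      have h3 := hG ((r : ℤ) - mu ω) ω ω' h1 h2 (Prod.ext c4 (hx0 ω ω' h1 h2 hx))
      rw [h3]
    · rw [hΓA' r ω c1, hΓA' r ω' c2, c3]
  have q2 : ∀ r, Det p (fun ω => (V ω, x ω)) (Γ r) := by
    intro r ω ω' h1 h2 h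
    have hx : x ω = x ω' := (Prod.ext_iff.mp h).2
    have hv : V ω = V ω' := (Prod.ext_iff.mp h).1
    have h3 := hAmu 0 ω ω' h1 h2 (Prod.ext (hVG 0 ω ω' h1 h2 h) hx)
    have hmu : mu ω = mu ω' := (Prod.ext_iff.mp h3).1
    have hA : (ω ∈ A) = (ω' ∈ A) := (Prod.ext_iff.mp h3).2
    by_cases c1 : ω ∈ A
    · have c2 : ω' ∈ A := hA ▸ c1
      rw [hΓA r ω c1, hΓA r ω' c2, ← hmu, hVG ((r : ℤ) - mu ω) ω ω' h1 h2 h]
    · have c2 : ω' ∉ A := fun c => c1 (hA ▸ c)
      rw [hΓA' r ω c1, hΓA' r ω' c2, hv]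
  have q3 : ∀ r ω, o' r ω ∈ F := by
    intro r ω
    by_cases c1 : ω ∈ A
    · rw [hoA r ω c1]
      exact hoF _ _
    · rw [hoA' r ω c1]
      exact hoF _ _
  have q4 : ∀ r, Det p (fun ω => (Γ (r + K) ω, x ω)) (o' r) := by
    intro r ω ω' h1 h2 h
    have hx : x ω = x ω' := (Prod.ext_iff.mp h).2
    rcases hcases (r + K) ω ω' (Prod.ext_iff.mp h).1 with ⟨c1, c2, c3, c4⟩ | ⟨c1, c2, c3⟩
    · rw [hoA r ω c1, hoA r ω' c2, ← c3]
      have e1 : ((r + K : ℕ) : ℤ) - mu ω = ((r : ℤ) - mu ω) + K := by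
        push_cast
        ring
      rw [e1] at c4
      exact hoG ((r : ℤ) - mu ω) ω ω' h1 h2 (Prod.ext c4 (hx0 ω ω' h1 h2 hx))
    · rw [hoA' r ω c1, hoA' r ω' c2]
  have zp : ∀ (n : ℕ) (s : ℤ) (ω : Ω), s + mu ω = n →
      (2 : ℝ) ^ ((k : ℤ) - (s + mu ω)) = 2 ^ k / 2 ^ n := by
    intro n s ω h
    rw [h, zpow_sub₀ (by norm_num), zpow_natCast, zpow_natCast]
  have q5 : ∀ r ω ω', 0 < p ω → 0 < p ω' → Γ r ω = Γ r ω' → x ω = x ω' →
      |Z ω ω - Z ω' ω'| ≤ 2 ^ k / 2 ^ r := by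
    intro r ω ω' h1 h2 h hx
    rw [← hZx ω ω' ω' h1 h2 h2 hx]
    rcases hcases r ω ω' h with ⟨c1, c2, c3, c4⟩ | ⟨c1, c2, c3⟩
    · have h3 := hcell ((r : ℤ) - mu ω) ω ω' h1 h2 c1 (by
        rw [sub_add_cancel]
        positivity) c4 (hx0 ω ω' h1 h2 hx)
      rw [zp r ((r : ℤ) - mu ω) ω (by ring)] at h3
      exact h3
    · rw [hZV ω ω ω' h1 h1 h2 c3, sub_self, abs_zero]
      positivity
  have q6 : ∀ r ω ω', 0 < p ω → 0 < p ω' → Γ r ω = Γ r ω' → x ω = x ω' → o' r ω = o' r ω' →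
      |Z ω ω - Z ω' ω'| ≤ 2 ^ k / 2 ^ (r + K) := by
    intro r ω ω' h1 h2 h hx ho
    rw [← hZx ω ω' ω' h1 h2 h2 hx]
    rcases hcases r ω ω' h with ⟨c1, c2, c3, c4⟩ | ⟨c1, c2, c3⟩
    · rw [hoA r ω c1, hoA r ω' c2, ← c3] at ho
      have h4 := hGo ((r : ℤ) - mu ω) ω ω' h1 h2 (Prod.ext ho (Prod.ext c4 (hx0 ω ω' h1 h2 hx)))
      have h3 := hcell ((r : ℤ) - mu ω + K) ω ω' h1 h2 c1 (by
        have : (r : ℤ) - mu ω + K + mu ω = ((r + K : ℕ) : ℤ) := by
          push_cast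
          ring
        rw [this]
        positivity) h4 (hx0 ω ω' h1 h2 hx)
      rw [zp (r + K) ((r : ℤ) - mu ω + K) ω (by push_cast; ring)] at h3
      exact h3
    · rw [hZV ω ω ω' h1 h1 h2 c3, sub_self, abs_zero]
      positivity
  have hX0 : (0 : ℝ) ≤ X := Nat.cast_nonneg _
  have hδle : min δ₁ (ε / 4 * a₁ / K) * X ≤ δ₁ * X :=
    mul_le_mul_of_nonneg_right (min_le_left _ _) hX0
  have main := hras X Ω χ ν _ O θ p N₁ N₂ t x V (fun ω => Z ω ω) Γ o' F hp htx hN q1 q2 q3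
    hFc q4 q5 q6 (hi1.trans hδle) (hi2.trans hδle) (hi3.trans hδle)
  have eD : 64 / (ε / 2) + 12 = 128 / ε + 12 := by
    field_simp
    norm_num
  rw [eD] at main
  set I := Finset.Ico r₀ (X + 1 - r₀) with hI
  set Y : ℕ → Ω → ℝ := fun r ω => ∑ v, Pool.Agent.H49.Ent.cond p (fun v => (Γ r v, x v))
    (Γ r ω, x ω) v * (if 1 / 2 ^ (r + (k1 + 1)) ≤ |Z ω ω - Z v v| then 1 else 0)
    with hY
  have hY0 : ∀ r ω, 0 ≤ Y r ω := fun r ω => Finset.sum_nonneg fun v _ => by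
    refine mul_nonneg (cond_nonneg hp0 _ _ _) ?_
    split_ifs <;> norm_num
  set P : ℤ → Ω → Prop := fun s ω => ω ∈ A ∧ (r₀ : ℤ) ≤ s + mu ω ∧ s + mu ω + r₀ ≤ X with hP
  set w : ℤ → Ω → ℝ := fun s ω => if P s ω then
    wrow p N₂ t X (X + k + 1 - (s + mu ω).toNat) Kc D ω else 0 with hw
  have hw0 : ∀ s ω, 0 ≤ w s ω := fun s ω => by
    simp only [hw]
    split_ifs
    · exact wrow_nonneg _ _ _ _ _ _ _ _
    · exact le_rfl
  have hw1 : ∀ s ω, w s ω ≤ 1 := fun s ω => by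
    simp only [hw]
    split_ifs
    · exact wrow_le_one _ _ _ _ _ _ _ _
    · exact zero_le_one
  -- the displacement of a block
  set φ : ℤ → Ω → O → ℝ := fun s ω σ => if ∃ v, 0 < p v ∧ G s v = G s ω ∧ x0 v = x0 ω ∧ o s v = σ ∧
    (2 : ℝ) ^ (-(s + mu ω + k1)) ≤ |Z ω ω - Z ω v| then 1 else 0 with hφ
  have hφ0 : ∀ s ω σ, 0 ≤ φ s ω σ := fun s ω σ => by
    simp only [hφ]
    split_ifs <;> norm_num
  have hφ1 : ∀ s ω σ, φ s ω σ ≤ 1 := fun s ω σ => by
    simp only [hφ]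
    split_ifs <;> norm_num
  -- one cell
  have hone : ∀ s, ∑ ω, p ω * (w s ω * Pr (Pool.Agent.H49.Ent.cond p (fun v => (G s v, x0 v))
      (G s ω, x0 ω)) {v | (2 : ℝ) ^ (-(s + mu ω + k1)) ≤ |Z ω ω - Z ω v|}) ≤
      ∑ ω, p ω * (w s ω * Y (s + mu ω).toNat ω) + (a₁ + mi p (o s) x (fun ω => (G s ω, x0 ω)) / a₁) := by
    intro s
    have h1 := switch hp (o s) x (fun ω => (G s ω, x0 ω)) F (fun ω _ => hoF s ω) ha₁0 (w s) (φ s)
      (hw0 s) (hw1 s) (hφ0 s) (hφ1 s)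
    refine le_trans ?_ (h1.trans (add_le_add_left ?_ _))
    · -- the event is an event of the block
      refine Finset.sum_le_sum fun ω _ => mul_le_mul_of_nonneg_left
        (mul_le_mul_of_nonneg_left ?_ (hw0 s ω)) (hp0 ω)
      rw [Pool.KAF.Pr_eq]
      refine Finset.sum_le_sum fun v _ => ?_
      rcases (cond_nonneg hp0 (fun v => (G s v, x0 v)) (G s ω, x0 ω) v).eq_or_lt with hv | hv
      · rw [← hv, zero_mul]
        split_ifs <;> exact le_rfl
      obtain ⟨g1, g2⟩ := (cond_pos_iff hp0 (fun v => (G s v, x0 v)) (G s ω, x0 ω) v).1 hv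
      split_ifs with hmem
      · have h2 : φ s ω (o s v) = 1 := by
          simp only [hφ]
          rw [if_pos ⟨v, g1, (Prod.ext_iff.mp g2).1, (Prod.ext_iff.mp g2).2, rfl, hmem⟩]
        rw [h2, mul_one]
      · exact mul_nonneg hv.le (hφ0 _ _ _)
    · -- the same cell, with all the times
      refine Finset.sum_le_sum fun ω _ => ?_
      rcases (hp0 ω).eq_or_lt with hω | hω
      · rw [← hω, zero_mul, zero_mul]
      refine mul_le_mul_of_nonneg_left ?_ hω.le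
      by_cases hPω : P s ω
      swap
      · have h2 : w s ω = 0 := by
          simp only [hw]
          rw [if_neg hPω]
        rw [h2, zero_mul, zero_mul]
      refine mul_le_mul_of_nonneg_left ?_ (hw0 s ω)
      obtain ⟨hωA, hr1, hr2⟩ := hPω
      set r := (s + mu ω).toNat with hr
      have hrz : (r : ℤ) = s + mu ω := Int.toNat_of_nonneg (by
        have : (0 : ℤ) ≤ r₀ := by positivity
        omega)
      have hs : (r : ℤ) - mu ω = s := by omega
      have hcg : Pool.Agent.H49.Ent.cond p (fun v => (x v, (G s v, x0 v))) (x ω, (G s ω, x0 ω)) =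
          Pool.Agent.H49.Ent.cond p (fun v => (Γ r v, x v)) (Γ r ω, x ω) := by
        refine cond_congr hp0 fun v hv => ?_
        constructor
        · intro h
          simp only [Prod.mk.injEq] at h
          have h3 := hAmu s v ω hv hω (Prod.ext h.2.1 h.1)
          have hmu : mu v = mu ω := (Prod.ext_iff.mp h3).1
          have hA : (v ∈ A) = (ω ∈ A) := (Prod.ext_iff.mp h3).2
          have hvA : v ∈ A := hA ▸ hωA
          rw [hΓA r v hvA, hΓA r ω hωA, hmu, hs, h.2.1, h.1]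
        · intro h
          simp only [Prod.mk.injEq] at h
          rcases hcases r v ω h.1 with ⟨c1, c2, c3, c4⟩ | ⟨c1, c2, c3⟩
          · rw [c3, hs] at c4
            exact Prod.ext h.2 (Prod.ext c4 (hx0 v ω hv hω h.2))
          · exact absurd hωA c2
      rw [hcg]
      refine Finset.sum_le_sum fun v _ => ?_
      rcases (cond_nonneg hp0 (fun v => (Γ r v, x v)) (Γ r ω, x ω) v).eq_or_lt with hv | hv
      · rw [← hv, zero_mul, zero_mul]
      refine mul_le_mul_of_nonneg_left ?_ hv.le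
      obtain ⟨g1, g2⟩ := (cond_pos_iff hp0 (fun v => (Γ r v, x v)) (Γ r ω, x ω) v).1 hv
      have gx : x v = x ω := (Prod.ext_iff.mp g2).2
      rcases hcases r v ω (Prod.ext_iff.mp g2).1 with ⟨c1, c2, c3, c4⟩ | ⟨c1, c2, c3⟩
      swap
      · exact absurd hωA c2
      rw [c3, hs] at c4
      by_cases hex : ∃ v', 0 < p v' ∧ G s v' = G s ω ∧ x0 v' = x0 ω ∧ o s v' = o s v ∧
        (2 : ℝ) ^ (-(s + mu ω + k1)) ≤ |Z ω ω - Z ω v'|
      swap
      · have h2 : φ s ω (o s v) = 0 := by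
          simp only [hφ]
          rw [if_neg hex]
        rw [h2]
        split_ifs <;> norm_num
      have h2 : φ s ω (o s v) = 1 := by
        simp only [hφ]
        rw [if_pos hex]
      rw [h2]
      obtain ⟨v', g3, g4, g5, g6, g7⟩ := hex
      have gx0 : x0 v = x0 ω := hx0 v ω g1 hω gx
      have h3 := hGo s v' v g3 g1 (Prod.ext g6 (Prod.ext (g4.trans c4.symm) (g5.trans gx0.symm)))
      have h4 := hcell (s + K) v v' g1 g3 c1 (by omega) h3.symm (gx0.trans g5.symm)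
      have h5 : (2 : ℝ) ^ ((k : ℤ) - (s + K + mu v)) ≤ 1 / 2 ^ (r + (k1 + 1)) := by
        rw [zp (r + K) (s + K) v (by push_cast; omega), div_le_div_iff₀ (by positivity)
          (by positivity), one_mul, ← pow_add]
        exact pow_le_pow_right₀ (by norm_num) (by omega)
      have h6 : (2 : ℝ) ^ (-(s + mu ω + k1)) = 1 / 2 ^ (r + k1) := by
        rw [zpow_neg, one_div]
        congr 1
        rw [← hrz]
        exact_mod_cast zpow_natCast (2 : ℝ) (r + k1)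
      have h7 : (1 : ℝ) / 2 ^ (r + k1) = 2 * (1 / 2 ^ (r + (k1 + 1))) := by
        rw [show r + (k1 + 1) = (r + k1) + 1 by ring, pow_succ]
        field_simp
      rw [if_pos]
      rw [h6, h7] at g7
      rw [← hZx ω v v hω g1 g1 gx.symm, ← hZx ω v v' hω g1 g3 gx.symm] at h4
      rw [← hZx ω v v hω g1 g1 gx.symm]
      have h8 := abs_sub_le (Z ω ω) (Z ω v) (Z ω v')
      linarith
  -- from the cells to the rows
  have hre : ∀ ω, ∑ s ∈ Finset.Ico a b, w s ω * Y (s + mu ω).toNat ω ≤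
      ∑ r ∈ I, wrow p N₂ t X (X - r + (k + 1)) Kc (128 / ε + 12) ω * Y r ω := by
    intro ω
    set h : ℕ → ℝ := fun r => wrow p N₂ t X (X - r + (k + 1)) Kc (128 / ε + 12) ω * Y r ω with hh
    have hh0 : ∀ r, 0 ≤ h r := fun r => mul_nonneg (wrow_nonneg _ _ _ _ _ _ _ _) (hY0 r ω)
    have e1 : ∀ s ∈ Finset.Ico a b, w s ω * Y (s + mu ω).toNat ω ≤
        if (r₀ : ℤ) ≤ s + mu ω ∧ s + mu ω + r₀ ≤ X then h (s + mu ω).toNat else 0 := by
      intro s _
      by_cases c1 : P s ω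
      · have c2 : (r₀ : ℤ) ≤ s + mu ω ∧ s + mu ω + r₀ ≤ X := c1.2
        simp only [hw]
        rw [if_pos c1, if_pos c2]
        refine mul_le_mul_of_nonneg_right ?_ (hY0 _ _)
        have e2 : X + k + 1 - (s + mu ω).toNat = X - (s + mu ω).toNat + (k + 1) := by omega
        rw [e2]
        exact wrow_anti _ _ _ _ _ _ hD _
      · simp only [hw]
        rw [if_neg c1, zero_mul]
        split_ifs
        · exact hh0 _
        · exact le_rfl
    refine (Finset.sum_le_sum e1).trans ?_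
    rw [← Finset.sum_filter]
    set S := (Finset.Ico a b).filter (fun s => (r₀ : ℤ) ≤ s + mu ω ∧ s + mu ω + r₀ ≤ X) with hS
    have hmem : ∀ s ∈ S, (r₀ : ℤ) ≤ s + mu ω ∧ s + mu ω + r₀ ≤ X := fun s hs =>
      (Finset.mem_filter.mp hs).2
    have e3 : ∑ s ∈ S, h (s + mu ω).toNat = ∑ r ∈ S.image (fun s => (s + mu ω).toNat), h r := by
      rw [Finset.sum_image]
      intro s hs s' hs' hss
      have h1 := hmem s hs
      have h2 := hmem s' hs'
      have h3 : (s + mu ω).toNat = (s' + mu ω).toNat := hss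
      have : (0 : ℤ) ≤ r₀ := by positivity
      omega
    rw [e3]
    refine Finset.sum_le_sum_of_subset_of_nonneg ?_ fun r _ _ => hh0 r
    intro r hr
    obtain ⟨s, hs, rfl⟩ := Finset.mem_image.mp hr
    have h1 := hmem s hs
    rw [hI, Finset.mem_Ico]
    omega
  -- the switch of the context
  have hsw : ∑ s ∈ Finset.Ico a b, (a₁ + mi p (o s) x (fun ω => (G s ω, x0 ω)) / a₁) ≤
      ε / 2 * X := by
    rcases le_or_gt b a with hba | hba
    · rw [Finset.Ico_eq_empty (not_lt.mpr hba), Finset.sum_empty]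
      positivity
    obtain ⟨n, hn⟩ := Int.eq_ofNat_of_zero_le (sub_nonneg.mpr hba.le)
    have e1 : ∑ s ∈ Finset.Ico a b, (a₁ + mi p (o s) x (fun ω => (G s ω, x0 ω)) / a₁) =
        ∑ i ∈ range n, (a₁ + mi p (o (a + i)) x (fun ω => (G (a + i) ω, x0 ω)) / a₁) := by
      have e2 : Finset.Ico a b = (range n).image (fun i : ℕ => a + (i : ℤ)) := by
        ext s
        rw [Finset.mem_Ico, Finset.mem_image]
        constructor
        · intro hs
          exact ⟨(s - a).toNat, Finset.mem_range.mpr (by omega), by omega⟩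
        · rintro ⟨i, hi, rfl⟩
          have := Finset.mem_range.mp hi
          omega
      rw [e2, Finset.sum_image]
      intro i _ j _ hij
      have : a + (i : ℤ) = a + j := hij
      omega
    rw [e1, Finset.sum_add_distrib, Finset.sum_const, Finset.card_range, nsmul_eq_mul,
      ← Finset.sum_div]
    have e3 : ∑ i ∈ range n, mi p (o (a + i)) x (fun ω => (G (a + i) ω, x0 ω)) ≤
        ∑ i ∈ range n, mi p ((fun (j : ℕ) => G (a + j)) (i + K)) x
          (fun ω => (G (a + i) ω, x0 ω)) := by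
      refine Finset.sum_le_sum fun i _ => ?_
      refine mi_mono_left hp0 _ _ _ _ fun ω ω' h1 h2 h => ?_
      simp only [Prod.mk.injEq] at h
      have e4 : a + ((i + K : ℕ) : ℤ) = a + i + K := by
        push_cast
        ring
      rw [e4] at h
      exact hoG (a + i) ω ω' h1 h2 (Prod.ext h.1 h.2.2)
    have e5 := sum_s5 hp0 x V x0 (fun (j : ℕ) => G (a + j)) (fun r => by
      have e6 : a + ((r + 1 : ℕ) : ℤ) = a + r + 1 := by
        push_cast
        ring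
      simp only [e6]
      exact hG (a + r)) (fun r => hV _) hK0 n
    rw [mi_comm hp0 x V] at e5
    have e7 : mi p V x x0 ≤ ε / 4 * a₁ / K * X :=
      hiV.trans (mul_le_mul_of_nonneg_right (min_le_right _ _) hX0)
    have e8 : (K : ℝ) * mi p V x x0 ≤ ε / 4 * a₁ * X := by
      have := mul_le_mul_of_nonneg_left e7 hK0'.le
      have e9 : (K : ℝ) * (ε / 4 * a₁ / K * X) = ε / 4 * a₁ * X := by
        field_simp
      linarith
    have e10 : (∑ i ∈ range n, mi p (o (a + i)) x (fun ω => (G (a + i) ω, x0 ω))) / a₁ ≤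
        ε / 4 * X := by
      rw [div_le_iff₀ ha₁0]
      have := e3.trans (e5.trans e8)
      linarith
    have hnX : (n : ℝ) ≤ X := by
      have : (n : ℤ) ≤ X := by omega
      exact_mod_cast this
    have e11 : (n : ℝ) * a₁ ≤ X * (ε / 4) := mul_le_mul hnX le_rfl ha₁0.le hX0
    linarith
  -- conclusion
  have hlhs : ∀ ω, p ω * ∑ s ∈ Finset.Ico a b,
        (if ω ∈ A ∧ (r₀ : ℤ) ≤ s + mu ω ∧ s + mu ω + r₀ ≤ X then
          wrow p N₂ t X (X + k + 1 - (s + mu ω).toNat) Kc D ω *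
            Pr (Pool.Agent.H49.Ent.cond p (fun v => (G s v, x0 v)) (G s ω, x0 ω))
              {v | (2 : ℝ) ^ (-(s + mu ω + k1)) ≤ |Z ω ω - Z ω v|}
        else 0) = ∑ s ∈ Finset.Ico a b, p ω * (w s ω *
            Pr (Pool.Agent.H49.Ent.cond p (fun v => (G s v, x0 v)) (G s ω, x0 ω))
              {v | (2 : ℝ) ^ (-(s + mu ω + k1)) ≤ |Z ω ω - Z ω v|}) := by
    intro ω
    rw [Finset.mul_sum]
    refine Finset.sum_congr rfl fun s _ => ?_
    congr 1
    simp only [hw, hP]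
    split_ifs
    · rfl
    · rw [zero_mul]
  rw [Finset.sum_congr rfl fun ω _ => hlhs ω, Finset.sum_comm]
  refine (Finset.sum_le_sum fun s _ => hone s).trans ?_
  rw [Finset.sum_add_distrib, Finset.sum_comm]
  have hfin : ∑ ω, ∑ s ∈ Finset.Ico a b, p ω * (w s ω * Y (s + mu ω).toNat ω) ≤ ε / 2 * X := by
    have e1 : ∀ ω, ∑ s ∈ Finset.Ico a b, p ω * (w s ω * Y (s + mu ω).toNat ω) ≤
        ∑ r ∈ I, p ω * (wrow p N₂ t X (X - r + (k + 1)) Kc (128 / ε + 12) ω * Y r ω) := by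
      intro ω
      rw [← Finset.mul_sum, ← Finset.mul_sum]
      exact mul_le_mul_of_nonneg_left (hre ω) (hp0 ω)
    refine (Finset.sum_le_sum fun ω _ => e1 ω).trans ?_
    rw [Finset.sum_comm]
    exact main
  linarith

end Pool.OC
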