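import Pool.Agent.H86.OC.RASa

/-!
# Rows which are not full are not hit: one scale and one shift
-/

set_option autoImplicit false

namespace Pool.OC.RS

open Finset Real
open Pool.Agent.H49.Ent Pool.Agent.H32.Dense Pool.STK Pool.KAF Pool.KAL Pool.KX

/-- The conclusion of `ra_unif`. -/
def RAat (kb kd Kc Fc : ℕ) (ε e : ℝ) : Prop :=
  ∀ (Ω O β θ : Type) [Fintype Ω] (p : Ω → ℝ)
      (X₁ X₂ : Ω → ℤ) (b : Ω → β) (o : Ω → O) (τ : Ω → θ) (z : β → O → ℤ) (F : Finset O)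
      (B : Set Ω), IsLaw p → (∀ ω, o ω ∈ F) → F.card ≤ Fc →
      (∀ ω, ω ∉ B → |X₂ ω - X₁ ω - z (b ω) (o ω)| ≤ 8) → Pr p B ≤ e → Det p b τ →
      (∀ ω ω', 0 < p ω → 0 < p ω' → b ω = b ω' →
        |z (b ω) (o ω) - z (b ω) (o ω')| ≤ 2 ^ (kb + kd)) →
      Pool.KVA.MI p X₁ o b ≤ e → Pool.KVA.MI p X₂ o b ≤ e →
      Pool.KVA.MI p (fun ω => X₂ ω / ((2 ^ (kb + kd) : ℕ) : ℤ)) b
        (fun ω => (X₂ ω / ((2 ^ (kb + kd + Kc) : ℕ) : ℤ), τ ω)) ≤ e →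
      Pr (dbl p b) {w | rowH p X₂ (kb + kd) Kc τ w.1 ≤ Kc * Real.log 2 - 32 / ε - 12 ∧
        (2 : ℤ) ^ kb ≤ |z (b w.1) (o w.1) - z (b w.1) (o w.2)|} ≤ ε

section

variable {Ω S T U O β θ χ γ : Type} [Fintype Ω]

theorem Pr_nonneg' {p : Ω → ℝ} (hp : ∀ ω, 0 ≤ p ω) (E : Set Ω) : 0 ≤ Pr p E := by
  classical
  rw [Pool.KAF.Pr_eq]
  exact Finset.sum_nonneg fun ω _ => by
    split_ifs
    · exact hp ω
    · exact le_rfl

theorem div_div_two (n : ℤ) (a b : ℕ) :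
    n / ((2 ^ a : ℕ) : ℤ) / ((2 ^ b : ℕ) : ℤ) = n / ((2 ^ (a + b) : ℕ) : ℤ) := by
  rw [Int.ediv_ediv_of_nonneg (by positivity)]
  congr 1
  push_cast
  rw [pow_add]

theorem rowH_div (p : Ω → ℝ) (N : Ω → ℤ) (φ κ K : ℕ) (τ : Ω → θ) (ω : Ω) :
    rowH p (fun v => N v / ((2 ^ φ : ℕ) : ℤ)) κ K τ ω = rowH p N (φ + κ) K τ ω := by
  unfold rowH
  simp only [div_div_two, ← add_assoc]

theorem floor_err (n : ℤ) (φ : ℕ) :
    (n : ℝ) / 2 ^ φ - 1 < ((n / ((2 ^ φ : ℕ) : ℤ) : ℤ) : ℝ) ∧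
      ((n / ((2 ^ φ : ℕ) : ℤ) : ℤ) : ℝ) ≤ (n : ℝ) / 2 ^ φ := by
  have hM : (0 : ℤ) < ((2 ^ φ : ℕ) : ℤ) := by positivity
  have e0 := Int.emod_add_mul_ediv n ((2 ^ φ : ℕ) : ℤ)
  have e1 := Int.emod_nonneg n hM.ne'
  have e2 := Int.emod_lt_of_pos n hM
  have f0 : ((n % ((2 ^ φ : ℕ) : ℤ) : ℤ) : ℝ) + 2 ^ φ * ((n / ((2 ^ φ : ℕ) : ℤ) : ℤ) : ℝ) = n := by
    exact_mod_cast e0
  have f1 : (0 : ℝ) ≤ ((n % ((2 ^ φ : ℕ) : ℤ) : ℤ) : ℝ) := by exact_mod_cast e1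
  have f2 : ((n % ((2 ^ φ : ℕ) : ℤ) : ℤ) : ℝ) < 2 ^ φ := by exact_mod_cast e2
  have hP : (0 : ℝ) < 2 ^ φ := by positivity
  constructor
  · rw [sub_lt_iff_lt_add, div_lt_iff₀ hP]
    linarith only [f0, f2]
  · rw [le_div_iff₀ hP]
    linarith only [f0, f1]

open Classical in
/-- One scale `r` and one shift `u`. -/
theorem step {p : Ω → ℝ} (hp : IsLaw p) {N₁ N₂ : Ω → ℤ} {Z : Ω → ℝ} {t : Ω → θ} {x : Ω → χ}
    {Γ : Ω → γ} {o : Ω → O} {F : Finset O} {B : Set Ω} {X r k k1 kb Kc Ξ c₀ K Fc : ℕ} {ε₀ e : ℝ}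
    (hRA : RAat kb (k + k1 + 2) Kc Fc ε₀ e) (he : 0 < e) (hε₀ : 0 ≤ ε₀) (htx : Det p x t)
    (hoF : ∀ ω, o ω ∈ F) (hFc : F.card ≤ Fc)
    (hN : ∀ ω, ω ∉ B → |(N₂ ω : ℝ) - N₁ ω - 2 ^ X * Z ω| ≤ 2 ^ c₀)
    (hX : r + k1 + kb + 1 + c₀ ≤ X) (hK : k + k1 + kb + 1 ≤ K) (hkb : 2 ≤ kb)
    (hcell : ∀ ω ω', 0 < p ω → 0 < p ω' → Γ ω = Γ ω' → x ω = x ω' → |Z ω - Z ω'| ≤ 2 ^ k / 2 ^ r)
    (hfine : ∀ ω ω', 0 < p ω → 0 < p ω' → Γ ω = Γ ω' → x ω = x ω' → o ω = o ω' →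
      |Z ω - Z ω'| ≤ 2 ^ k / 2 ^ (r + K)) (u : ℕ) {a : ℝ} (ha : 0 < a) :
    ∑ ω, p ω * ((if rowH p (fun v => N₂ v + (u : ℤ)) (X - r + (k + 1)) Kc t ω ≤
        Kc * Real.log 2 - 32 / ε₀ - 12 then 1 else 0) *
      ∑ v, Pool.Agent.H49.Ent.cond p (fun v => (Γ v, x v)) (Γ ω, x ω) v *
        (if 1 / 2 ^ (r + k1) ≤ |Z ω - Z v| then 1 else 0)) ≤
      (ε₀ + (mi p (fun ω => (N₁ ω + (u : ℤ)) / ((2 ^ (X - (r + k1 + kb + 1)) : ℕ) : ℤ)) o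
          (fun ω => (((N₁ ω + (u : ℤ)) / ((2 ^ Ξ : ℕ) : ℤ), (N₂ ω + (u : ℤ)) / ((2 ^ Ξ : ℕ) : ℤ)),
            (Γ ω, x ω))) +
        mi p (fun ω => (N₂ ω + (u : ℤ)) / ((2 ^ (X - (r + k1 + kb + 1)) : ℕ) : ℤ)) o
          (fun ω => (((N₁ ω + (u : ℤ)) / ((2 ^ Ξ : ℕ) : ℤ), (N₂ ω + (u : ℤ)) / ((2 ^ Ξ : ℕ) : ℤ)),
            (Γ ω, x ω))) +
        mi p (fun ω => (N₂ ω + (u : ℤ)) / ((2 ^ (X - r + (k + 1)) : ℕ) : ℤ))
          (fun ω => (((N₁ ω + (u : ℤ)) / ((2 ^ Ξ : ℕ) : ℤ), (N₂ ω + (u : ℤ)) / ((2 ^ Ξ : ℕ) : ℤ)),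
            (Γ ω, x ω)))
          (fun ω => ((N₂ ω + (u : ℤ)) / ((2 ^ (X - r + (k + 1) + Kc) : ℕ) : ℤ), t ω)) +
        Pr p B) / e) +
      (a + mi p o (fun ω => ((N₁ ω + (u : ℤ)) / ((2 ^ Ξ : ℕ) : ℤ),
        (N₂ ω + (u : ℤ)) / ((2 ^ Ξ : ℕ) : ℤ))) (fun ω => (Γ ω, x ω)) / a) := by
  set n := r + k1 + kb + 1 with hn
  set φ := X - n with hφ
  have hXφ : X = φ + n := by omega
  have hlev : X - r + (k + 1) = φ + (kb + (k + k1 + 2)) := by omega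
  set C : Ω → ℤ × ℤ := fun ω => ((N₁ ω + (u : ℤ)) / ((2 ^ Ξ : ℕ) : ℤ),
    (N₂ ω + (u : ℤ)) / ((2 ^ Ξ : ℕ) : ℤ)) with hC
  set g : Ω → γ × χ := fun ω => (Γ ω, x ω) with hg
  set b : Ω → (ℤ × ℤ) × (γ × χ) := fun ω => (C ω, g ω) with hb
  set X₁ : Ω → ℤ := fun ω => (N₁ ω + (u : ℤ)) / ((2 ^ φ : ℕ) : ℤ) with hX₁
  set X₂ : Ω → ℤ := fun ω => (N₂ ω + (u : ℤ)) / ((2 ^ φ : ℕ) : ℤ) with hX₂
  -- the displacement
  set z : (ℤ × ℤ) × (γ × χ) → O → ℤ := fun b' s =>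
    if h : ∃ v, 0 < p v ∧ g v = b'.2 ∧ o v = s then round ((2 : ℝ) ^ n * Z h.choose) else 0 with hz
  have hzs : ∀ (b' : (ℤ × ℤ) × (γ × χ)) (v : Ω), 0 < p v → g v = b'.2 →
      |(2 : ℝ) ^ n * Z v - z b' (o v)| ≤ 3 / 2 := by
    intro b' v hv hgv
    have hex : ∃ v', 0 < p v' ∧ g v' = b'.2 ∧ o v' = o v := ⟨v, hv, hgv, rfl⟩
    have h1 : z b' (o v) = round ((2 : ℝ) ^ n * Z hex.choose) := by
      rw [hz]
      exact dif_pos hex
    obtain ⟨k1', k2, k3⟩ := hex.choose_spec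
    have h2 : g v = g hex.choose := hgv.trans k2.symm
    have h3 := hfine v hex.choose hv k1' (Prod.ext_iff.mp h2).1 (Prod.ext_iff.mp h2).2 k3.symm
    have h4 := abs_sub_round ((2 : ℝ) ^ n * Z hex.choose)
    rw [h1]
    have h5 : |(2 : ℝ) ^ n * Z v - 2 ^ n * Z hex.choose| ≤ 1 := by
      rw [← mul_sub, abs_mul, abs_of_pos (by positivity : (0 : ℝ) < 2 ^ n)]
      refine (mul_le_mul_of_nonneg_left h3 (by positivity)).trans ?_
      rw [mul_div_assoc', div_le_one (by positivity), ← pow_add]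
      exact pow_le_pow_right₀ (by norm_num) (by omega)
    have h6 := abs_sub_le ((2 : ℝ) ^ n * Z v) (2 ^ n * Z hex.choose)
      (round ((2 : ℝ) ^ n * Z hex.choose))
    linarith only [hex, h4, h5, h6]
  have hZpos : ∀ ω v, 0 < p ω → 0 < p v → g v = g ω → 1 / 2 ^ (r + k1) ≤ |Z ω - Z v| →
      (2 : ℤ) ^ kb ≤ |z (b ω) (o ω) - z (b ω) (o v)| := by
    intro ω v hω hv hgv hbig
    have h1 := hzs (b ω) ω hω rfl
    have h2 := hzs (b ω) v hv hgv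
    have h3 : (2 : ℝ) ^ (kb + 1) ≤ |(2 : ℝ) ^ n * Z ω - 2 ^ n * Z v| := by
      rw [← mul_sub, abs_mul, abs_of_pos (by positivity : (0 : ℝ) < 2 ^ n)]
      refine le_trans (le_of_eq ?_) (mul_le_mul_of_nonneg_left hbig (by positivity))
      rw [mul_one_div, eq_div_iff (by positivity), ← pow_add]
      congr 1
      omega
    have h4 : (4 : ℝ) ≤ 2 ^ kb := by
      calc (4 : ℝ) = 2 ^ 2 := by norm_num
        _ ≤ 2 ^ kb := pow_le_pow_right₀ (by norm_num) hkb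
    have h5 : (2 : ℝ) ^ kb ≤ |((z (b ω) (o ω) : ℤ) : ℝ) - z (b ω) (o v)| := by
      rw [pow_succ] at h3
      have e1 : (2 : ℝ) ^ n * Z ω - 2 ^ n * Z v = (2 ^ n * Z ω - z (b ω) (o ω)) +
        (((z (b ω) (o ω) : ℤ) : ℝ) - z (b ω) (o v)) - (2 ^ n * Z v - z (b ω) (o v)) := by ring
      rw [e1] at h3
      have e2 := abs_sub ((2 ^ n * Z ω - z (b ω) (o ω)) +
        (((z (b ω) (o ω) : ℤ) : ℝ) - z (b ω) (o v))) (2 ^ n * Z v - z (b ω) (o v))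
      have e3 := abs_add_le (2 ^ n * Z ω - z (b ω) (o ω))
        (((z (b ω) (o ω) : ℤ) : ℝ) - z (b ω) (o v))
      linarith only [h1, h2, h3, h4, e2, e3]
    exact_mod_cast h5
  have hZsmall : ∀ ω v, 0 < p ω → 0 < p v → b ω = b v →
      |z (b ω) (o ω) - z (b ω) (o v)| ≤ 2 ^ (kb + (k + k1 + 2)) := by
    intro ω v hω hv hbv
    have hgv : g ω = g v := (Prod.ext_iff.mp hbv).2
    have h1 := hzs (b ω) ω hω rfl
    have h2 := hzs (b ω) v hv hgv.symm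
    have h3 := hcell ω v hω hv (Prod.ext_iff.mp hgv).1 (Prod.ext_iff.mp hgv).2
    have h4 : |(2 : ℝ) ^ n * Z ω - 2 ^ n * Z v| ≤ 2 ^ (kb + k + k1 + 1) := by
      rw [← mul_sub, abs_mul, abs_of_pos (by positivity : (0 : ℝ) < 2 ^ n)]
      refine (mul_le_mul_of_nonneg_left h3 (by positivity)).trans (le_of_eq ?_)
      rw [mul_div_assoc', div_eq_iff (by positivity), ← pow_add, ← pow_add]
      congr 1
      omega
    have h5 : (4 : ℝ) ≤ 2 ^ (kb + k + k1 + 1) := by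
      calc (4 : ℝ) = 2 ^ 2 := by norm_num
        _ ≤ _ := pow_le_pow_right₀ (by norm_num) (by omega)
    have h6 : |((z (b ω) (o ω) : ℤ) : ℝ) - z (b ω) (o v)| ≤ 2 ^ (kb + (k + k1 + 2)) := by
      have e1 : ((z (b ω) (o ω) : ℤ) : ℝ) - z (b ω) (o v) =
          -(2 ^ n * Z ω - z (b ω) (o ω)) + ((2 : ℝ) ^ n * Z ω - 2 ^ n * Z v) +
            (2 ^ n * Z v - z (b ω) (o v)) := by ring
      rw [e1]
      have e2 := abs_add_le (-(2 ^ n * Z ω - z (b ω) (o ω)) + ((2 : ℝ) ^ n * Z ω - 2 ^ n * Z v))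
        (2 ^ n * Z v - z (b ω) (o v))
      have e3 := abs_add_le (-(2 ^ n * Z ω - z (b ω) (o ω))) ((2 : ℝ) ^ n * Z ω - 2 ^ n * Z v)
      rw [abs_neg] at e3
      have e4 : (2 : ℝ) ^ (kb + (k + k1 + 2)) = 2 * 2 ^ (kb + k + k1 + 1) := by
        rw [← pow_succ']
        congr 1
        omega
      linarith only [h1, h2, h4, h5, e2, e3, e4]
    exact_mod_cast h6
  have hXX : ∀ ω, ω ∉ B ∪ {ω | ¬ 0 < p ω} → |X₂ ω - X₁ ω - z (b ω) (o ω)| ≤ 8 := by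
    intro ω hω
    have hωB : ω ∉ B := fun h => hω (Or.inl h)
    have hωp : 0 < p ω := by
      by_contra h
      exact hω (Or.inr h)
    have h1 := hzs (b ω) ω hωp rfl
    have h2 := hN ω hωB
    obtain ⟨a1, a2⟩ := floor_err (N₁ ω + (u : ℤ)) φ
    obtain ⟨a3, a4⟩ := floor_err (N₂ ω + (u : ℤ)) φ
    have h3 : |((N₂ ω + (u : ℤ) : ℤ) : ℝ) / 2 ^ φ - ((N₁ ω + (u : ℤ) : ℤ) : ℝ) / 2 ^ φ -
        2 ^ n * Z ω| ≤ 1 := by
      have e1 : ((N₂ ω + (u : ℤ) : ℤ) : ℝ) / 2 ^ φ - ((N₁ ω + (u : ℤ) : ℤ) : ℝ) / 2 ^ φ -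
        2 ^ n * Z ω = ((N₂ ω : ℝ) - N₁ ω - 2 ^ X * Z ω) / 2 ^ φ := by
        rw [hXφ, pow_add]
        push_cast
        field_simp
        ring
      rw [e1, abs_div, abs_of_pos (by positivity : (0 : ℝ) < 2 ^ φ), div_le_one (by positivity)]
      exact h2.trans (pow_le_pow_right₀ (by norm_num) (by omega))
    have h4 : |((X₂ ω : ℤ) : ℝ) - X₁ ω - z (b ω) (o ω)| ≤ 8 := by
      rw [abs_le] at h1 h3 ⊢
      rw [hX₁, hX₂]
      constructor <;> linarith [h1.1, h1.2, h3.1, h3.2]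
    exact_mod_cast h4
  have hPrB : Pr p (B ∪ {ω | ¬ 0 < p ω}) ≤ Pr p B := by
    refine Pr_mono hp.nonneg fun ω hω h => ?_
    rcases h with h | h
    · exact h
    · exact absurd hω h
  -- the row
  have hrow : ∀ ω, rowH p X₂ (kb + (k + k1 + 2)) Kc t ω =
      rowH p (fun v => N₂ v + (u : ℤ)) (X - r + (k + 1)) Kc t ω := by
    intro ω
    rw [hX₂, rowH_div p (fun v => N₂ v + (u : ℤ)) φ, hlev]
  set W : Ω → ℝ := fun ω => if rowH p (fun v => N₂ v + (u : ℤ)) (X - r + (k + 1)) Kc t ω ≤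
        Kc * Real.log 2 - 32 / ε₀ - 12 then 1 else 0 with hW
  set ψ : Ω → O → ℝ := fun ω s => if (2 : ℤ) ^ kb ≤ |z (b ω) (o ω) - z (b ω) s| then 1 else 0 with hψ
  have hW0 : ∀ ω, 0 ≤ W ω := fun ω => by
    simp only [hW]
    split_ifs <;> norm_num
  have hW1 : ∀ ω, W ω ≤ 1 := fun ω => by
    simp only [hW]
    split_ifs <;> norm_num
  have hψ0 : ∀ ω s, 0 ≤ ψ ω s := fun ω s => by
    simp only [hψ]
    split_ifs <;> norm_num
  have hψ1 : ∀ ω s, ψ ω s ≤ 1 := fun ω s => by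
    simp only [hψ]
    split_ifs <;> norm_num
  -- first the displacement of the block
  have s1 : ∑ ω, p ω * (W ω * ∑ v, Pool.Agent.H49.Ent.cond p g (g ω) v *
      (if 1 / 2 ^ (r + k1) ≤ |Z ω - Z v| then 1 else 0)) ≤
      ∑ ω, p ω * (W ω * ∑ v, Pool.Agent.H49.Ent.cond p g (g ω) v * ψ ω (o v)) := by
    refine Finset.sum_le_sum fun ω _ => ?_
    rcases (hp.nonneg ω).eq_or_lt with hω | hω
    · rw [← hω, zero_mul, zero_mul]
    refine mul_le_mul_of_nonneg_left (mul_le_mul_of_nonneg_left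
      (Finset.sum_le_sum fun v _ => ?_) (hW0 ω)) hω.le
    rcases (cond_nonneg hp.nonneg g (g ω) v).eq_or_lt with hv | hv
    · rw [← hv, zero_mul, zero_mul]
    refine mul_le_mul_of_nonneg_left ?_ hv.le
    obtain ⟨k1', k2⟩ := (cond_pos_iff hp.nonneg g (g ω) v).1 hv
    by_cases hbig : 1 / 2 ^ (r + k1) ≤ |Z ω - Z v|
    · rw [if_pos hbig]
      simp only [hψ]
      rw [if_pos (hZpos ω v hω k1' k2 hbig)]
    · rw [if_neg hbig]
      exact hψ0 ω (o v)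
  have s2 := switch hp o C g F (fun ω _ => hoF ω) ha W ψ hW0 hW1 hψ0 hψ1
  -- then the one scale theorem
  set T := mi p X₁ o b + mi p X₂ o b +
    mi p (fun ω => (N₂ ω + (u : ℤ)) / ((2 ^ (X - r + (k + 1)) : ℕ) : ℤ)) b
      (fun ω => ((N₂ ω + (u : ℤ)) / ((2 ^ (X - r + (k + 1) + Kc) : ℕ) : ℤ), t ω)) + Pr p B with hT
  have hm1 : 0 ≤ mi p X₁ o b := mi_nonneg hp.nonneg _ _ _
  have hm2 : 0 ≤ mi p X₂ o b := mi_nonneg hp.nonneg _ _ _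
  have hm3 : 0 ≤ mi p (fun ω => (N₂ ω + (u : ℤ)) / ((2 ^ (X - r + (k + 1)) : ℕ) : ℤ)) b
      (fun ω => ((N₂ ω + (u : ℤ)) / ((2 ^ (X - r + (k + 1) + Kc) : ℕ) : ℤ), t ω)) :=
    mi_nonneg hp.nonneg _ _ _
  have hm4 : 0 ≤ Pr p B := Pr_nonneg' hp.nonneg B
  have s3 : ∑ ω, p ω * (W ω * ∑ v, Pool.Agent.H49.Ent.cond p b (b ω) v * ψ ω (o v)) ≤
      ε₀ + T / e := by
    by_cases hTe : T ≤ e
    · have hdet : Det p b t := by
        intro ω ω' h1 h2 h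
        exact htx ω ω' h1 h2 (Prod.ext_iff.mp (Prod.ext_iff.mp h).2).2
      have h1 := hRA Ω O _ θ p X₁ X₂ b o t z F (B ∪ {ω | ¬ 0 < p ω}) hp hoF hFc hXX
        (hPrB.trans (by linarith only [hm1, hm2, hm3, hTe])) hdet hZsmall (by
          show mi p X₁ o b ≤ e
          linarith only [hm2, hm3, hm4, hTe]) (by
          show mi p X₂ o b ≤ e
          linarith only [hm1, hm3, hm4, hTe]) (by
          have e1 : mi p (fun ω => X₂ ω / ((2 ^ (kb + (k + k1 + 2)) : ℕ) : ℤ)) b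
              (fun ω => (X₂ ω / ((2 ^ (kb + (k + k1 + 2) + Kc) : ℕ) : ℤ), t ω)) =
              mi p (fun ω => (N₂ ω + (u : ℤ)) / ((2 ^ (X - r + (k + 1)) : ℕ) : ℤ)) b
                (fun ω => ((N₂ ω + (u : ℤ)) / ((2 ^ (X - r + (k + 1) + Kc) : ℕ) : ℤ), t ω)) := by
            have e2 : X - r + (k + 1) + Kc = φ + (kb + (k + k1 + 2) + Kc) := by omega
            simp only [hX₂, div_div_two, e2]
            rw [hlev]
          show mi p _ b _ ≤ e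
          rw [e1]
          linarith only [hm1, hm2, hm4, hTe])
      have h2 := Pr_dbl (p := p) b (fun ω v => rowH p X₂ (kb + (k + k1 + 2)) Kc t ω ≤
        Kc * Real.log 2 - 32 / ε₀ - 12 ∧ (2 : ℤ) ^ kb ≤ |z (b ω) (o ω) - z (b ω) (o v)|)
      rw [h2] at h1
      have h3 : 0 ≤ T / e := div_nonneg (by linarith only [hm1, hm2, hm3, hm4]) he.le
      refine le_trans (le_of_eq ?_) (h1.trans (by linarith only [h3]))
      refine Finset.sum_congr rfl fun ω _ => ?_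
      congr 1
      rw [Finset.mul_sum]
      refine Finset.sum_congr rfl fun v _ => ?_
      simp only [hW, hψ, hrow]
      by_cases c1 : rowH p (fun v => N₂ v + (u : ℤ)) (X - r + (k + 1)) Kc t ω ≤
        Kc * Real.log 2 - 32 / ε₀ - 12
      · by_cases c2 : (2 : ℤ) ^ kb ≤ |z (b ω) (o ω) - z (b ω) (o v)|
        · rw [if_pos c1, if_pos c2, if_pos ⟨c1, c2⟩]
          ring
        · have c3 : ¬ (rowH p (fun v => N₂ v + (u : ℤ)) (X - r + (k + 1)) Kc t ω ≤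
            Kc * Real.log 2 - 32 / ε₀ - 12 ∧
            (2 : ℤ) ^ kb ≤ |z (b ω) (o ω) - z (b ω) (o v)|) := fun h => c2 h.2
          rw [if_neg c2, if_neg c3]
          ring
      · have c3 : ¬ (rowH p (fun v => N₂ v + (u : ℤ)) (X - r + (k + 1)) Kc t ω ≤
            Kc * Real.log 2 - 32 / ε₀ - 12 ∧
            (2 : ℤ) ^ kb ≤ |z (b ω) (o ω) - z (b ω) (o v)|) := fun h => c1 h.1
        rw [if_neg c1, if_neg c3]
        ring
    · have h1 : 1 ≤ T / e := by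
        rw [le_div_iff₀ he]
        linarith only [hTe, not_le.mp hTe]
      have h2 : ∑ ω, p ω * (W ω * ∑ v, Pool.Agent.H49.Ent.cond p b (b ω) v * ψ ω (o v)) ≤
          ∑ ω, p ω * 1 := by
        refine Finset.sum_le_sum fun ω _ => ?_
        rcases (hp.nonneg ω).eq_or_lt with hω | hω
        · rw [← hω, zero_mul, zero_mul]
        refine mul_le_mul_of_nonneg_left ?_ hω.le
        have hq := isLaw_cond hp b hω
        have h3 : ∑ v, Pool.Agent.H49.Ent.cond p b (b ω) v * ψ ω (o v) ≤ 1 := by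
          rw [← hq.sum_one]
          refine Finset.sum_le_sum fun v _ => ?_
          exact mul_le_of_le_one_right (hq.nonneg v) (hψ1 ω (o v))
        have h4 : 0 ≤ ∑ v, Pool.Agent.H49.Ent.cond p b (b ω) v * ψ ω (o v) :=
          Finset.sum_nonneg fun v _ => mul_nonneg (hq.nonneg v) (hψ0 ω (o v))
        have := hW1 ω
        have := hW0 ω
        nlinarith
      rw [← Finset.sum_mul, hp.sum_one, one_mul] at h2
      linarith only [hε₀, h1, h2]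
  exact s1.trans (s2.trans (add_le_add_left s3 _))

end

end Pool.OC.RS
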