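import Pool.Agent.H86.OC.RASb

/-!
# Rows which are not full are not hit: the informations
-/

set_option autoImplicit false

namespace Pool.OC.RS

open Finset Real
open Pool.Agent.H49.Ent Pool.Agent.H32.Dense Pool.STK Pool.KAF Pool.KAL Pool.KX

section

variable {Ω S T U O β θ χ γ ν : Type} [Fintype Ω]

/-- The cell of `N + u` at the level `l`. -/
abbrev cl (N : Ω → ℤ) (u l : ℕ) (ω : Ω) : ℤ := (N ω + (u : ℤ)) / ((2 ^ l : ℕ) : ℤ)

theorem cl_le (N : Ω → ℤ) (u : ℕ) {l l' : ℕ} (h : l ≤ l') {ω ω' : Ω} (he : cl N u l ω = cl N u l ω') :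
    cl N u l' ω = cl N u l' ω' := by
  obtain ⟨j, rfl⟩ := Nat.exists_eq_add_of_le h
  unfold cl at he ⊢
  rw [← div_div_two, ← div_div_two, he]

theorem cl_of (N : Ω → ℤ) (u l : ℕ) {ω ω' : Ω} (he : N ω = N ω') : cl N u l ω = cl N u l ω' := by
  unfold cl
  rw [he]

theorem cl_near (N : Ω → ℤ) (u l : ℕ) {ω ω' : Ω} (he : cl N u l ω = cl N u l ω') :
    |N ω - N ω'| ≤ 2 ^ l := by
  unfold cl at he
  have hM : (0 : ℤ) < ((2 ^ l : ℕ) : ℤ) := by positivity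
  have a0 := Int.emod_add_mul_ediv (N ω + (u : ℤ)) ((2 ^ l : ℕ) : ℤ)
  have a1 := Int.emod_nonneg (N ω + (u : ℤ)) hM.ne'
  have a2 := Int.emod_lt_of_pos (N ω + (u : ℤ)) hM
  have b0 := Int.emod_add_mul_ediv (N ω' + (u : ℤ)) ((2 ^ l : ℕ) : ℤ)
  have b1 := Int.emod_nonneg (N ω' + (u : ℤ)) hM.ne'
  have b2 := Int.emod_lt_of_pos (N ω' + (u : ℤ)) hM
  rw [he] at a0
  rw [abs_le]
  push_cast at *
  constructor <;> linarith

theorem CH_mono_ctx {p : Ω → ℝ} (hp : ∀ ω, 0 ≤ p ω) (A : Ω → S) {b : Ω → T} {b' : Ω → U}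
    (h : Det p b b') : CH p A b ≤ CH p A b' :=
  CH_mono_cond hp (X := A) (W' := b) (W := b') h

/-- The information of the first position and of the block. -/
theorem m1 {p : Ω → ℝ} (hp : ∀ ω, 0 ≤ p ω) {C₁ C₂ A A' : Ω → ℤ} {g : Ω → S} {g' : Ω → γ}
    {o : Ω → O} (hA : Det p A' A) (ho : Det p (fun ω => (g' ω, g ω)) o) :
    mi p A o (fun ω => ((C₁ ω, C₂ ω), g ω)) ≤ mi p A' g' (fun ω => (C₁ ω, g ω)) +
      CH p C₂ (fun ω => (A ω, g ω)) := by
  have h0 := mi_congr hp A o (b := fun ω => ((C₁ ω, C₂ ω), g ω))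
    (b' := fun ω => (C₂ ω, (C₁ ω, g ω))) (fun ω ω' _ _ h => by
      simp only [Prod.mk.injEq] at h ⊢
      tauto) (fun ω ω' _ _ h => by
      simp only [Prod.mk.injEq] at h ⊢
      tauto)
  have h1 := mi_ctx hp A o C₂ (fun ω => (C₁ ω, g ω))
  have h2 := CH_mono_ctx hp C₂ (b := fun ω => (A ω, (C₁ ω, g ω))) (b' := fun ω => (A ω, g ω))
    (fun ω ω' _ _ h => by
      simp only [Prod.mk.injEq] at h ⊢
      tauto)
  have h3 := mi_mono_left hp A' A o (fun ω => (C₁ ω, g ω)) (fun ω ω' a b h =>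
    hA ω ω' a b (Prod.ext_iff.mp h).1)
  have h4 := mi_mono hp A' g' o (fun ω => (C₁ ω, g ω)) (fun ω ω' a b h => by
    simp only [Prod.mk.injEq] at h
    exact ho ω ω' a b (Prod.ext h.1 h.2.2))
  linarith

/-- The information of the second position and of the block. -/
theorem m2 {p : Ω → ℝ} (hp : ∀ ω, 0 ≤ p ω) {C₁ C₂ A A' : Ω → ℤ} {g : Ω → S} {g' : Ω → γ}
    {o : Ω → O} (hA : Det p A' A) (ho : Det p (fun ω => (g' ω, g ω)) o) :
    mi p A o (fun ω => ((C₁ ω, C₂ ω), g ω)) ≤ mi p A' g' (fun ω => (C₂ ω, g ω)) +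
      CH p C₁ (fun ω => (A ω, g ω)) := by
  have h0 := mi_congr hp A o (b := fun ω => ((C₁ ω, C₂ ω), g ω))
    (b' := fun ω => ((C₂ ω, C₁ ω), g ω)) (fun ω ω' _ _ h => by
      simp only [Prod.mk.injEq] at h ⊢
      tauto) (fun ω ω' _ _ h => by
      simp only [Prod.mk.injEq] at h ⊢
      tauto)
  rw [h0]
  exact m1 hp hA ho

/-- The information of the rows and of the context. -/
theorem m3 {p : Ω → ℝ} (hp : ∀ ω, 0 ≤ p ω) {C₁ C₂ R R' M : Ω → ℤ} {t : Ω → θ} {x : Ω → χ}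
    {Γ : Ω → γ} {V : Ω → ν} (htx : Det p x t) (hR : Det p R' R) (hC₂ : Det p M C₂)
    (hV : Det p (fun ω => (V ω, x ω)) Γ) :
    mi p R (fun ω => ((C₁ ω, C₂ ω), (Γ ω, x ω))) (fun ω => (M ω, t ω)) ≤
      mi p R' x (fun ω => (M ω, t ω)) + mi p R' V (fun ω => (M ω, x ω)) +
      CH p C₁ (fun ω => (M ω, (Γ ω, x ω))) := by
  have h0 := mi_mono hp R (fun ω => (x ω, (Γ ω, C₁ ω))) (fun ω => ((C₁ ω, C₂ ω), (Γ ω, x ω)))
    (fun ω => (M ω, t ω)) (fun ω ω' a b h => by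
      simp only [Prod.mk.injEq] at h ⊢
      exact ⟨⟨h.1.2.2, hC₂ ω ω' a b h.2.1⟩, h.1.2.1, h.1.1⟩)
  have h1 := mi_chain hp R x (fun ω => (Γ ω, C₁ ω)) (fun ω => (M ω, t ω))
  have h2 := mi_chain hp R Γ C₁ (fun ω => (x ω, (M ω, t ω)))
  have h3 : mi p R C₁ (fun ω => (Γ ω, (x ω, (M ω, t ω)))) ≤
      CH p C₁ (fun ω => (M ω, (Γ ω, x ω))) := by
    rw [mi_eq' hp]
    have e1 := CH_nonneg hp C₁ (fun ω => (R ω, (Γ ω, (x ω, (M ω, t ω)))))
    have e2 := CH_mono_ctx hp C₁ (b := fun ω => (Γ ω, (x ω, (M ω, t ω))))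
      (b' := fun ω => (M ω, (Γ ω, x ω))) (fun ω ω' _ _ h => by
        simp only [Prod.mk.injEq] at h ⊢
        tauto)
    linarith
  have h4 := mi_congr hp R Γ (b := fun ω => (x ω, (M ω, t ω))) (b' := fun ω => (M ω, x ω))
    (fun ω ω' _ _ h => by
      simp only [Prod.mk.injEq] at h ⊢
      tauto) (fun ω ω' a b h => by
      simp only [Prod.mk.injEq] at h ⊢
      exact ⟨h.2, h.1, htx ω ω' a b h.2⟩)
  have h5 := mi_mono_left hp R' R x (fun ω => (M ω, t ω)) (fun ω ω' a b h =>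
    hR ω ω' a b (Prod.ext_iff.mp h).1)
  have h6 := mi_mono_left hp R' R Γ (fun ω => (M ω, x ω)) (fun ω ω' a b h =>
    hR ω ω' a b (Prod.ext_iff.mp h).1)
  have h7 := mi_mono hp R' V Γ (fun ω => (M ω, x ω)) (fun ω ω' a b h => by
    simp only [Prod.mk.injEq] at h
    exact hV ω ω' a b (Prod.ext h.1 h.2.2))
  linarith

/-- The information of the block and of the coarse positions. -/
theorem t1 {p : Ω → ℝ} (hp : ∀ ω, 0 ≤ p ω) {C₁ C₂ A N : Ω → ℤ} {g : Ω → S} {g' : Ω → γ}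
    {o : Ω → O} (hC : Det p A C₁) (hA : Det p N A) (ho : Det p (fun ω => (g' ω, g ω)) o) :
    mi p o (fun ω => (C₁ ω, C₂ ω)) g ≤ mi p g' N g + CH p C₂ (fun ω => (A ω, g ω)) := by
  have h0 := mi_mono hp o (fun ω => (A ω, C₂ ω)) (fun ω => (C₁ ω, C₂ ω)) g
    (fun ω ω' a b h => by
      simp only [Prod.mk.injEq] at h ⊢
      exact ⟨hC ω ω' a b h.1.1, h.1.2⟩)
  have h1 := mi_chain hp o A C₂ g
  have h2 : mi p o C₂ (fun ω => (A ω, g ω)) ≤ CH p C₂ (fun ω => (A ω, g ω)) := by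
    rw [mi_eq' hp]
    have e1 := CH_nonneg hp C₂ (fun ω => (o ω, (A ω, g ω)))
    linarith
  have h3 := mi_mono hp o N A g (fun ω ω' a b h => hA ω ω' a b (Prod.ext_iff.mp h).1)
  have h4 := mi_mono_left hp g' o N g ho
  linarith

/-! ### The sums over the scales -/

/-- Both sequences are nested. -/
theorem sum_s1 {p : Ω → ℝ} (hp : ∀ ω, 0 ≤ p ω) (N : Ω → ℤ) (V : Ω → ν) (x : Ω → χ)
    (Γ : ℕ → Ω → γ) (hΓ : ∀ r, Det p (fun ω => (Γ (r + 1) ω, x ω)) (Γ r))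
    (hV : ∀ r, Det p (fun ω => (V ω, x ω)) (Γ r)) (X c u : ℕ) {Q : ℕ} (hQ : 0 < Q) (n : ℕ) :
    ∑ r ∈ range n, mi p (cl N u (X - (r + Q) + c)) (Γ (r + Q))
      (fun ω => (cl N u (X - r + c) ω, (Γ r ω, x ω))) ≤ Q * mi p N V x := by
  refine sum_classes _ (fun r => mi_nonneg hp _ _ _) hQ n _ fun j _ m _ => ?_
  have hnest : ∀ (r i : ℕ), Det p (fun ω => (Γ (r + i) ω, x ω)) (Γ r) := by
    intro r i
    induction i with
    | zero => exact fun ω ω' _ _ h => (Prod.ext_iff.mp h).1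
    | succ i ih =>
      intro ω ω' a b h
      exact ih ω ω' a b (Prod.ext (hΓ (r + i) ω ω' a b h) (Prod.ext_iff.mp h).2)
  have h1 := mi_sum_two hp (fun i => cl N u (X - (j + i * Q) + c)) (fun i => Γ (j + i * Q)) x
    (fun i ω ω' _ _ h => cl_le N u (by
      have : j + i * Q ≤ j + (i + 1) * Q := by
        rw [add_mul]
        omega
      omega) (Prod.ext_iff.mp h).1)
    (fun i => by
      have e : j + (i + 1) * Q = j + i * Q + Q := by ring
      simp only [e]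
      exact hnest _ _) m
  have h2 : ∀ i, mi p (cl N u (X - (j + i * Q + Q) + c)) (Γ (j + i * Q + Q))
      (fun ω => (cl N u (X - (j + i * Q) + c) ω, (Γ (j + i * Q) ω, x ω))) =
      mi p (cl N u (X - (j + (i + 1) * Q) + c)) (Γ (j + (i + 1) * Q))
      (fun ω => (cl N u (X - (j + i * Q) + c) ω, (Γ (j + i * Q) ω, x ω))) := by
    intro i
    have e : j + (i + 1) * Q = j + i * Q + Q := by ring
    rw [e]
  rw [Finset.sum_congr rfl fun i _ => h2 i]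
  refine h1.trans ?_
  have h3 := mi_mono_left hp N (cl N u (X - (j + m * Q) + c)) (Γ (j + m * Q)) x
    (fun ω ω' _ _ h => cl_of N u _ (Prod.ext_iff.mp h).1)
  have h4 := mi_mono hp N V (Γ (j + m * Q)) x (hV _)
  exact h3.trans h4

/-- The positions are nested. -/
theorem sum_s3 {p : Ω → ℝ} (hp : ∀ ω, 0 ≤ p ω) (N : Ω → ℤ) (V : Ω → ν) (x : Ω → χ)
    (X c u : ℕ) {Q : ℕ} (hQ : 0 < Q) (n : ℕ) :
    ∑ r ∈ range n, mi p (cl N u (X - (r + Q) + c)) V (fun ω => (cl N u (X - r + c) ω, x ω)) ≤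
      Q * mi p N V x := by
  refine sum_classes _ (fun r => mi_nonneg hp _ _ _) hQ n _ fun j _ m _ => ?_
  have h1 := mi_sum_one hp (fun i => cl N u (X - (j + i * Q) + c)) V x
    (fun i ω ω' _ _ h => cl_le N u (by
      have : j + i * Q ≤ j + (i + 1) * Q := by
        rw [add_mul]
        omega
      omega) (Prod.ext_iff.mp h).1) m
  have h2 : ∀ i, mi p (cl N u (X - (j + i * Q + Q) + c)) V
      (fun ω => (cl N u (X - (j + i * Q) + c) ω, x ω)) =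
      mi p (cl N u (X - (j + (i + 1) * Q) + c)) V
      (fun ω => (cl N u (X - (j + i * Q) + c) ω, x ω)) := by
    intro i
    have e : j + (i + 1) * Q = j + i * Q + Q := by ring
    rw [e]
  rw [Finset.sum_congr rfl fun i _ => h2 i]
  refine h1.trans ?_
  exact mi_mono_left hp N (cl N u (X - (j + m * Q) + c)) V x
    (fun ω ω' _ _ h => cl_of N u _ (Prod.ext_iff.mp h).1)

/-- The cells are nested. -/
theorem sum_s5 {p : Ω → ℝ} (hp : ∀ ω, 0 ≤ p ω) (N : Ω → S) (V : Ω → ν) (x : Ω → χ)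
    (Γ : ℕ → Ω → γ) (hΓ : ∀ r, Det p (fun ω => (Γ (r + 1) ω, x ω)) (Γ r))
    (hV : ∀ r, Det p (fun ω => (V ω, x ω)) (Γ r)) {Q : ℕ} (hQ : 0 < Q) (n : ℕ) :
    ∑ r ∈ range n, mi p (Γ (r + Q)) N (fun ω => (Γ r ω, x ω)) ≤ Q * mi p N V x := by
  refine sum_classes _ (fun r => mi_nonneg hp _ _ _) hQ n _ fun j _ m _ => ?_
  have hnest : ∀ (r i : ℕ), Det p (fun ω => (Γ (r + i) ω, x ω)) (Γ r) := by
    intro r i
    induction i with
    | zero => exact fun ω ω' _ _ h => (Prod.ext_iff.mp h).1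
    | succ i ih =>
      intro ω ω' a b h
      exact ih ω ω' a b (Prod.ext (hΓ (r + i) ω ω' a b h) (Prod.ext_iff.mp h).2)
  have h1 := mi_sum_one hp (fun i => Γ (j + i * Q)) N x (fun i => by
      have e : j + (i + 1) * Q = j + i * Q + Q := by ring
      simp only [e]
      exact hnest _ _) m
  have h2 : ∀ i, mi p (Γ (j + i * Q + Q)) N (fun ω => (Γ (j + i * Q) ω, x ω)) =
      mi p (Γ (j + (i + 1) * Q)) N (fun ω => (Γ (j + i * Q) ω, x ω)) := by
    intro i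
    have e : j + (i + 1) * Q = j + i * Q + Q := by ring
    rw [e]
  rw [Finset.sum_congr rfl fun i _ => h2 i]
  refine h1.trans ?_
  rw [mi_comm hp (Γ (j + m * Q)) N]
  exact mi_mono hp N V (Γ (j + m * Q)) x (hV _)

end

end Pool.OC.RS
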