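import Pool.Agent.H86.OC.RASc

/-!
# Rows which are not full are not hit: the sum over the rows
-/

set_option autoImplicit false

namespace Pool.OC.RS

open Finset Real
open Pool.Agent.H49.Ent Pool.Agent.H32.Dense Pool.STK Pool.KAF Pool.KAL Pool.KX

open Classical in
theorem ras_r (k k1 c₀ : ℕ) (ε : ℝ) (hε : 0 < ε) (hε1 : ε ≤ 1) (Kc : ℕ) :
    ∃ K : ℕ, k + k1 < K ∧ ∀ Fc : ℕ, ∃ (δ : ℝ) (r₀ : ℕ), 0 < δ ∧ ∀ (X : ℕ)
      (Ω χ ν γ O θ : Type) [Fintype Ω] (p : Ω → ℝ) (N₁ N₂ : Ω → ℤ) (t : Ω → θ) (x : Ω → χ)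
      (V : Ω → ν) (Z : Ω → ℝ) (Γ : ℕ → Ω → γ) (o : ℕ → Ω → O) (F : Finset O),
      IsLaw p → Det p x t → (∀ ω, 0 < p ω → |(N₂ ω : ℝ) - N₁ ω - 2 ^ X * Z ω| ≤ 2 ^ c₀) →
      (∀ r, Det p (fun ω => (Γ (r + 1) ω, x ω)) (Γ r)) →
      (∀ r, Det p (fun ω => (V ω, x ω)) (Γ r)) → (∀ r ω, o r ω ∈ F) → F.card ≤ Fc →
      (∀ r, Det p (fun ω => (Γ (r + K) ω, x ω)) (o r)) →
      (∀ r ω ω', 0 < p ω → 0 < p ω' → Γ r ω = Γ r ω' → x ω = x ω' →
        |Z ω - Z ω'| ≤ 2 ^ k / 2 ^ r) →
      (∀ r ω ω', 0 < p ω → 0 < p ω' → Γ r ω = Γ r ω' → x ω = x ω' → o r ω = o r ω' →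
        |Z ω - Z ω'| ≤ 2 ^ k / 2 ^ (r + K)) →
      mi p N₁ V x ≤ δ * X → mi p N₂ V x ≤ δ * X → mi p N₂ x t ≤ δ * X →
      ∑ r ∈ Finset.Ico r₀ (X + 1 - r₀), ∑ ω, p ω * (wrow p N₂ t X (X - r + (k + 1)) Kc
        (64 / ε + 12) ω * ∑ v, Pool.Agent.H49.Ent.cond p (fun v => (Γ r v, x v)) (Γ r ω, x ω) v *
        (if 1 / 2 ^ (r + k1) ≤ |Z ω - Z v| then 1 else 0)) ≤ ε * X := by
  obtain ⟨kb₀, hkb₀⟩ := ra_unif (k + k1 + 2) Kc
  set kb := max kb₀ 2 with hkb
  set K := k + k1 + kb + 1 with hK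
  refine ⟨K, by omega, fun Fc => ?_⟩
  set ε₀ := ε / 2 with hε₀
  have hε₀0 : 0 < ε₀ := by positivity
  obtain ⟨e, he, hRA'⟩ := hkb₀ Fc ε₀ hε₀0 (by linarith only [hε1, hε₀])
  have hRA : RAat kb (k + k1 + 2) Kc Fc ε₀ e := hRA' kb (le_max_left _ _)
  set a := ε / 8 with ha
  have ha0 : 0 < a := by positivity
  set Mx := 3 / e + 1 / a with hMx
  have hMx0 : 0 < Mx := by positivity
  obtain ⟨k12', hk12'⟩ := pow_unbounded_of_one_lt (16 * Mx * 8 / ε) (by norm_num : (1 : ℝ) < 2)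
  set k12 := k12' + 2 with hk12
  have hκ : 16 * Mx / 2 ^ k12 ≤ ε / 8 := by
    rw [div_lt_iff₀ hε] at hk12'
    have h1 : (2 : ℝ) ^ k12' ≤ 2 ^ k12 := pow_le_pow_right₀ (by norm_num) (by omega)
    rw [div_le_div_iff₀ (by positivity) (by norm_num)]
    nlinarith only [hk12', hε, h1]
  set c := k + Kc + k12 with hc
  set Q := c + k1 + kb + 1 + K with hQ
  have hQ0 : 0 < Q := by omega
  set M' := 4 / e + 1 / a with hM'
  have hM'0 : 0 < M' := by positivity
  set δ := ε / (8 * M' * Q) with hδ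
  have hQ0' : (0 : ℝ) < Q := by exact_mod_cast hQ0
  have hδ0 : 0 < δ := by positivity
  refine ⟨δ, Q + c₀ + 1, hδ0, ?_⟩
  intro X Ω χ ν γ O θ _ p N₁ N₂ t x V Z Γ o F hp htx hN hΓ hV hoF hFc hoΓ hcell hfine hi1 hi2 hi3
  set r₀ := Q + c₀ + 1 with hr₀
  exact by
   set I := Finset.Ico r₀ (X + 1 - r₀) with hI
   have hIr : ∀ r ∈ I, r₀ ≤ r ∧ r + r₀ ≤ X := by
     intro r hr
     have := Finset.mem_Ico.mp hr
     omega
   -- the terms
   set S1 : ℕ → ℕ → ℝ := fun r u => mi p (cl N₁ u (X - (r + Q) + c)) (Γ (r + Q))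
       (fun ω => (cl N₁ u (X - r + c) ω, (Γ r ω, x ω))) with hS1
   set S2 : ℕ → ℕ → ℝ := fun r u => mi p (cl N₂ u (X - (r + Q) + c)) (Γ (r + Q))
       (fun ω => (cl N₂ u (X - r + c) ω, (Γ r ω, x ω))) with hS2
   set S3 : ℕ → ℕ → ℝ := fun r u => mi p (cl N₂ u (X - (r + Q) + (k + 1 + Kc))) x
       (fun ω => (cl N₂ u (X - r + (k + 1 + Kc)) ω, t ω)) with hS3
   set S4 : ℕ → ℕ → ℝ := fun r u => mi p (cl N₂ u (X - (r + Q) + (k + 1 + Kc))) V
       (fun ω => (cl N₂ u (X - r + (k + 1 + Kc)) ω, x ω)) with hS4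
   set S5 : ℕ → ℝ := fun r => mi p (Γ (r + Q)) N₁ (fun ω => (Γ r ω, x ω)) with hS5
   set φ : ℕ → ℕ := fun r => X - (r + k1 + kb + 1) with hφ
   set c1 : ℕ → ℕ → ℝ := fun r u => CH p (cl N₂ u (X - r + c))
       (fun ω => (cl N₁ u (φ r) ω, (Γ r ω, x ω))) with hc1
   set c2 : ℕ → ℕ → ℝ := fun r u => CH p (cl N₁ u (X - r + c))
       (fun ω => (cl N₂ u (φ r) ω, (Γ r ω, x ω))) with hc2
   set c3 : ℕ → ℕ → ℝ := fun r u => CH p (cl N₁ u (X - r + c))
       (fun ω => (cl N₂ u (X - r + (k + 1 + Kc)) ω, (Γ r ω, x ω))) with hc3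
   have hp0 := hp.nonneg
   have hnest : ∀ (r i : ℕ), Det p (fun ω => (Γ (r + i) ω, x ω)) (Γ r) := by
     intro r i
     induction i with
     | zero => exact fun ω ω' _ _ h => (Prod.ext_iff.mp h).1
     | succ i ih =>
       intro ω ω' a b h
       exact ih ω ω' a b (Prod.ext (hΓ (r + i) ω ω' a b h) (Prod.ext_iff.mp h).2)
   -- the step
   exact by
    set f : ℕ → ℕ → ℝ := fun r u => ∑ ω, p ω * ((if rowH p (fun v => N₂ v + (u : ℤ))
          (X - r + (k + 1)) Kc t ω ≤ Kc * Real.log 2 - 32 / ε₀ - 12 then 1 else 0) *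
        ∑ v, Pool.Agent.H49.Ent.cond p (fun v => (Γ r v, x v)) (Γ r ω, x ω) v *
          (if 1 / 2 ^ (r + k1) ≤ |Z ω - Z v| then 1 else 0)) with hf
    have hstep : ∀ r ∈ I, ∀ u, f r u ≤ (ε₀ + a) + ((S1 r u + S2 r u + S3 r u + S4 r u) / e +
        S5 r / a) + ((c1 r u + c2 r u + c3 r u) / e + c1 r u / a) := by
      intro r hr u
      obtain ⟨hr1, hr2⟩ := hIr r hr
      have h0 := step hp (N₁ := N₁) (N₂ := N₂) (Z := Z) (t := t) (x := x) (Γ := Γ r) (o := o r)
        (F := F) (B := {ω | ¬ 0 < p ω}) (X := X) (r := r) (Ξ := X - r + c) hRA he hε₀0.le htx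
        (hoF r) hFc (fun ω hω => hN ω (by
          by_contra h
          exact hω h)) (by omega) le_rfl (le_max_right _ _) (hcell r) (hfine r) u ha0
      have hB : Pr p {ω | ¬ 0 < p ω} = 0 := by
        rw [Pool.KAF.Pr_eq]
        refine Finset.sum_eq_zero fun ω _ => ?_
        split_ifs with h
        · exact le_antisymm (not_lt.mp h) (hp0 ω)
        · rfl
      rw [hB, add_zero] at h0
      -- the cells
      have hoQ : Det p (fun ω => (Γ (r + Q) ω, (Γ r ω, x ω))) (o r) := by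
        intro ω ω' h1 h2 h
        simp only [Prod.mk.injEq] at h
        have e1 : r + Q = (r + K) + (Q - K) := by omega
        have h3 := hnest (r + K) (Q - K) ω ω' h1 h2 (by
          rw [← e1]
          exact Prod.ext h.1 h.2.2)
        exact hoΓ r ω ω' h1 h2 (Prod.ext h3 h.2.2)
      have hφQ : X - (r + Q) + c ≤ φ r := by
        rw [hφ]
        show X - (r + Q) + c ≤ X - (r + k1 + kb + 1)
        omega
      have k1' := m1 hp0 (C₁ := cl N₁ u (X - r + c)) (C₂ := cl N₂ u (X - r + c))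
        (A := cl N₁ u (φ r)) (A' := cl N₁ u (X - (r + Q) + c)) (g := fun ω => (Γ r ω, x ω))
        (g' := Γ (r + Q)) (o := o r) (fun ω ω' _ _ h => cl_le N₁ u hφQ h) hoQ
      have k2' := m2 hp0 (C₁ := cl N₁ u (X - r + c)) (C₂ := cl N₂ u (X - r + c))
        (A := cl N₂ u (φ r)) (A' := cl N₂ u (X - (r + Q) + c)) (g := fun ω => (Γ r ω, x ω))
        (g' := Γ (r + Q)) (o := o r) (fun ω ω' _ _ h => cl_le N₂ u hφQ h) hoQ
      have k3' := m3 hp0 (C₁ := cl N₁ u (X - r + c)) (C₂ := cl N₂ u (X - r + c))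
        (R := cl N₂ u (X - r + (k + 1))) (R' := cl N₂ u (X - (r + Q) + (k + 1 + Kc)))
        (M := cl N₂ u (X - r + (k + 1) + Kc)) (t := t) (x := x) (Γ := Γ r) (V := V) htx
        (fun ω ω' _ _ h => cl_le N₂ u (by omega) h) (fun ω ω' _ _ h => cl_le N₂ u (by omega) h)
        (hV r)
      have k4' := t1 hp0 (C₁ := cl N₁ u (X - r + c)) (C₂ := cl N₂ u (X - r + c))
        (A := cl N₁ u (φ r)) (N := N₁) (g := fun ω => (Γ r ω, x ω)) (g' := Γ (r + Q)) (o := o r)
        (fun ω ω' _ _ h => cl_le N₁ u (by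
          rw [hφ]
          show X - (r + k1 + kb + 1) ≤ X - r + c
          omega) h)
        (fun ω ω' _ _ h => cl_of N₁ u _ h) hoQ
      have e2 : X - r + (k + 1) + Kc = X - r + (k + 1 + Kc) := by omega
      rw [e2] at k3' h0
      have h1 : f r u ≤ (ε₀ + ((S1 r u + c1 r u) + (S2 r u + c2 r u) + (S3 r u + S4 r u + c3 r u)) / e) +
          (a + (S5 r + c1 r u) / a) := by
        refine h0.trans ?_
        gcongr
      refine h1.trans (le_of_eq ?_)
      field_simp
      ring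
    -- the informations
    exact by
     have hS : ∀ u, ∑ r ∈ I, ((S1 r u + S2 r u + S3 r u + S4 r u) / e + S5 r / a) ≤ ε / 8 * X := by
       intro u
       have hsub : I ⊆ range (X + 1) := by
         intro r hr
         have := hIr r hr
         rw [Finset.mem_range]
         omega
       have hnn : ∀ r, 0 ≤ (S1 r u + S2 r u + S3 r u + S4 r u) / e + S5 r / a := by
         intro r
         have n1 : 0 ≤ S1 r u := mi_nonneg hp0 _ _ _
         have n2 : 0 ≤ S2 r u := mi_nonneg hp0 _ _ _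
         have n3 : 0 ≤ S3 r u := mi_nonneg hp0 _ _ _
         have n4 : 0 ≤ S4 r u := mi_nonneg hp0 _ _ _
         have n5 : 0 ≤ S5 r := mi_nonneg hp0 _ _ _
         positivity
       refine (Finset.sum_le_sum_of_subset_of_nonneg hsub fun r _ _ => hnn r).trans ?_
       rw [Finset.sum_add_distrib, ← Finset.sum_div, ← Finset.sum_div, Finset.sum_add_distrib,
         Finset.sum_add_distrib, Finset.sum_add_distrib]
       have b1 : ∑ r ∈ range (X + 1), S1 r u ≤ Q * (δ * X) :=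
         (sum_s1 hp0 N₁ V x Γ hΓ hV X c u hQ0 (X + 1)).trans
           (mul_le_mul_of_nonneg_left hi1 hQ0'.le)
       have b2 : ∑ r ∈ range (X + 1), S2 r u ≤ Q * (δ * X) :=
         (sum_s1 hp0 N₂ V x Γ hΓ hV X c u hQ0 (X + 1)).trans
           (mul_le_mul_of_nonneg_left hi2 hQ0'.le)
       have b3 : ∑ r ∈ range (X + 1), S3 r u ≤ Q * (δ * X) :=
         (sum_s3 hp0 N₂ x t X (k + 1 + Kc) u hQ0 (X + 1)).trans
           (mul_le_mul_of_nonneg_left hi3 hQ0'.le)
       have b4 : ∑ r ∈ range (X + 1), S4 r u ≤ Q * (δ * X) :=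
         (sum_s3 hp0 N₂ V x X (k + 1 + Kc) u hQ0 (X + 1)).trans
           (mul_le_mul_of_nonneg_left hi2 hQ0'.le)
       have b5 : ∑ r ∈ range (X + 1), S5 r ≤ Q * (δ * X) :=
         (sum_s5 hp0 N₁ V x Γ hΓ hV hQ0 (X + 1)).trans
           (mul_le_mul_of_nonneg_left hi1 hQ0'.le)
       have b6 : (∑ r ∈ range (X + 1), S1 r u + ∑ r ∈ range (X + 1), S2 r u +
           ∑ r ∈ range (X + 1), S3 r u + ∑ r ∈ range (X + 1), S4 r u) / e +
           (∑ r ∈ range (X + 1), S5 r) / a ≤ (4 * (Q * (δ * X))) / e + (Q * (δ * X)) / a := by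
         gcongr
         linarith only [b1, b2, b3, b4]
       refine b6.trans (le_of_eq ?_)
       rw [hδ]
       have e3 : 4 * (Q * (ε / (8 * M' * Q) * X)) / e + Q * (ε / (8 * M' * Q) * X) / a =
           M' * (Q * (ε / (8 * M' * Q) * X)) := by
         rw [hM']
         field_simp
       rw [e3]
       field_simp
     -- the carries
     exact by
      have hC : ∀ r ∈ I, ∑ u ∈ range (2 ^ X), ((c1 r u + c2 r u + c3 r u) / e + c1 r u / a) ≤
          2 ^ X * (ε / 8) := by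
        intro r hr
        obtain ⟨hr1, hr2⟩ := hIr r hr
        have hΞ : X - r + c ≤ X := by omega
        have hL : 2 ^ (X - r + k + Kc + 2) ≤ 2 ^ (X - r + c) :=
          Nat.pow_le_pow_right (by norm_num) (by omega)
        -- positions of the same cell
        have near : ∀ ω ω', 0 < p ω → 0 < p ω' → Γ r ω = Γ r ω' → x ω = x ω' →
            |((N₂ ω : ℝ) - N₁ ω) - (N₂ ω' - N₁ ω')| ≤ 2 ^ (X - r + k + 1) := by
          intro ω ω' h1 h2 h3 h4
          have a1 := hN ω h1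
          have a2 := hN ω' h2
          have a3 := hcell r ω ω' h1 h2 h3 h4
          have a4 : |(2 : ℝ) ^ X * Z ω - 2 ^ X * Z ω'| ≤ 2 ^ (X - r + k) := by
            rw [← mul_sub, abs_mul, abs_of_pos (by positivity : (0 : ℝ) < 2 ^ X)]
            refine (mul_le_mul_of_nonneg_left a3 (by positivity)).trans (le_of_eq ?_)
            rw [mul_div_assoc', div_eq_iff (by positivity), ← pow_add, ← pow_add]
            congr 1
            omega
          have a5 : (2 : ℝ) ^ (c₀ + 1) ≤ 2 ^ (X - r + k) :=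
            pow_le_pow_right₀ (by norm_num) (by omega)
          have a6 : (2 : ℝ) ^ (X - r + k + 1) = 2 * 2 ^ (X - r + k) := pow_succ' _ _
          have a7 : (2 : ℝ) ^ (c₀ + 1) = 2 * 2 ^ c₀ := pow_succ' _ _
          rw [abs_le] at a1 a2 a4 ⊢
          constructor <;> linarith only [a1, a2, a4, a5, a6, a7, a1.1, a1.2, a2.1, a2.2, a4.1, a4.2]
        have hpow1 : (2 : ℝ) ^ (X - r + k + 1) ≤ 2 ^ (X - r + k + Kc + 1) :=
          pow_le_pow_right₀ (by norm_num) (by omega)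
        have hpow2 : (2 : ℝ) ^ (φ r) ≤ 2 ^ (X - r + k + Kc + 1) := by
          refine pow_le_pow_right₀ (by norm_num) ?_
          rw [hφ]
          show X - (r + k1 + kb + 1) ≤ _
          omega
        have hpow3 : (2 : ℝ) ^ (X - r + k + Kc + 2) = 2 * 2 ^ (X - r + k + Kc + 1) := pow_succ' _ _
        have d1 := carry hp N₂ hΞ hL (fun u ω => (cl N₁ u (φ r) ω, (Γ r ω, x ω)))
          (fun u ω ω' h1 h2 h => by
            simp only [Prod.mk.injEq] at h
            have a1 := near ω ω' h1 h2 h.2.1 h.2.2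
            have a2 := cl_near N₁ u (φ r) h.1
            have a3 : |(N₁ ω : ℝ) - N₁ ω'| ≤ 2 ^ (φ r) := by exact_mod_cast a2
            have a4 : |(N₂ ω : ℝ) - N₂ ω'| ≤ 2 ^ (X - r + k + Kc + 2) := by
              rw [abs_le] at a1 a3 ⊢
              constructor <;> linarith only [hpow1, hpow2, hpow3, a1, a3, a1.1, a1.2, a3.1, a3.2]
            exact_mod_cast a4)
        have d2 := carry hp N₁ hΞ hL (fun u ω => (cl N₂ u (φ r) ω, (Γ r ω, x ω)))
          (fun u ω ω' h1 h2 h => by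
            simp only [Prod.mk.injEq] at h
            have a1 := near ω ω' h1 h2 h.2.1 h.2.2
            have a2 := cl_near N₂ u (φ r) h.1
            have a3 : |(N₂ ω : ℝ) - N₂ ω'| ≤ 2 ^ (φ r) := by exact_mod_cast a2
            have a4 : |(N₁ ω : ℝ) - N₁ ω'| ≤ 2 ^ (X - r + k + Kc + 2) := by
              rw [abs_le] at a1 a3 ⊢
              constructor <;> linarith only [hpow1, hpow2, hpow3, a1, a3, a1.1, a1.2, a3.1, a3.2]
            exact_mod_cast a4)
        have d3 := carry hp N₁ hΞ hL (fun u ω => (cl N₂ u (X - r + (k + 1 + Kc)) ω, (Γ r ω, x ω)))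
          (fun u ω ω' h1 h2 h => by
            simp only [Prod.mk.injEq] at h
            have a1 := near ω ω' h1 h2 h.2.1 h.2.2
            have a2 := cl_near N₂ u (X - r + (k + 1 + Kc)) h.1
            have a3 : |(N₂ ω : ℝ) - N₂ ω'| ≤ 2 ^ (X - r + (k + 1 + Kc)) := by exact_mod_cast a2
            have a5 : X - r + (k + 1 + Kc) = X - r + k + Kc + 1 := by omega
            rw [a5] at a3
            have a4 : |(N₁ ω : ℝ) - N₁ ω'| ≤ 2 ^ (X - r + k + Kc + 2) := by
              rw [abs_le] at a1 a3 ⊢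
              constructor <;> linarith only [hpow1, hpow3, a1, a3, a1.1, a1.2, a3.1, a3.2]
            exact_mod_cast a4)
        have hval : (2 : ℝ) ^ X * (4 * ((2 ^ (X - r + k + Kc + 2) : ℕ) : ℝ) / 2 ^ (X - r + c)) =
            2 ^ X * (16 / 2 ^ k12) := by
          have e4 : X - r + c = (X - r + k + Kc + 2) + k12' := by omega
          rw [e4, hk12]
          push_cast
          rw [pow_add (2 : ℝ) (X - r + k + Kc + 2) k12', pow_add (2 : ℝ) k12' 2]
          field_simp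
          norm_num
        rw [hval] at d1 d2 d3
        rw [Finset.sum_add_distrib, ← Finset.sum_div, ← Finset.sum_div, Finset.sum_add_distrib,
          Finset.sum_add_distrib]
        have b6 : (∑ u ∈ range (2 ^ X), c1 r u + ∑ u ∈ range (2 ^ X), c2 r u +
            ∑ u ∈ range (2 ^ X), c3 r u) / e + (∑ u ∈ range (2 ^ X), c1 r u) / a ≤
            (3 * (2 ^ X * (16 / 2 ^ k12))) / e + (2 ^ X * (16 / 2 ^ k12)) / a := by
          have g1 : ∑ u ∈ range (2 ^ X), c1 r u ≤ 2 ^ X * (16 / 2 ^ k12) := d1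
          have g2 : ∑ u ∈ range (2 ^ X), c2 r u ≤ 2 ^ X * (16 / 2 ^ k12) := d2
          have g3 : ∑ u ∈ range (2 ^ X), c3 r u ≤ 2 ^ X * (16 / 2 ^ k12) := d3
          gcongr
          linarith only [d1, d2, d3]
        refine b6.trans ?_
        have e5 : (3 * ((2 : ℝ) ^ X * (16 / 2 ^ k12))) / e + (2 ^ X * (16 / 2 ^ k12)) / a =
            2 ^ X * (16 * Mx / 2 ^ k12) := by
          rw [hMx]
          field_simp
        rw [e5]
        exact mul_le_mul_of_nonneg_left hκ (by positivity)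
      -- the weights
      exact by
       have hwr : ∀ r, ∑ ω, p ω * (wrow p N₂ t X (X - r + (k + 1)) Kc (64 / ε + 12) ω *
           ∑ v, Pool.Agent.H49.Ent.cond p (fun v => (Γ r v, x v)) (Γ r ω, x ω) v *
             (if 1 / 2 ^ (r + k1) ≤ |Z ω - Z v| then 1 else 0)) =
           (∑ u ∈ range (2 ^ X), f r u) / 2 ^ X := by
         intro r
         have e6 : (64 : ℝ) / ε + 12 = 32 / ε₀ + 12 := by
           rw [hε₀]
           field_simp
           norm_num
         simp only [hf]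
         rw [Finset.sum_comm, Finset.sum_div]
         refine Finset.sum_congr rfl fun ω _ => ?_
         rw [← Finset.mul_sum, ← Finset.sum_mul, mul_div_assoc]
         congr 1
         unfold wrow
         rw [e6]
         simp only [sub_add_eq_sub_sub]
         rw [div_mul_eq_mul_div]
       rw [Finset.sum_congr rfl fun r _ => hwr r]
       rw [← Finset.sum_div, div_le_iff₀ (by positivity)]
       have t1' : ∑ r ∈ I, ∑ u ∈ range (2 ^ X), f r u ≤
           ∑ r ∈ I, ∑ u ∈ range (2 ^ X), ((ε₀ + a) + ((S1 r u + S2 r u + S3 r u + S4 r u) / e +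
           S5 r / a) + ((c1 r u + c2 r u + c3 r u) / e + c1 r u / a)) :=
         Finset.sum_le_sum fun r hr => Finset.sum_le_sum fun u _ => hstep r hr u
       refine t1'.trans ?_
       have t2' : ∀ r ∈ I, ∑ u ∈ range (2 ^ X), ((ε₀ + a) + ((S1 r u + S2 r u + S3 r u + S4 r u) / e +
           S5 r / a) + ((c1 r u + c2 r u + c3 r u) / e + c1 r u / a)) ≤
           2 ^ X * (ε₀ + a + ε / 8) + ∑ u ∈ range (2 ^ X), ((S1 r u + S2 r u + S3 r u + S4 r u) / e +
           S5 r / a) := by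
         intro r hr
         rw [Finset.sum_add_distrib, Finset.sum_add_distrib, Finset.sum_const, Finset.card_range,
           nsmul_eq_mul]
         have := hC r hr
         push_cast
         linarith only [this]
       exact by
        refine (Finset.sum_le_sum t2').trans ?_
        rw [Finset.sum_add_distrib, Finset.sum_comm (s := I), Finset.sum_const, nsmul_eq_mul]
        have t3' : ∑ u ∈ range (2 ^ X), ∑ r ∈ I, ((S1 r u + S2 r u + S3 r u + S4 r u) / e + S5 r / a) ≤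
            ∑ u ∈ range (2 ^ X), ε / 8 * X := Finset.sum_le_sum fun u _ => hS u
        rw [Finset.sum_const, Finset.card_range, nsmul_eq_mul] at t3'
        have hcard : (I.card : ℝ) ≤ X := by
          rw [hI, Nat.card_Ico]
          exact_mod_cast (by omega : X + 1 - r₀ - r₀ ≤ X)
        have t4' : (I.card : ℝ) * (2 ^ X * (ε₀ + a + ε / 8)) ≤ X * (2 ^ X * (ε₀ + a + ε / 8)) :=
          mul_le_mul_of_nonneg_right hcard (by positivity)
        have t5' : ε₀ + a + ε / 8 = 6 * ε / 8 := by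
          rw [hε₀, ha]
          ring
        rw [t5'] at t4' ⊢
        push_cast at t3'
        have t6' : 0 ≤ (2 : ℝ) ^ X * (X * ε) := by positivity
        nlinarith only [t4', t3', t6']

end Pool.OC.RS
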