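import Pool.Agent.H86.OC.ROKa

/-!
# Heavy rows are not hit: raw form for tuples of samples
-/

set_option autoImplicit false

namespace Pool.OC.RS

open Finset Real
open Pool.Agent.H49.Ent Pool.Agent.H32.Dense Pool.STK Pool.KAF Pool.KAL Pool.KX

open Classical in
theorem rok_core (A k k₁ Kc Fc : ℕ) (e D : ℝ) (he : 0 < e) (he1 : e ≤ 1) (hD : 128 / e + 12 ≤ D) :
    ∃ (δ : ℝ) (r₀ : ℕ), 0 < δ ∧ ∀ (Om Lam Tau Nu : Type) [Fintype Om] (P : Om → ℝ) (L : Om → Lam)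
      (T : Om → Tau) (V : Lam → Nu) (N : Om → ℤ) (X : ℕ) (Z : Tau → Tau → Lam → ℝ),
      Det P (fun ω => (L ω, T ω)) N →
      (∀ ω ω' t₁ t₀, 0 < P ω → 0 < P ω' → V (L ω) = V (L ω') → Z t₁ t₀ (L ω) = Z t₁ t₀ (L ω')) →
      (∀ ω ω', 0 < P ω → 0 < P ω' → L ω = L ω' →
        |((N ω' : ℝ) - N ω) - 2 ^ X * Z (T ω) (T ω') (L ω)| ≤ 2 ^ A) →
      mi P N (fun ω => V (L ω)) T ≤ δ * X →
      ∀ (Ω ξ₀ ξ μ O : Type) (γ : ℕ → Type) [Fintype Ω] (Q : Ω → ℝ) (w₁ w₀ : Ω → Om) (x₀ : Ω → ξ₀)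
        (x : Ω → ξ) (m : Ω → μ) (G : ∀ s, Ω → γ s) (dg : ℕ → Ω → O) (F : Finset O)
        (q : Ω → ℤ) (W : Set Ω) (a b : ℕ), IsLaw Q →
        (∀ ω, law Q w₁ ω = P ω) → (∀ ω, law Q w₀ ω = P ω) →
        (∀ v, 0 < Q v → L (w₀ v) = L (w₁ v)) →
        Det Q x (fun v => (x₀ v, T (w₁ v), T (w₀ v))) →
        mi Q (fun v => L (w₁ v)) x (fun _ => ()) ≤ δ * X →
        Det Q (fun v => (x₀ v, L (w₁ v))) m →
        CH Q m (fun v => (x₀ v, V (L (w₁ v)))) ≤ δ * X →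
        (∀ s, a ≤ s → Det Q (fun v => (x₀ v, m v, V (L (w₁ v)))) (G s)) →
        (∀ s v, dg s v ∈ F) → F.card ≤ Fc →
        (∀ s, a ≤ s → Det Q (fun v => (G s v, dg s v)) (G (s + 1))) →
        (∀ s, a ≤ s → Det Q (G (s + 1)) (fun v => (G s v, dg s v))) →
        (∀ s, a ≤ s → Det Q (fun v => (x v, m v, G s v)) (fun v => (q v, v ∈ W))) →
        (∀ s v v', a ≤ s → 0 < Q v → 0 < Q v' → v ∈ W → x₀ v = x₀ v' → m v = m v' →
          G s v = G s v' →
          |Z (T (w₁ v)) (T (w₀ v)) (L (w₁ v)) - Z (T (w₁ v)) (T (w₀ v)) (L (w₁ v'))| ≤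
            (2 : ℝ) ^ ((k : ℤ) - (s + q v))) →
        b ≤ X →
        ∑ s ∈ Finset.Ico a b, ∑ v, Q v *
          (if v ∈ W ∧ (r₀ : ℤ) ≤ s + q v ∧ s + q v + r₀ ≤ X then
            wrow P N T X (X + k + 1 - ((s : ℤ) + q v).toNat) Kc D (w₁ v) *
              Pr (Pool.Agent.H49.Ent.cond Q (fun v => (x₀ v, m v, G s v)) (x₀ v, m v, G s v))
                {v' | (2 : ℝ) ^ (-((s : ℤ) + q v + k₁)) ≤
                  |Z (T (w₁ v)) (T (w₀ v)) (L (w₁ v)) - Z (T (w₁ v)) (T (w₀ v)) (L (w₁ v'))|}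
          else 0) ≤ e * X := by
  obtain ⟨K, hrow⟩ := row_thm k k₁ A e D he he1 hD Kc
  obtain ⟨δ', r₀, hδ', hrow⟩ := hrow (Fc ^ K)
  refine ⟨δ' / 3, r₀, by positivity, ?_⟩
  intro Om Lam Tau Nu _ P L T V N X Z hLN hZV hZ hH2 Ω ξ₀ ξ μ O γ _ Q w₁ w₀ x₀ x m G dg F q W a b hQ
    hw1 hw0 hLw hx hIx hm hCm hGV hdgF hFc hG1 hG2 hqW hcell hbX
  have hQ0 := hQ.nonneg
  -- a point of the space
  obtain ⟨v₀, hv₀⟩ : ∃ v₀, 0 < Q v₀ := by
    by_contra hcon
    push Not at hcon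
    have h1 : ∑ ω, Q ω = 0 := Finset.sum_eq_zero fun ω _ => le_antisymm (hcon ω) (hQ0 ω)
    rw [hQ.sum_one] at h1
    exact one_ne_zero h1
  have hP1 : ∀ v, 0 < Q v → 0 < P (w₁ v) := fun v hv => by
    rw [← hw1]
    exact law_pos hQ0 w₁ hv
  have hP0 : ∀ v, 0 < Q v → 0 < P (w₀ v) := fun v hv => by
    rw [← hw0]
    exact law_pos hQ0 w₀ hv
  -- the cells for all integers
  set n : ℤ → ℕ := fun s => max a s.toNat with hn
  have hna : ∀ s, a ≤ n s := fun s => le_max_left _ _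
  have hns : ∀ s : ℤ, s ≤ n s := fun s => by
    have h1 : s.toNat ≤ n s := le_max_right _ _
    omega
  have hn1 : ∀ s : ℤ, (a : ℤ) ≤ s → n (s + 1) = n s + 1 := fun s hs => by
    simp only [hn]
    omega
  have hn2 : ∀ s : ℤ, s < a → n (s + 1) = n s := fun s hs => by
    simp only [hn]
    omega
  have hn3 : ∀ s : ℤ, (a : ℤ) ≤ s → n s = s.toNat := fun s hs => by
    simp only [hn]
    omega
  set G' : ℤ → Ω → μ × (Σ j, γ j) := fun s v => (m v, (⟨n s, G (n s) v⟩ : Σ j, γ j)) with hG'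
  have hG'eq : ∀ s v v', G' s v = G' s v' ↔ m v = m v' ∧ G (n s) v = G (n s) v' := by
    intro s v v'
    simp only [hG', Prod.mk.injEq, Sigma.mk.injEq, heq_eq_eq, true_and]
  set dg' : ℤ → Ω → O := fun s v => if (a : ℤ) ≤ s then dg s.toNat v else dg 0 v₀ with hdg'
  have hdg'F : ∀ s v, dg' s v ∈ F := fun s v => by
    simp only [hdg']
    split_ifs
    · exact hdgF _ _
    · exact hdgF _ _
  -- one step
  have up : ∀ s v v', 0 < Q v → 0 < Q v' → G' s v = G' s v' → dg' s v = dg' s v' →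
      G' (s + 1) v = G' (s + 1) v' := by
    intro s v v' h1 h2 h3 h4
    rw [hG'eq] at h3 ⊢
    refine ⟨h3.1, ?_⟩
    rcases le_or_gt (a : ℤ) s with hs | hs
    · rw [hn1 s hs]
      refine hG1 (n s) (hna s) v v' h1 h2 (Prod.ext h3.2 ?_)
      simp only [hdg', if_pos hs] at h4
      show dg (n s) v = dg (n s) v'
      rw [hn3 s hs]
      exact h4
    · rw [hn2 s hs]
      exact h3.2
  have down : ∀ s v v', 0 < Q v → 0 < Q v' → G' (s + 1) v = G' (s + 1) v' →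
      G' s v = G' s v' ∧ dg' s v = dg' s v' := by
    intro s v v' h1 h2 h3
    rw [hG'eq] at h3 ⊢
    rcases le_or_gt (a : ℤ) s with hs | hs
    · rw [hn1 s hs] at h3
      have h4 := hG2 (n s) (hna s) v v' h1 h2 h3.2
      refine ⟨⟨h3.1, (Prod.ext_iff.mp h4).1⟩, ?_⟩
      simp only [hdg', if_pos hs]
      rw [← hn3 s hs]
      exact (Prod.ext_iff.mp h4).2
    · rw [hn2 s hs] at h3
      refine ⟨h3, ?_⟩
      simp only [hdg', if_neg (not_le.mpr hs)]
  set o : ℤ → Ω → (Fin K → O) := fun s v i => dg' (s + (i : ℕ)) v with ho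
  have downs : ∀ (i : ℕ) s v v', 0 < Q v → 0 < Q v' → G' (s + i) v = G' (s + i) v' →
      G' s v = G' s v' ∧ ∀ j < i, dg' (s + (j : ℕ)) v = dg' (s + (j : ℕ)) v' := by
    intro i
    induction i with
    | zero =>
      intro s v v' _ _ h
      rw [Nat.cast_zero, add_zero] at h
      exact ⟨h, fun j hj => absurd hj (Nat.not_lt_zero j)⟩
    | succ i ih =>
      intro s v v' h1 h2 h
      have e1 : s + ((i + 1 : ℕ) : ℤ) = s + i + 1 := by
        push_cast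
        ring
      rw [e1] at h
      obtain ⟨h3, h4⟩ := down (s + i) v v' h1 h2 h
      obtain ⟨h5, h6⟩ := ih s v v' h1 h2 h3
      refine ⟨h5, fun j hj => ?_⟩
      rcases Nat.lt_succ_iff_lt_or_eq.mp hj with h7 | h7
      · exact h6 j h7
      · rw [h7]
        exact h4
  have ups : ∀ (i : ℕ) s v v', 0 < Q v → 0 < Q v' → G' s v = G' s v' →
      (∀ j < i, dg' (s + (j : ℕ)) v = dg' (s + (j : ℕ)) v') → G' (s + i) v = G' (s + i) v' := by
    intro i
    induction i with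
    | zero =>
      intro s v v' _ _ h _
      rw [Nat.cast_zero, add_zero]
      exact h
    | succ i ih =>
      intro s v v' h1 h2 h h3
      have e1 : s + ((i + 1 : ℕ) : ℤ) = s + i + 1 := by
        push_cast
        ring
      rw [e1]
      exact up (s + i) v v' h1 h2 (ih s v v' h1 h2 h fun j hj => h3 j (Nat.lt_succ_of_lt hj))
        (h3 i (Nat.lt_succ_self i))
  -- the hypotheses
  have hx0 : Det Q x x₀ := fun v v' h1 h2 h => (Prod.ext_iff.mp (hx v v' h1 h2 h)).1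
  have hxt1 : Det Q x (fun v => T (w₁ v)) := fun v v' h1 h2 h =>
    (Prod.ext_iff.mp (Prod.ext_iff.mp (hx v v' h1 h2 h)).2).1
  have hxt0 : Det Q x (fun v => T (w₀ v)) := fun v v' h1 h2 h =>
    (Prod.ext_iff.mp (Prod.ext_iff.mp (hx v v' h1 h2 h)).2).2
  have hX0 : (0 : ℝ) ≤ X := Nat.cast_nonneg _
  have hLV : Det Q (fun v => L (w₁ v)) (fun v => V (L (w₁ v))) := fun v v' _ _ h => by
    show V (L (w₁ v)) = V (L (w₁ v'))
    have h' : L (w₁ v) = L (w₁ v') := h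
    rw [h']
  -- informations
  have i1 : mi Q (fun v => N (w₁ v)) (fun v => V (L (w₁ v))) (fun v => T (w₁ v)) ≤ δ' / 3 * X := by
    rw [mi_push hw1 N (fun ω => V (L ω)) T]
    exact hH2
  have i0 : mi Q (fun v => N (w₀ v)) (fun v => V (L (w₁ v))) (fun v => T (w₀ v)) ≤ δ' / 3 * X := by
    have h1 : mi Q (fun v => N (w₀ v)) (fun v => V (L (w₀ v))) (fun v => T (w₀ v)) ≤
        δ' / 3 * X := by
      rw [mi_push hw0 N (fun ω => V (L ω)) T]
      exact hH2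
    refine le_trans (mi_mono hQ0 _ _ _ _ fun v v' a1 a2 h => ?_) h1
    have h' : V (L (w₀ v)) = V (L (w₀ v')) := (Prod.ext_iff.mp h).1
    rw [hLw v a1, hLw v' a2] at h'
    exact h'
  have hN1 : Det Q (fun v => (L (w₁ v), T (w₁ v))) (fun v => N (w₁ v)) := fun v v' a1 a2 h =>
    hLN (w₁ v) (w₁ v') (hP1 v a1) (hP1 v' a2) h
  have hN0 : Det Q (fun v => (L (w₁ v), T (w₀ v))) (fun v => N (w₀ v)) := fun v v' a1 a2 h => by
    have h' := Prod.ext_iff.mp h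
    have e1 : L (w₁ v) = L (w₁ v') := h'.1
    rw [← hLw v a1, ← hLw v' a2] at e1
    exact hLN (w₀ v) (w₀ v') (hP0 v a1) (hP0 v' a2) (Prod.ext e1 h'.2)
  have j1 := mi_pos hQ0 (L := fun v => L (w₁ v)) (x := x) (t := fun v => T (w₁ v))
    (V := fun v => V (L (w₁ v))) (N := fun v => N (w₁ v)) hxt1 hLV hN1
  have j0 := mi_pos hQ0 (L := fun v => L (w₁ v)) (x := x) (t := fun v => T (w₀ v))
    (V := fun v => V (L (w₁ v))) (N := fun v => N (w₀ v)) hxt0 hLV hN0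
  have l1 := mi_label hQ0 (N := fun v => N (w₁ v)) (m := m) (V := fun v => V (L (w₁ v))) (x := x)
    (x₀ := x₀) hx0
  have l0 := mi_label hQ0 (N := fun v => N (w₀ v)) (m := m) (V := fun v => V (L (w₁ v))) (x := x)
    (x₀ := x₀) hx0
  have t1' := mi_times hQ0 (L := fun v => L (w₁ v)) (x := x) (t := fun v => T (w₁ v))
    (N := fun v => N (w₁ v)) hxt1 hN1
  have lin := mi_line hQ0 (L := fun v => L (w₁ v)) (x := x) (x₀ := x₀)
    (V := fun v => (m v, V (L (w₁ v)))) hx0 (fun v v' a1 a2 h =>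
      Prod.ext (hm v v' a1 a2 h) (hLV v v' a1 a2 (Prod.ext_iff.mp h).2))
  have hδX : 0 ≤ δ' * X := mul_nonneg hδ'.le hX0
  have main := hrow X a b (by omega) Ω ξ ξ₀ (μ × Nu) (μ × (Σ j, γ j)) (Fin K → O) Tau Q
    (fun v => N (w₀ v)) (fun v => N (w₁ v)) (fun v => T (w₁ v)) x x₀
    (fun v => (m v, V (L (w₁ v))))
    (fun v v' => -Z (T (w₁ v)) (T (w₀ v)) (L (w₁ v'))) G' o
    (Fintype.piFinset fun _ : Fin K => F) q W hQ hxt1 hx0
    (fun v hv => by
      have h1 := hZ (w₁ v) (w₀ v) (hP1 v hv) (hP0 v hv) (hLw v hv).symm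
      have e1 : ((N (w₁ v) : ℤ) : ℝ) - N (w₀ v) - 2 ^ X * -Z (T (w₁ v)) (T (w₀ v)) (L (w₁ v)) =
          -(((N (w₀ v) : ℝ) - N (w₁ v)) - 2 ^ X * Z (T (w₁ v)) (T (w₀ v)) (L (w₁ v))) := by ring
      rw [e1, abs_neg]
      exact h1)
    (fun v v' u a1 a2 _ h => by
      have h1 : T (w₁ v) = T (w₁ v') := hxt1 v v' a1 a2 h
      have h2 : T (w₀ v) = T (w₀ v') := hxt0 v v' a1 a2 h
      show -Z (T (w₁ v)) (T (w₀ v)) (L (w₁ u)) = -Z (T (w₁ v')) (T (w₀ v')) (L (w₁ u))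
      rw [h1, h2])
    (fun v u u' _ a2 a3 h => by
      have h1 := hZV (w₁ u) (w₁ u') (T (w₁ v)) (T (w₀ v)) (hP1 u a2) (hP1 u' a3)
        (Prod.ext_iff.mp h).2
      show -Z (T (w₁ v)) (T (w₀ v)) (L (w₁ u)) = -Z (T (w₁ v)) (T (w₀ v)) (L (w₁ u'))
      rw [h1])
    (fun s v v' a1 a2 h => (down s v v' a1 a2 (Prod.ext_iff.mp h).1).1)
    (fun s v v' a1 a2 h => by
      rw [hG'eq]
      have h' := Prod.ext_iff.mp h
      have h1 := Prod.ext_iff.mp h'.1
      exact ⟨h1.1, hGV (n s) (hna s) v v' a1 a2 (Prod.ext h'.2 (Prod.ext h1.1 h1.2))⟩)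
    (fun s v v' a1 a2 h => by
      have h' := Prod.ext_iff.mp h
      have h1 := (hG'eq s v v').1 h'.1
      exact hqW (n s) (hna s) v v' a1 a2 (Prod.ext h'.2 (Prod.ext h1.1 h1.2)))
    (fun s v => Fintype.mem_piFinset.mpr fun i => hdg'F _ _)
    (by
      rw [Fintype.card_piFinset, Finset.prod_const, Finset.card_univ, Fintype.card_fin]
      exact Nat.pow_le_pow_left hFc K)
    (fun s v v' a1 a2 h => by
      have h1 := (downs K s v v' a1 a2 (Prod.ext_iff.mp h).1).2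
      funext i
      exact h1 i i.2)
    (fun s v v' a1 a2 h => by
      have h' := Prod.ext_iff.mp h
      refine ups K s v v' a1 a2 (Prod.ext_iff.mp h'.2).1 fun j hj => ?_
      exact congrFun h'.1 (⟨j, hj⟩ : Fin K))
    (fun s v v' a1 a2 hW _ h hx => by
      have h1 := (hG'eq s v v').1 h
      have h2 := hcell (n s) v v' (hna s) a1 a2 hW hx h1.1 h1.2
      have h3 : (2 : ℝ) ^ ((k : ℤ) - (n s + q v)) ≤ (2 : ℝ) ^ ((k : ℤ) - (s + q v)) :=
        zpow_le_zpow_right₀ (by norm_num) (by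
          have := hns s
          omega)
      have e1 : -Z (T (w₁ v)) (T (w₀ v)) (L (w₁ v)) - -Z (T (w₁ v)) (T (w₀ v)) (L (w₁ v')) =
          -(Z (T (w₁ v)) (T (w₀ v)) (L (w₁ v)) - Z (T (w₁ v)) (T (w₀ v)) (L (w₁ v'))) := by ring
      rw [e1, abs_neg]
      exact h2.trans h3)
    (by linarith) (by linarith) (by linarith) (by linarith)
  -- the form of the statement
  have hsum : ∑ s ∈ Finset.Ico a b, ∑ v, Q v *
          (if v ∈ W ∧ (r₀ : ℤ) ≤ s + q v ∧ s + q v + r₀ ≤ X then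
            wrow P N T X (X + k + 1 - ((s : ℤ) + q v).toNat) Kc D (w₁ v) *
              Pr (Pool.Agent.H49.Ent.cond Q (fun v => (x₀ v, m v, G s v)) (x₀ v, m v, G s v))
                {v' | (2 : ℝ) ^ (-((s : ℤ) + q v + k₁)) ≤
                  |Z (T (w₁ v)) (T (w₀ v)) (L (w₁ v)) - Z (T (w₁ v)) (T (w₀ v)) (L (w₁ v'))|}
          else 0) = ∑ ω, Q ω * ∑ s ∈ Finset.Ico (a : ℤ) b,
        (if ω ∈ W ∧ (r₀ : ℤ) ≤ s + q ω ∧ s + q ω + r₀ ≤ X then
          wrow Q (fun v => N (w₁ v)) (fun v => T (w₁ v)) X (X + k + 1 - (s + q ω).toNat) Kc D ω *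
            Pr (Pool.Agent.H49.Ent.cond Q (fun v => (G' s v, x₀ v)) (G' s ω, x₀ ω))
              {v | (2 : ℝ) ^ (-(s + q ω + k₁)) ≤ |-Z (T (w₁ ω)) (T (w₀ ω)) (L (w₁ ω)) -
                -Z (T (w₁ ω)) (T (w₀ ω)) (L (w₁ v))|}
        else 0) := by
    have e0 : Finset.Ico (a : ℤ) b = (Finset.Ico a b).image (fun i : ℕ => (i : ℤ)) := by
      ext s
      rw [Finset.mem_Ico, Finset.mem_image]
      constructor
      · intro hs
        exact ⟨s.toNat, Finset.mem_Ico.mpr (by omega), by omega⟩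
      · rintro ⟨i, hi, rfl⟩
        have := Finset.mem_Ico.mp hi
        omega
    rw [Finset.sum_comm, e0]
    refine Finset.sum_congr rfl fun ω _ => ?_
    rw [Finset.sum_image (fun i _ j _ hij => by
      have hij' : (i : ℤ) = j := hij
      exact_mod_cast hij'), Finset.mul_sum]
    refine Finset.sum_congr rfl fun s hs => ?_
    have hsa : a ≤ s := (Finset.mem_Ico.mp hs).1
    congr 1
    have hns' : n (s : ℤ) = s := by
      simp only [hn]
      omega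
    by_cases hc : ω ∈ W ∧ (r₀ : ℤ) ≤ s + q ω ∧ s + q ω + r₀ ≤ X
    · rw [if_pos hc, if_pos hc]
      rw [wrow_push hw1 N T]
      congr 1
      have e1 : Pool.Agent.H49.Ent.cond Q (fun v => (x₀ v, m v, G s v)) (x₀ ω, m ω, G s ω) =
          Pool.Agent.H49.Ent.cond Q (fun v => (G' s v, x₀ v)) (G' s ω, x₀ ω) := by
        refine cond_congr hQ0 fun v _ => ?_
        constructor
        · intro h
          simp only [Prod.mk.injEq] at h
          refine Prod.ext ((hG'eq s v ω).2 ⟨h.2.1, ?_⟩) h.1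
          rw [hns']
          exact h.2.2
        · intro h
          have h' := Prod.ext_iff.mp h
          have h1 := (hG'eq s v ω).1 h'.1
          have h2 := h1.2
          rw [hns'] at h2
          exact Prod.ext h'.2 (Prod.ext h1.1 h2)
      rw [e1]
      congr 1
      have e2 : ∀ v, |-Z (T (w₁ ω)) (T (w₀ ω)) (L (w₁ ω)) - -Z (T (w₁ ω)) (T (w₀ ω)) (L (w₁ v))| =
          |Z (T (w₁ ω)) (T (w₀ ω)) (L (w₁ ω)) - Z (T (w₁ ω)) (T (w₀ ω)) (L (w₁ v))| := by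
        intro v
        rw [← abs_neg]
        congr 1
        ring
      simp only [e2]
    · rw [if_neg hc, if_neg hc]
  rw [hsum]
  exact main

end Pool.OC.RS
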