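import Pool.Agent.H86.OC.ROK

/-!
# Heavy rows are not hit
-/

set_option autoImplicit false

namespace Pool.OC.RS

open Finset Real
open Pool.Agent.H49.Ent Pool.Agent.H32.Dense Pool.STK Pool.KAF Pool.KAL Pool.KX

/-- The heavy rows of a sample. -/
noncomputable def Jw {Om Tau : Type} [Fintype Om] (P : Om → ℝ) (N : Om → ℤ) (T : Om → Tau)
    (X k K : ℕ) (D u : ℝ) (ω : Om) : Set ℕ :=
  {r | r ≤ X ∧ u ≤ wrow P N T X (X + k + 1 - r) K D ω}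

open Classical in
theorem rok_J (A k k₁ Fc : ℕ) (u e : ℝ) (hu : 0 < u) (he : 0 < e) :
    ∃ D₀ : ℝ, ∀ D ≥ D₀, ∀ Kc : ℕ, ∃ (δ : ℝ) (X₀ : ℕ), 0 < δ ∧
      ∀ (Om Lam Tau Nu : Type) [Fintype Om] (P : Om → ℝ) (L : Om → Lam)
      (T : Om → Tau) (V : Lam → Nu) (N : Om → ℤ) (X : ℕ) (Z : Tau → Tau → Lam → ℝ), X₀ ≤ X →
      Det P (fun ω => (L ω, T ω)) N →
      (∀ ω ω' t₁ t₀, 0 < P ω → 0 < P ω' → V (L ω) = V (L ω') → Z t₁ t₀ (L ω) = Z t₁ t₀ (L ω')) →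
      (∀ ω ω', 0 < P ω → 0 < P ω' → L ω = L ω' →
        |((N ω' : ℝ) - N ω) - 2 ^ X * Z (T ω) (T ω') (L ω)| ≤ 2 ^ A) →
      mi P N (fun ω => V (L ω)) T ≤ δ * X →
      ∀ (Ω ξ₀ ξ μ O : Type) (γ : ℕ → Type) [Fintype Ω] (Q : Ω → ℝ) (w₁ w₀ : Ω → Om) (x₀ : Ω → ξ₀)
        (x : Ω → ξ) (m : Ω → μ) (G : ∀ s, Ω → γ s) (dg : ℕ → Ω → O) (F : Finset O)
        (q : Ω → ℤ) (W : Set Ω) (a b : ℕ), IsLaw Q →
        (∀ ω, law Q w₁ ω = P ω) → (∀ ω, law Q w₀ ω = P ω) →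
        (∀ v, 0 < Q v → L (w₀ v) = L (w₁ v)) →
        Det Q x (fun v => (x₀ v, T (w₁ v), T (w₀ v))) →
        mi Q (fun v => L (w₁ v)) x (fun _ => ()) ≤ δ * X →
        Det Q (fun v => (x₀ v, L (w₁ v))) m →
        CH Q m (fun v => (x₀ v, V (L (w₁ v)))) ≤ δ * X →
        (∀ s, a ≤ s → Det Q (fun v => (x₀ v, m v, V (L (w₁ v)))) (G s)) →
        (∀ s v, dg s v ∈ F) → F.card ≤ Fc →
        (∀ s, a ≤ s → Det Q (fun v => (G s v, dg s v)) (G (s + 1))) →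
        (∀ s, a ≤ s → Det Q (G (s + 1)) (fun v => (G s v, dg s v))) →
        (∀ s, a ≤ s → Det Q (fun v => (x v, m v, G s v)) (fun v => (q v, v ∈ W))) →
        (∀ s v v', a ≤ s → 0 < Q v → 0 < Q v' → v ∈ W → x₀ v = x₀ v' → m v = m v' →
          G s v = G s v' →
          |Z (T (w₁ v)) (T (w₀ v)) (L (w₁ v)) - Z (T (w₁ v)) (T (w₀ v)) (L (w₁ v'))| ≤
            (2 : ℝ) ^ ((k : ℤ) - (s + q v))) →
        b ≤ X →
        ∑ s ∈ Finset.Ico a b, Pr (dbl Q (fun v => (x₀ v, m v, G s v))) {z | z.1 ∈ W ∧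
          0 ≤ (s : ℤ) + q z.1 ∧ ((s : ℤ) + q z.1).toNat ∈ Jw P N T X k Kc D u (w₁ z.1) ∧
          (2 : ℝ) ^ (-((s : ℤ) + q z.1 + k₁)) ≤
            |Z (T (w₁ z.1)) (T (w₀ z.1)) (L (w₁ z.1)) -
              Z (T (w₁ z.1)) (T (w₀ z.1)) (L (w₁ z.2))|} ≤ e * X := by
  set e' := min 1 (u * e / 2) with he'
  have he'0 : 0 < e' := lt_min one_pos (by positivity)
  refine ⟨128 / e' + 12, fun D hD Kc => ?_⟩
  obtain ⟨δ, r₀, hδ, hcore⟩ := rok_core A k k₁ Kc Fc e' D he'0 (min_le_left _ _) hD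
  obtain ⟨X₀, hX₀⟩ := exists_nat_ge (4 * r₀ / e)
  refine ⟨δ, X₀, hδ, ?_⟩
  intro Om Lam Tau Nu _ P L T V N X Z hX hLN hZV hZ hH2 Ω ξ₀ ξ μ O γ _ Q w₁ w₀ x₀ x m G dg F q W a b
    hQ hw1 hw0 hLw hx hIx hm hCm hGV hdgF hFc hG1 hG2 hqW hcell hbX
  have hQ0 := hQ.nonneg
  have core := hcore Om Lam Tau Nu P L T V N X Z hLN hZV hZ hH2 Ω ξ₀ ξ μ O γ Q w₁ w₀ x₀ x m G dg F q W
    a b hQ hw1 hw0 hLw hx hIx hm hCm hGV hdgF hFc hG1 hG2 hqW hcell hbX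
  set R : ℕ → Ω → ℝ := fun s v =>
    Pr (Pool.Agent.H49.Ent.cond Q (fun v => (x₀ v, m v, G s v)) (x₀ v, m v, G s v))
      {v' | (2 : ℝ) ^ (-((s : ℤ) + q v + k₁)) ≤
        |Z (T (w₁ v)) (T (w₀ v)) (L (w₁ v)) - Z (T (w₁ v)) (T (w₀ v)) (L (w₁ v'))|} with hR
  have hR0 : ∀ s v, 0 ≤ R s v := fun s v => Pr_nonneg' (cond_nonneg hQ0 _ _) _
  have hR1 : ∀ s v, 0 < Q v → R s v ≤ 1 := fun s v hv =>
    Pr_le_one (isLaw_cond hQ (fun v => (x₀ v, m v, G s v)) hv) _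
  set Bd : ℕ → Ω → Prop := fun s v => 0 ≤ (s : ℤ) + q v ∧ (s : ℤ) + q v ≤ X ∧
    ((s : ℤ) + q v < r₀ ∨ (X : ℤ) < s + q v + r₀) with hBd
  -- one depth
  have h1 : ∀ s ∈ Finset.Ico a b, Pr (dbl Q (fun v => (x₀ v, m v, G s v))) {z | z.1 ∈ W ∧
          0 ≤ (s : ℤ) + q z.1 ∧ ((s : ℤ) + q z.1).toNat ∈ Jw P N T X k Kc D u (w₁ z.1) ∧
          (2 : ℝ) ^ (-((s : ℤ) + q z.1 + k₁)) ≤
            |Z (T (w₁ z.1)) (T (w₀ z.1)) (L (w₁ z.1)) -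
              Z (T (w₁ z.1)) (T (w₀ z.1)) (L (w₁ z.2))|} ≤
      (∑ v, Q v * (if v ∈ W ∧ (r₀ : ℤ) ≤ s + q v ∧ s + q v + r₀ ≤ X then
            wrow P N T X (X + k + 1 - ((s : ℤ) + q v).toNat) Kc D (w₁ v) * R s v else 0)) / u +
      ∑ v, Q v * (if Bd s v then 1 else 0) := by
    intro s _
    have h2 := Pr_dbl (p := Q) (fun v => (x₀ v, m v, G s v)) (fun v v' => v ∈ W ∧
          0 ≤ (s : ℤ) + q v ∧ ((s : ℤ) + q v).toNat ∈ Jw P N T X k Kc D u (w₁ v) ∧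
          (2 : ℝ) ^ (-((s : ℤ) + q v + k₁)) ≤
            |Z (T (w₁ v)) (T (w₀ v)) (L (w₁ v)) -
              Z (T (w₁ v)) (T (w₀ v)) (L (w₁ v'))|)
    rw [h2, Finset.sum_div, ← Finset.sum_add_distrib]
    refine Finset.sum_le_sum fun v _ => ?_
    rcases (hQ0 v).eq_or_lt with hv | hv
    · rw [← hv]
      simp
    rw [mul_div_assoc, ← mul_add]
    refine mul_le_mul_of_nonneg_left ?_ hv.le
    by_cases c1 : v ∈ W ∧ 0 ≤ (s : ℤ) + q v ∧ ((s : ℤ) + q v).toNat ∈ Jw P N T X k Kc D u (w₁ v)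
    swap
    · have h3 : ∑ v', Pool.Agent.H49.Ent.cond Q (fun v => (x₀ v, m v, G s v)) (x₀ v, m v, G s v) v' *
          (if v ∈ W ∧ 0 ≤ (s : ℤ) + q v ∧ ((s : ℤ) + q v).toNat ∈ Jw P N T X k Kc D u (w₁ v) ∧
          (2 : ℝ) ^ (-((s : ℤ) + q v + k₁)) ≤ |Z (T (w₁ v)) (T (w₀ v)) (L (w₁ v)) -
              Z (T (w₁ v)) (T (w₀ v)) (L (w₁ v'))| then (1 : ℝ) else 0) = 0 := by
        refine Finset.sum_eq_zero fun v' _ => ?_
        rw [if_neg (fun h => c1 ⟨h.1, h.2.1, h.2.2.1⟩), mul_zero]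
      rw [h3]
      have h4 : 0 ≤ (if v ∈ W ∧ (r₀ : ℤ) ≤ s + q v ∧ s + q v + r₀ ≤ X then
            wrow P N T X (X + k + 1 - ((s : ℤ) + q v).toNat) Kc D (w₁ v) * R s v else 0) := by
        split_ifs
        · exact mul_nonneg (wrow_nonneg _ _ _ _ _ _ _ _) (hR0 _ _)
        · exact le_rfl
      have h5 : (0 : ℝ) ≤ (if Bd s v then 1 else 0) := by split_ifs <;> norm_num
      positivity
    have h3 : ∑ v', Pool.Agent.H49.Ent.cond Q (fun v => (x₀ v, m v, G s v)) (x₀ v, m v, G s v) v' *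
          (if v ∈ W ∧ 0 ≤ (s : ℤ) + q v ∧ ((s : ℤ) + q v).toNat ∈ Jw P N T X k Kc D u (w₁ v) ∧
          (2 : ℝ) ^ (-((s : ℤ) + q v + k₁)) ≤ |Z (T (w₁ v)) (T (w₀ v)) (L (w₁ v)) -
              Z (T (w₁ v)) (T (w₀ v)) (L (w₁ v'))| then (1 : ℝ) else 0) = R s v := by
      simp only [hR]
      rw [Pool.KAF.Pr_eq]
      refine Finset.sum_congr rfl fun v' _ => ?_
      by_cases c2 : (2 : ℝ) ^ (-((s : ℤ) + q v + k₁)) ≤ |Z (T (w₁ v)) (T (w₀ v)) (L (w₁ v)) -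
              Z (T (w₁ v)) (T (w₀ v)) (L (w₁ v'))|
      · rw [if_pos ⟨c1.1, c1.2.1, c1.2.2, c2⟩, mul_one]
        symm
        exact if_pos c2
      · rw [if_neg (fun h => c2 h.2.2.2), mul_zero]
        symm
        exact if_neg c2
    rw [h3]
    obtain ⟨c3, c4, c5⟩ := c1
    obtain ⟨c6, c7⟩ := c5
    have c8 : ((((s : ℤ) + q v).toNat : ℕ) : ℤ) = (s : ℤ) + q v := Int.toNat_of_nonneg c4
    have c6' : ((s : ℤ) + q v).toNat ≤ X := c6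
    by_cases c9 : (r₀ : ℤ) ≤ s + q v ∧ s + q v + r₀ ≤ X
    · rw [if_pos ⟨c3, c9⟩]
      have h5 : (0 : ℝ) ≤ (if Bd s v then 1 else 0) := by split_ifs <;> norm_num
      have h6 : R s v ≤ wrow P N T X (X + k + 1 - ((s : ℤ) + q v).toNat) Kc D (w₁ v) * R s v / u := by
        rw [le_div_iff₀ hu, mul_comm]
        exact mul_le_mul_of_nonneg_right c7 (hR0 _ _)
      linarith
    · have c11 : (s : ℤ) + q v ≤ X := by
        rw [← c8]
        exact_mod_cast c6'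
      have c10 : Bd s v := by
        refine ⟨c4, c11, ?_⟩
        by_contra hcon
        push Not at hcon
        exact c9 ⟨hcon.1, hcon.2⟩
      rw [if_pos c10, if_neg (fun h => c9 h.2), zero_div, zero_add]
      exact hR1 s v hv
  refine (Finset.sum_le_sum h1).trans ?_
  rw [Finset.sum_add_distrib, ← Finset.sum_div]
  -- the rows near the ends
  have h2 : ∑ s ∈ Finset.Ico a b, ∑ v, Q v * (if Bd s v then (1 : ℝ) else 0) ≤ 2 * r₀ := by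
    rw [Finset.sum_comm]
    have h3 : ∀ v, ∑ s ∈ Finset.Ico a b, Q v * (if Bd s v then (1 : ℝ) else 0) ≤ Q v * (2 * r₀) := by
      intro v
      rw [← Finset.mul_sum]
      refine mul_le_mul_of_nonneg_left ?_ (hQ0 v)
      rw [← Finset.sum_filter, Finset.sum_const, nsmul_eq_mul, mul_one]
      have h4 : ((Finset.Ico a b).filter (fun s => Bd s v)).card ≤
          (Finset.Ico (0 : ℤ) r₀ ∪ Finset.Ioc ((X : ℤ) - r₀) X).card := by
        refine Finset.card_le_card_of_injOn (fun s : ℕ => (s : ℤ) + q v) ?_ ?_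
        · intro s hs
          obtain ⟨_, g1, g2, g3⟩ := Finset.mem_filter.mp hs
          rw [Finset.mem_coe, Finset.mem_union, Finset.mem_Ico, Finset.mem_Ioc]
          rcases g3 with g3 | g3
          · exact Or.inl ⟨g1, g3⟩
          · exact Or.inr ⟨by
              show (X : ℤ) - r₀ < (s : ℤ) + q v
              omega, g2⟩
        · intro s _ s' _ h
          have h' : (s : ℤ) + q v = s' + q v := h
          omega
      have h5 := h4.trans (Finset.card_union_le _ _)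
      rw [Int.card_Ico, Int.card_Ioc] at h5
      have h6 : ((Finset.Ico a b).filter (fun s => Bd s v)).card ≤ 2 * r₀ := by omega
      exact_mod_cast h6
    refine (Finset.sum_le_sum fun v _ => h3 v).trans ?_
    rw [← Finset.sum_mul, hQ.sum_one, one_mul]
  have h4 : (4 : ℝ) * r₀ ≤ e * X := by
    have h5 : (4 : ℝ) * r₀ / e ≤ X := hX₀.trans (by exact_mod_cast hX)
    rw [div_le_iff₀ he] at h5
    linarith
  have h5 : (∑ s ∈ Finset.Ico a b, ∑ v, Q v * (if v ∈ W ∧ (r₀ : ℤ) ≤ s + q v ∧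
      s + q v + r₀ ≤ X then wrow P N T X (X + k + 1 - ((s : ℤ) + q v).toNat) Kc D (w₁ v) * R s v
      else 0)) / u ≤ e / 2 * X := by
    rw [div_le_iff₀ hu]
    have h6 : e' * X ≤ u * e / 2 * X :=
      mul_le_mul_of_nonneg_right (min_le_right _ _) (Nat.cast_nonneg _)
    have h7 := core.trans h6
    linarith
  linarith

end Pool.OC.RS
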