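import Pool.Agent.H86.OC.ROKJ
import Pool.Agent.H28.L1.Row0
import Pool.Agent.H48.M5.Defs
import Pool.Agent.H97.OC.Defs

/-!
# Heavy rows are not hit: the three typed forms
-/

set_option autoImplicit false

namespace Pool.OC.RS

open Finset Real
open Pool.Agent.H49.Ent Pool.Agent.H32.Dense Pool.STK Pool.KAF Pool.KAL Pool.KX

/-- The form of helper28's `RD`. -/
theorem rok_L1 (A k k₁ Fc : ℕ) (u e : ℝ) (hu : 0 < u) (he : 0 < e) :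
    ∃ D₀ : ℝ, ∀ D ≥ D₀, ∀ Kc : ℕ, ∃ (δ : ℝ) (X₀ : ℕ), 0 < δ ∧ ∀ d : Pool.L1.RD, d.OK A →
      X₀ ≤ d.X → d.H2 δ → Pool.L1.RowOK d (Jw d.P d.N d.T d.X k Kc D u) k k₁ Fc e δ := by
  obtain ⟨D₀, h⟩ := rok_J A k k₁ Fc u e hu he
  refine ⟨D₀, fun D hD Kc => ?_⟩
  obtain ⟨δ, X₀, hδ, h⟩ := h D hD Kc
  refine ⟨δ, X₀, hδ, fun d hd hX hH2 => ?_⟩
  intro Ω ξ₀ ξ μ O γ _ Q w₁ w₀ x₀ x m G dg F q W a b hQ hw1 hw0 hLw hx hIx hm hCm hGV hdgF hFc hG1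
    hG2 hq hW hcell hbX
  refine h d.Om d.Lam d.Tau d.Nu d.P d.L d.T d.V d.N d.X d.Z hX hd.hN hd.hV hd.hZ hH2 Ω ξ₀ ξ μ O γ Q
    w₁ w₀ x₀ x m G dg F q W a b hQ hw1 hw0 hLw hx hIx hm hCm hGV hdgF hFc hG1 hG2 ?_ hcell hbX
  intro s _ v v' h1 h2 h3
  simp only [Prod.mk.injEq] at h3
  exact Prod.ext (hq v v' h1 h2 (Prod.ext h3.1 h3.2.1)) (hW v v' h1 h2 (Prod.ext h3.1 h3.2.1))

/-- The form of helper48's `RDat`. -/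
theorem rok_M5 (A k k₁ b : ℕ) (u e : ℝ) (hu : 0 < u) (he : 0 < e) :
    ∃ D₀ : ℝ, ∀ D ≥ D₀, ∀ Kc : ℕ, ∃ (δ : ℝ) (X₀ : ℕ), 0 < δ ∧ ∀ d : Pool.M5.RDat, d.OK A →
      X₀ ≤ d.X → d.H2 δ → d.RowOK (Jw d.P d.N d.T d.X k Kc D u) k k₁ b e δ := by
  obtain ⟨D₀, h⟩ := rok_J A k k₁ b u e hu he
  refine ⟨D₀, fun D hD Kc => ?_⟩
  obtain ⟨δ, X₀, hδ, h⟩ := h D hD Kc
  refine ⟨δ, X₀, hδ, fun d hd hX hH2 => ?_⟩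
  intro Ω ξ₀ ξ μ γ _ Q w₁ w₀ x₀ x m G dg q W a₁ a₂ hQ hw1 hw0 hLw hx hIx hm hCm hGV hG1
    hG2 hqW hcell hbX
  exact h d.Om d.Lam d.Tau d.Nu d.P d.L d.T d.V d.N d.X (fun t₁ t₀ l => d.ZR t₁ t₀ (d.V l)) hX hd.hN
    (fun ω ω' t₁ t₀ _ _ h => by rw [h]) hd.hZ hH2 Ω ξ₀ ξ μ (Fin b) γ Q
    w₁ w₀ x₀ x m G dg Finset.univ q W a₁ a₂ hQ hw1 hw0 hLw hx hIx hm hCm hGV
    (fun s v => Finset.mem_univ _) (by simp) hG1 hG2 hqW hcell hbX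

/-- The form of helper97's `Dat`. -/
theorem rok_OC (k k₁ : ℕ) (u e : ℝ) (hu : 0 < u) (he : 0 < e) :
    ∃ D₀ : ℝ, ∀ D ≥ D₀, ∀ Kc : ℕ, ∃ (δ : ℝ) (X₀ : ℕ), 0 < δ ∧ ∀ (A : ℕ) (d : Pool.OC.Dat), d.OK A →
      X₀ ≤ d.X → d.H2 δ → Pool.OC.RowOK d (Jw d.P d.N d.T d.X k Kc D u) k k₁ e δ := by
  obtain ⟨D₀, h⟩ := rok_J 3 k k₁ 8 u e hu he
  refine ⟨D₀, fun D hD Kc => ?_⟩
  obtain ⟨δ, X₀, hδ, h⟩ := h D hD Kc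
  refine ⟨δ, X₀, hδ, fun A d hd hX hH2 => ?_⟩
  intro Ω ξ₀ ξ μ γ _ Q w₁ w₀ x₀ x m G dg q W a b hQ hw1 hw0 hLw hx hIx hCm hGV hG1
    hG2 hq hW hcell hbX
  refine h d.Om d.Lam d.Tau (ℤ × ℤ × ℤ) d.P d.L d.T d.V d.N d.X d.ZR hX hd.hN
    (fun ω ω' t₁ t₀ _ _ h => ?_) (fun ω ω' h1 h2 h3 => (hd.hZ ω ω' h1 h2 h3).trans (by norm_num))
    hH2 Ω ξ₀ ξ μ (Bool × Bool × Bool) γ Q w₁ w₀ x₀ x (fun v => m (d.L (w₁ v))) G dg Finset.univ q W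
    a b hQ hw1 hw0 hLw hx hIx (fun v v' _ _ h => ?_) ?_ hGV
    (fun s v => Finset.mem_univ _) (by decide) hG1 hG2 ?_ hcell hbX
  · have h' := h
    simp only [Dat.V, Prod.mk.injEq] at h'
    simp only [Dat.ZR, Dat.beR, Dat.yR, Dat.omR, h'.1, h'.2.1, h'.2.2]
  · have h' : d.L (w₁ v) = d.L (w₁ v') := (Prod.ext_iff.mp h).2
    show m (d.L (w₁ v)) = m (d.L (w₁ v'))
    rw [h']
  · refine le_trans ?_ hCm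
    have h1 := subadd hQ.nonneg hQ.sum_one (X := fun v => m (d.L (w₁ v)))
      (Y := fun v => (x₀ v, d.V (d.L (w₁ v))))
      (W := fun v => (m (d.L (w₁ v)), (x₀ v, d.V (d.L (w₁ v))))) (fun _ _ _ _ h => h)
    unfold CH
    linarith
  · intro s _ v v' h1 h2 h3
    simp only [Prod.mk.injEq] at h3
    exact Prod.ext (hq v v' h1 h2 (Prod.ext h3.1 h3.2.1)) (hW v v' h1 h2 (Prod.ext h3.1 h3.2.1))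

end Pool.OC.RS
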